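import Mathlib

set_option autoImplicit false

namespace Pool.Agent.H733Z.Col

open SimpleGraph

variable {V : Type} {G : SimpleGraph V}

theorem notMem_geod {r x y : V} (p : G.Walk r y) (hp : p.length ≤ G.dist r x) (hne : x ≠ y) :
    x ∉ p.support := by
  classical
  intro hx
  have h1 := dist_le (p.takeUntil x hx)
  have h2 : (p.takeUntil x hx).length + (p.dropUntil x hx).length = p.length := by
    rw [← Walk.length_append, Walk.take_spec]
  have h3 : (p.dropUntil x hx).length ≠ 0 := fun h => hne (Walk.eq_of_length_eq_zero h)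
  omega

theorem uniq_low {r x y p : V} {i : ℕ} (hg : ((2 * i + 3 : ℕ) : ℕ∞) ≤ G.egirth)
    (hr : G.Reachable r x) (hx : G.dist r x = i) (hy : G.Adj x y) (hp : G.Adj x p)
    (hy' : G.dist r y ≤ i) (hp' : G.dist r p ≤ i) : y = p := by
  classical
  by_contra hne
  obtain ⟨Py, hPy⟩ := (hr.trans hy.reachable).exists_walk_length_eq_dist
  obtain ⟨Pp, hPp⟩ := (hr.trans hp.reachable).exists_walk_length_eq_dist
  have n1 := notMem_geod Py (x := x) (by omega) hy.ne
  have n2 := notMem_geod Pp (x := x) (by omega) hp.ne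
  set w : G.Walk y x := Py.reverse.append (Pp.concat hp.symm) with hw
  have hlen : w.length = Py.length + Pp.length + 1 := by
    simp [hw, Walk.length_append, Walk.length_concat, add_assoc]
  have hnot : s(x, y) ∉ w.edges := by
    simp only [hw, Walk.edges_append, Walk.edges_reverse, Walk.edges_concat, List.mem_append,
      List.mem_reverse, List.concat_eq_append, List.mem_singleton, not_or]
    refine ⟨fun h => n1 (Py.fst_mem_support_of_mem_edges h),
      fun h => n2 (Pp.fst_mem_support_of_mem_edges h), fun h => ?_⟩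
    rcases Sym2.eq_iff.mp h with ⟨h1, _⟩ | ⟨_, h2⟩
    · exact hp.ne h1
    · exact hne h2
  have hc : (Walk.cons hy w.bypass).IsCycle :=
    (Walk.cons_isCycle_iff _ _).mpr ⟨w.bypass_isPath, fun h => hnot (w.edges_bypass_subset_edges h)⟩
  have h1 := hg.trans (egirth_le_length hc)
  have h2 := w.length_bypass_le_length
  rw [Walk.length_cons] at h1
  have h3 : 2 * i + 3 ≤ w.bypass.length + 1 := by exact_mod_cast h1
  omega

theorem dist_succ_le {r x y : V} (hr : G.Reachable r x) (hy : G.Adj x y) :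
    G.dist r y ≤ G.dist r x + 1 := by
  obtain ⟨p, hp⟩ := hr.exists_walk_length_eq_dist
  have := dist_le (p.concat hy)
  rwa [Walk.length_concat, hp] at this

/-- continuing the step from `x` to `y` by `s` further steps without turning back ends at `z` -/
def Ext (G : SimpleGraph V) : ℕ → V → V → V → Prop
  | 0, _, y, z => z = y
  | s + 1, x, y, z => ∃ w, G.Adj y w ∧ w ≠ x ∧ Ext G s y w z

theorem girth_mono {a b : ℕ} (h : a ≤ b) (hg : (b : ℕ∞) ≤ G.egirth) : (a : ℕ∞) ≤ G.egirth :=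
  le_trans (by exact_mod_cast h) hg

theorem step_up {r x y w : V} {i : ℕ} (hg : ((2 * (i + 1) + 3 : ℕ) : ℕ∞) ≤ G.egirth)
    (hr : G.Reachable r x) (hx : G.dist r x = i) (hxy : G.Adj x y) (hy : G.dist r y = i + 1)
    (hw : G.Adj y w) (hne : w ≠ x) : G.dist r w = i + 1 + 1 := by
  have h1 := dist_succ_le (hr.trans hxy.reachable) hw
  by_contra h
  exact hne (uniq_low hg (hr.trans hxy.reachable) hy hw hxy.symm (by omega) (by omega))

theorem ext_dist {r : V} (s : ℕ) : ∀ {x y z : V} {i : ℕ},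
    ((2 * (i + 1 + s) + 3 : ℕ) : ℕ∞) ≤ G.egirth → G.Reachable r x → G.dist r x = i → G.Adj x y →
    G.dist r y = i + 1 → Ext G s x y z →
    G.Reachable r z ∧ G.dist r z = i + 1 + s ∧ ∃ u, G.Adj z u := by
  induction s with
  | zero =>
    intro x y z i _ hr _ hxy hy h
    obtain rfl : z = y := h
    exact ⟨hr.trans hxy.reachable, hy, x, hxy.symm⟩
  | succ s ih =>
    rintro x y z i hg hr hx hxy hy ⟨w, hw, hne, h⟩
    have h1 := step_up (girth_mono (by omega) hg) hr hx hxy hy hw hne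
    have := ih (girth_mono (by omega) hg) (hr.trans hxy.reachable) hy hw h1 h
    exact ⟨this.1, by omega, this.2.2⟩

theorem ext_uniq {r : V} (s : ℕ) : ∀ {x y x' y' z : V} {i : ℕ},
    ((2 * (i + 1 + s) + 3 : ℕ) : ℕ∞) ≤ G.egirth → G.Reachable r x → G.dist r x = i → G.Adj x y →
    G.dist r y = i + 1 → G.Reachable r x' → G.dist r x' = i → G.Adj x' y' →
    G.dist r y' = i + 1 → Ext G s x y z → Ext G s x' y' z → y = y' := by
  induction s with
  | zero =>
    intro x y x' y' z i _ _ _ _ _ _ _ _ _ h h'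
    exact (show z = y from h).symm.trans h'
  | succ s ih =>
    rintro x y x' y' z i hg hr hx hxy hy hr' hx' hxy' hy' ⟨w, hw, hne, h⟩ ⟨w', hw', hne', h'⟩
    have h1 := step_up (girth_mono (by omega) hg) hr hx hxy hy hw hne
    have h2 := step_up (girth_mono (by omega) hg) hr' hx' hxy' hy' hw' hne'
    obtain rfl : w = w' := ih (girth_mono (by omega) hg) (hr.trans hxy.reachable) hy hw h1
      (hr'.trans hxy'.reachable) hy' hw' h2 h h'
    exact uniq_low (girth_mono (by omega) hg) ((hr.trans hxy.reachable).trans hw.reachable) h1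
      hw.symm hw'.symm (by omega) (by omega)

theorem grow (U : Finset V) (hU : ∀ v w, G.Adj v w → v ∈ U) (s k j : ℕ)
    (hg : ((2 * ((s + 1) * j) + 3 : ℕ) : ℕ∞) ≤ G.egirth) (P : ℕ → V → Prop)
    (hP : ∀ t x, P (t + 1) x → ∃ T : Finset V, k + 1 ≤ T.card ∧
      ∀ y ∈ T, G.Adj x y ∧ ∃ z, P t z ∧ Ext G s x y z)
    (r : V) (hr : P j r) (hrU : r ∈ U) : k ^ j ≤ U.card := by
  classical
  have key : ∀ t, t ≤ j → ∃ S : Finset V, k ^ t ≤ S.card ∧ ∀ z ∈ S, z ∈ U ∧ G.Reachable r z ∧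
      G.dist r z = (s + 1) * t ∧ P (j - t) z := by
    intro t
    induction t with
    | zero => exact fun _ => ⟨{r}, by simp, by simpa using ⟨hrU, hr⟩⟩
    | succ t ih =>
      intro ht
      obtain ⟨S, hS, hS'⟩ := ih (by omega)
      have hmul : (s + 1) * (t + 1) ≤ (s + 1) * j := Nat.mul_le_mul_left _ ht
      have hmul' : (s + 1) * (t + 1) = (s + 1) * t + 1 + s := by ring
      have h1 : ∀ x ∈ S, ∃ T : Finset V, k ≤ T.card ∧ ∀ y ∈ T, G.Adj x y ∧
          G.dist r y = (s + 1) * t + 1 ∧ ∃ z, P (j - (t + 1)) z ∧ Ext G s x y z := by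
        intro x hx
        obtain ⟨-, e1, e2, e3⟩ := hS' x hx
        rw [show j - t = j - (t + 1) + 1 by omega] at e3
        obtain ⟨T, hT, hT'⟩ := hP _ x e3
        refine ⟨T.filter (fun y => G.dist r y = (s + 1) * t + 1), ?_, fun y hy => ?_⟩
        · have h2 := Finset.card_filter_add_card_filter_not (s := T)
            (fun y => G.dist r y = (s + 1) * t + 1)
          have h3 : (T.filter (fun y => ¬ G.dist r y = (s + 1) * t + 1)).card ≤ 1 := by
            rw [Finset.card_le_one]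
            intro a ha b hb
            rw [Finset.mem_filter] at ha hb
            have a1 := dist_succ_le e1 (hT' a ha.1).1
            have b1 := dist_succ_le e1 (hT' b hb.1).1
            exact uniq_low (girth_mono (by omega) hg) e1 e2 (hT' a ha.1).1 (hT' b hb.1).1
              (by omega) (by omega)
          omega
        · rw [Finset.mem_filter] at hy
          exact ⟨(hT' y hy.1).1, hy.2, (hT' y hy.1).2⟩
      choose! T hT hT' using h1
      have hdis : ∀ x ∈ S, ∀ x' ∈ S, x ≠ x' → Disjoint (T x) (T x') := by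
        intro x hx x' hx' hne
        rw [Finset.disjoint_left]
        intro y hy hy'
        obtain ⟨a1, a2, -⟩ := hT' x hx y hy
        obtain ⟨b1, -, -⟩ := hT' x' hx' y hy'
        exact hne (uniq_low (girth_mono (by omega) hg) ((hS' x hx).2.1.trans a1.reachable) a2
          a1.symm b1.symm (by rw [(hS' x hx).2.2.1]; omega) (by rw [(hS' x' hx').2.2.1]; omega))
      have hY : k ^ (t + 1) ≤ (S.biUnion T).card := by
        rw [Finset.card_biUnion hdis]
        calc k ^ (t + 1) = k ^ t * k := pow_succ _ _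
          _ ≤ S.card * k := Nat.mul_le_mul_right _ hS
          _ = ∑ _x ∈ S, k := by simp
          _ ≤ _ := Finset.sum_le_sum hT
      have h2 : ∀ y ∈ S.biUnion T, ∃ z, P (j - (t + 1)) z ∧ ∃ x ∈ S, y ∈ T x ∧ Ext G s x y z := by
        intro y hy
        obtain ⟨x, hx, hy'⟩ := Finset.mem_biUnion.mp hy
        obtain ⟨-, -, z, a1, a2⟩ := hT' x hx y hy'
        exact ⟨z, a1, x, hx, hy', a2⟩
      choose! f hf hf' using h2
      refine ⟨(S.biUnion T).image f, ?_, ?_⟩
      · rw [Finset.card_image_of_injOn]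
        · exact hY
        · intro y hy y' hy' hyy
          obtain ⟨x, hx, a1, a2⟩ := hf' y hy
          obtain ⟨x', hx', b1, b2⟩ := hf' y' hy'
          rw [← hyy] at b2
          exact ext_uniq s (girth_mono (by omega) hg) (hS' x hx).2.1 (hS' x hx).2.2.1
            (hT' x hx y a1).1 (hT' x hx y a1).2.1 (hS' x' hx').2.1 (hS' x' hx').2.2.1
            (hT' x' hx' y' b1).1 (hT' x' hx' y' b1).2.1 a2 b2
      · intro z hz
        obtain ⟨y, hy, rfl⟩ := Finset.mem_image.mp hz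
        obtain ⟨x, hx, a1, a2⟩ := hf' y hy
        obtain ⟨c1, c2, u, c3⟩ := ext_dist s (girth_mono (by omega) hg) (hS' x hx).2.1
          (hS' x hx).2.2.1 (hT' x hx y a1).1 (hT' x hx y a1).2.1 a2
        exact ⟨hU _ _ c3, c1, by omega, hf y hy⟩
  obtain ⟨S, hS, hS'⟩ := key j le_rfl
  exact hS.trans (Finset.card_le_card fun z hz => (hS' z hz).1)

theorem exists_finset_of_lt_ncard {A : Set V} {k : ℕ} (h : k < A.ncard) :
    ∃ T : Finset V, k + 1 ≤ T.card ∧ ∀ y ∈ T, y ∈ A := by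
  have hfin : A.Finite := Set.finite_of_ncard_ne_zero (by omega)
  refine ⟨hfin.toFinset, ?_, fun y hy => hfin.mem_toFinset.mp hy⟩
  rw [← Set.ncard_eq_toFinset_card A hfin]
  exact h

theorem exists_kernel [Finite V] (Y : Set V) (R : V → V → Prop) (φ : V → ℕ)
    (h : ∀ x y, R x y → φ y < φ x) : ∃ I : Set V, ∀ y, y ∈ I ↔ y ∈ Y ∧ ∀ x, R x y → x ∉ I := by
  obtain ⟨M, hM⟩ := (Set.finite_range φ).bddAbove
  have hwf : WellFounded R := by
    refine Subrelation.wf (r := InvImage (· < ·) (fun x => M - φ x)) ?_ (InvImage.wf _ wellFounded_lt)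
    intro x y hxy
    have h1 := h x y hxy
    have h2 : φ x ≤ M := hM ⟨x, rfl⟩
    change M - φ x < M - φ y
    omega
  refine ⟨{y | hwf.fix (C := fun _ => Prop) (fun y F => y ∈ Y ∧ ∀ x (hx : R x y), ¬ F x hx) y},
    fun y => ?_⟩
  simp only [Set.mem_ofPred_eq]
  rw [hwf.fix_eq]

/-- vertices from which a large tree of depth `2 t` grows -/
def Bad (G : SimpleGraph V) (k : ℕ) : ℕ → V → Prop
  | 0, _ => True
  | t + 1, x => k < {y | G.Adj x y ∧ ∃ z, G.Adj y z ∧ z ≠ x ∧ Bad G k t z}.ncard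

theorem exists_rank [Finite V] (U : Finset V) (hU : ∀ v w, G.Adj v w → v ∈ U) (k j : ℕ)
    (hg : ((6 * j + 3 : ℕ) : ℕ∞) ≤ G.egirth) (hc : U.card < k ^ j) :
    ∃ ρ : V → ℕ, ∀ x, {y | G.Adj x y ∧ ¬ ∀ z, G.Adj y z → z ≠ x → ρ z < ρ x}.ncard ≤ k := by
  classical
  have h1 : ∀ x, ∃ t, ¬ Bad G k t x := by
    intro x
    by_cases hx : x ∈ U
    · refine ⟨j, fun hb => ?_⟩
      have := grow U hU 1 k j (girth_mono (by omega) hg) (Bad G k) (fun t x hx => by
        obtain ⟨T, hT, hT'⟩ := exists_finset_of_lt_ncard (show k < _ from hx)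
        refine ⟨T, hT, fun y hy => ?_⟩
        obtain ⟨a1, z, a2, a3, a4⟩ := hT' y hy
        exact ⟨a1, z, a4, z, a2, a3, rfl⟩) x hb hx
      omega
    · refine ⟨1, fun hb => ?_⟩
      obtain ⟨T, hT, hT'⟩ := exists_finset_of_lt_ncard (show k < _ from hb)
      obtain ⟨y, hy⟩ : T.Nonempty := Finset.card_pos.mp (by omega)
      exact hx (hU _ _ (hT' y hy).1)
  refine ⟨fun x => Nat.find (h1 x), fun x => ?_⟩
  have h2 := Nat.find_spec (h1 x)
  obtain ⟨t, ht⟩ : ∃ t, Nat.find (h1 x) = t + 1 := by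
    refine Nat.exists_eq_succ_of_ne_zero fun h => ?_
    rw [h] at h2
    exact h2 trivial
  rw [ht] at h2
  refine le_trans (Set.ncard_le_ncard ?_ (Set.toFinite _)) (not_lt.mp h2)
  rintro y ⟨a1, a2⟩
  push Not at a2
  obtain ⟨z, b1, b2, b3⟩ := a2
  refine ⟨a1, z, b1, b2, ?_⟩
  by_contra hb
  have := Nat.find_min' (h1 z) hb
  omega

theorem exists_sac [Finite V] (U : Finset V) (hU : ∀ v w, G.Adj v w → v ∈ U) (k j : ℕ)
    (hg : ((6 * j + 3 : ℕ) : ℕ∞) ≤ G.egirth) (hc : U.card < k ^ j) (Good : V → V → Prop)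
    (hadj : ∀ x y, Good x y → G.Adj x y) (huniq : ∀ x x' y, Good x y → Good x' y → x = x') (n : ℕ) :
    ∀ S : Finset V, S.card = n → S ⊆ U → ∃ Sac : Set V, (∀ x, {y | y ∈ Sac ∧ Good x y}.ncard ≤ k) ∧
      (∀ y ∈ Sac, ∃ x ∈ S, Good x y) ∧
      ∀ x ∈ S, ∀ x' ∈ S, ∀ y y', Good x y → Good x' y' → G.Adj y y' → y' ≠ x → x' ≠ y →
        y ∈ Sac ∨ y' ∈ Sac := by
  classical
  induction n with
  | zero =>
    intro S hS _
    rw [Finset.card_eq_zero] at hS
    subst hS
    exact ⟨∅, by simp, by simp, by simp⟩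
  | succ n ih =>
    intro S hS hSU
    obtain ⟨r, hr⟩ : S.Nonempty := Finset.card_pos.mp (by omega)
    have h1 : ∃ x ∈ S, {y | Good x y ∧ ∃ y', ∃ x' ∈ S, Good x' y' ∧ G.Adj y y' ∧ y' ≠ x ∧
        x' ≠ y}.ncard ≤ k := by
      by_contra hcon
      push Not at hcon
      have := grow U hU 2 k j (girth_mono (by omega) hg) (fun _ z => z ∈ S) (fun t x hx => by
        obtain ⟨T, hT, hT'⟩ := exists_finset_of_lt_ncard (hcon x hx)
        refine ⟨T, hT, fun y hy => ?_⟩
        obtain ⟨a1, y', x', a2, a3, a4, a5, a6⟩ := hT' y hy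
        exact ⟨hadj _ _ a1, x', a2, y', a4, a5, x', (hadj _ _ a3).symm, a6, rfl⟩) r hr (hSU hr)
      omega
    obtain ⟨x₀, hx₀, hN⟩ := h1
    obtain ⟨Sac, a1, a2, a3⟩ := ih (S.erase x₀) (by rw [Finset.card_erase_of_mem hx₀]; omega)
      ((Finset.erase_subset _ _).trans hSU)
    refine ⟨Sac ∪ {y | Good x₀ y ∧ ∃ y', ∃ x' ∈ S, Good x' y' ∧ G.Adj y y' ∧ y' ≠ x₀ ∧ x' ≠ y},
      fun x => ?_, ?_, ?_⟩
    · by_cases hx : x = x₀
      · subst hx
        refine le_trans (Set.ncard_le_ncard ?_ (Set.toFinite _)) hN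
        rintro y ⟨hy | hy, hy'⟩
        · obtain ⟨x', b1, b2⟩ := a2 y hy
          exact absurd (huniq _ _ _ b2 hy') (Finset.ne_of_mem_erase b1)
        · exact hy
      · refine le_trans (Set.ncard_le_ncard ?_ (Set.toFinite _)) (a1 x)
        rintro y ⟨hy | hy, hy'⟩
        · exact ⟨hy, hy'⟩
        · exact absurd (huniq _ _ _ hy' hy.1) hx
    · rintro y (hy | hy)
      · obtain ⟨x', b1, b2⟩ := a2 y hy
        exact ⟨x', Finset.mem_of_mem_erase b1, b2⟩
      · exact ⟨x₀, hx₀, hy.1⟩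
    · intro x hx x' hx' y y' b1 b2 b3 b4 b5
      by_cases e1 : x = x₀
      · subst e1
        exact Or.inl (Or.inr ⟨b1, y', x', hx', b2, b3, b4, b5⟩)
      by_cases e2 : x' = x₀
      · subst e2
        exact Or.inr (Or.inr ⟨b2, y, x, hx, b1, b3.symm, b5.symm, b4.symm⟩)
      rcases a3 x (Finset.mem_erase.mpr ⟨e1, hx⟩) x' (Finset.mem_erase.mpr ⟨e2, hx'⟩) y y'
        b1 b2 b3 b4 b5 with h | h
      · exact Or.inl (Or.inl h)
      · exact Or.inr (Or.inl h)

theorem few_vertices [Finite V] (U : Finset V) (hU : ∀ v w, G.Adj v w → v ∈ U) (k j : ℕ)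
    (hg : ((6 * j + 3 : ℕ) : ℕ∞) ≤ G.egirth) (hc : U.card < k ^ j) :
    ∃ I : Set V, (∀ u ∈ I, ∀ v ∈ I, ¬ G.Adj u v) ∧
      ∀ v ∉ I, {w | G.Adj v w ∧ w ∉ I}.ncard ≤ 2 * k + 1 := by
  classical
  obtain ⟨ρ, hρ⟩ := exists_rank U hU k j hg hc
  set Good : V → V → Prop := fun x y => G.Adj x y ∧ ∀ z, G.Adj y z → z ≠ x → ρ z < ρ x with hGood
  have huniq : ∀ x x' y, Good x y → Good x' y → x = x' := by
    intro x x' y h h'
    by_contra hne
    have h1 := h.2 x' h'.1.symm (Ne.symm hne)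
    have h2 := h'.2 x h.1.symm hne
    omega
  obtain ⟨Sac, a1, -, a3⟩ := exists_sac U hU k j hg hc Good (fun _ _ h => h.1) huniq _ U rfl
    subset_rfl
  obtain ⟨f, hf⟩ := Countable.exists_injective_nat V
  set Y : Set V := {y | (∃ x, Good x y) ∧ y ∉ Sac ∧ ¬ ∃ x, Good x y ∧ Good y x ∧ f x < f y} with hY
  set φ : V → ℕ := fun y => ρ y + if h : ∃ x, Good x y then ρ h.choose else 0 with hφ
  have hφ' : ∀ x y, Good x y → φ y = ρ y + ρ x := by
    intro x y h
    have h' : ∃ x, Good x y := ⟨x, h⟩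
    simp only [hφ, dif_pos h']
    rw [huniq _ _ _ h'.choose_spec h]
  obtain ⟨I, hI⟩ := exists_kernel Y (fun x y => Good x y ∧ x ∈ Y ∧ y ∈ Y) φ (by
    rintro x y ⟨b1, b2, b3⟩
    obtain ⟨x', hx'⟩ := b2.1
    rw [hφ' _ _ b1, hφ' _ _ hx']
    by_cases e : y = x'
    · subst e
      rcases lt_trichotomy (f x) (f y) with h | h | h
      · exact absurd ⟨x, b1, hx', h⟩ b3.2.2
      · exact absurd (hf h) b1.1.ne
      · exact absurd ⟨y, hx', b1, h⟩ b2.2.2
    · have := hx'.2 y b1.1 e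
      omega)
  refine ⟨I, fun y hy y' hy' hadj => ?_, fun v hv => ?_⟩
  · obtain ⟨c1, c2⟩ := (hI y).mp hy
    obtain ⟨d1, d2⟩ := (hI y').mp hy'
    obtain ⟨x, hx⟩ := c1.1
    obtain ⟨x', hx'⟩ := d1.1
    by_cases e1 : y' = x
    · subst e1
      exact c2 y' ⟨hx, d1, c1⟩ hy'
    by_cases e2 : x' = y
    · subst e2
      exact d2 x' ⟨hx', c1, d1⟩ hy
    rcases a3 x (hU _ _ hx.1) x' (hU _ _ hx'.1) y y' hx hx' hadj e1 e2 with h | h
    · exact c1.2.1 h
    · exact d1.2.1 h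
  · have hsub : {w | G.Adj v w ∧ w ∉ I} ⊆
        ({y | G.Adj v y ∧ ¬ ∀ z, G.Adj y z → z ≠ v → ρ z < ρ v} ∪ {y | y ∈ Sac ∧ Good v y})
          ∪ {y | Good y v} := by
      rintro y ⟨b1, b2⟩
      by_contra hcon
      simp only [Set.mem_union, Set.mem_ofPred_eq, not_or] at hcon
      obtain ⟨⟨c1, c2⟩, c3⟩ := hcon
      have hg' : Good v y := ⟨b1, by by_contra h; exact c1 ⟨b1, h⟩⟩
      apply b2
      rw [hI]
      refine ⟨⟨⟨v, hg'⟩, fun h => c2 ⟨h, hg'⟩, ?_⟩, ?_⟩
      · rintro ⟨x, d1, d2, -⟩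
        rw [huniq _ _ _ d1 hg'] at d2
        exact c3 d2
      · rintro x ⟨d1, -, -⟩
        rwa [huniq _ _ _ d1 hg']
    have h3 : {y | Good y v}.ncard ≤ 1 :=
      (Set.ncard_le_one (Set.toFinite _)).mpr fun a ha b hb => huniq _ _ _ ha hb
    have h4 := Set.ncard_union_le
      ({y | G.Adj v y ∧ ¬ ∀ z, G.Adj y z → z ≠ v → ρ z < ρ v} ∪ {y | y ∈ Sac ∧ Good v y})
      {y | Good y v}
    have h5 := Set.ncard_union_le
      {y | G.Adj v y ∧ ¬ ∀ z, G.Adj y z → z ≠ v → ρ z < ρ v} {y | y ∈ Sac ∧ Good v y}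
    have h6 := Set.ncard_le_ncard hsub (Set.toFinite _)
    have h7 := hρ v
    have h8 := a1 v
    omega

end Pool.Agent.H733Z.Col
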