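import Pool.Agent.Helper96.TwoFactor.Defs

set_option autoImplicit false

namespace Pool.Agent.H733Z.Col

open SimpleGraph Module Pool.Agent.Helper96.TwoFactor

variable {V : Type} {G : SimpleGraph V}

theorem exists_dart (e : G.edgeSet) : ∃ d : G.Dart, d.edge = e.1 := by
  obtain ⟨e, he⟩ := e
  induction e using Sym2.ind with
  | h u v => exact ⟨⟨(u, v), he⟩, rfl⟩

/-- a dart on a given edge -/
noncomputable def dartOf (e : G.edgeSet) : G.Dart := (exists_dart e).choose

theorem dartOf_edge (e : G.edgeSet) : (dartOf e).edge = e.1 := (exists_dart e).choose_spec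

/-- the boundary map of a labelling of the sides -/
noncomputable def DD {I : Type} (φ : G.Dart × Bool → I) :
    (I → ZMod 2) →ₗ[ZMod 2] (G.edgeSet → ZMod 2) where
  toFun s e := s (φ (dartOf e, true)) + s (φ (dartOf e, false))
  map_add' s t := by
    funext e
    simp only [Pi.add_apply]
    ring
  map_smul' c s := by
    funext e
    simp only [Pi.smul_apply, smul_eq_mul, RingHom.id_apply]
    ring

theorem DD_apply {I : Type} {rot : Equiv.Perm G.Dart} {tw : Sym2 V → Bool}
    {φ : G.Dart × Bool → I} (hφ : ∀ a b, SameFace G rot tw a b → φ a = φ b) (s : I → ZMod 2)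
    (d : G.Dart) (e : G.edgeSet) (h : d.edge = e.1) :
    DD φ s e = s (φ (d, true)) + s (φ (d, false)) := by
  change s (φ (dartOf e, true)) + s (φ (dartOf e, false)) = _
  rcases (dart_edge_eq_iff _ _).mp ((dartOf_edge e).trans h.symm) with h1 | h1
  · rw [h1]
  · rw [h1, hφ _ _ (SameFace.along d true), hφ _ _ (SameFace.along d false)]
    cases tw d.edge
    · simp [add_comm]
    · simp

open Classical in
/-- the incidence matrix modulo two -/
noncomputable def inc (G : SimpleGraph V) : Matrix V G.edgeSet (ZMod 2) :=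
  fun v e => if v ∈ e.1 then 1 else 0

open Classical in
theorem inc_mulVec [Fintype V] (x : G.edgeSet → ZMod 2) (v : V) :
    (inc G).mulVec x v = ∑ d ∈ Finset.univ.filter (fun d : G.Dart => d.fst = v),
      x ⟨d.edge, d.edge_mem⟩ := by
  simp only [Matrix.mulVec, dotProduct, inc, ite_mul, one_mul, zero_mul]
  rw [← Finset.sum_filter]
  symm
  refine Finset.sum_bij (fun d _ => ⟨d.edge, d.edge_mem⟩) ?_ ?_ ?_ ?_
  · intro d hd
    rw [Finset.mem_filter] at hd ⊢
    refine ⟨Finset.mem_univ _, ?_⟩
    rw [← hd.2]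
    exact Sym2.mem_mk_left _ _
  · intro d hd d' hd' h
    rw [Finset.mem_filter] at hd hd'
    rcases (dart_edge_eq_iff _ _).mp (congrArg Subtype.val h) with h1 | h1
    · exact h1
    · exfalso
      have h2 : d.fst = d'.snd := by rw [h1]; rfl
      exact d'.fst_ne_snd (hd'.2.trans (hd.2.symm.trans h2))
  · rintro ⟨e, he⟩ hv
    rw [Finset.mem_filter] at hv
    obtain ⟨w, rfl⟩ := Sym2.mem_iff_exists.mp hv.2
    exact ⟨⟨(v, w), he⟩, by simp, rfl⟩
  · intro d _
    rfl

open Classical in
theorem inc_DD [Fintype V] {I : Type} {rot : Equiv.Perm G.Dart} {tw : Sym2 V → Bool}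
    (hrot : IsRotation G rot)
    {φ : G.Dart × Bool → I} (hφ : ∀ a b, SameFace G rot tw a b → φ a = φ b) (s : I → ZMod 2) :
    (inc G).mulVec (DD φ s) = 0 := by
  funext v
  rw [inc_mulVec, Finset.sum_congr rfl fun d _ => DD_apply hφ s d _ rfl, Finset.sum_add_distrib]
  have : ∑ d ∈ Finset.univ.filter (fun d : G.Dart => d.fst = v), s (φ (d, true))
      = ∑ d ∈ Finset.univ.filter (fun d : G.Dart => d.fst = v), s (φ (d, false)) := by
    refine Finset.sum_equiv rot ?_ ?_
    · intro d
      simp [hrot.1 d]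
    · intro d _
      rw [hφ _ _ (SameFace.corner d)]
  rw [this]
  exact CharTwo.add_self_eq_zero _

theorem factor_le {A C : Type} [Finite A] [Finite C] (W : Submodule (ZMod 2) (A → ZMod 2))
    (π : A → C) (h : ∀ s ∈ W, ∀ a b, π a = π b → s a = s b) :
    finrank (ZMod 2) W ≤ Nat.card C := by
  have := Fintype.ofFinite C
  have h1 : W ≤ LinearMap.range (LinearMap.funLeft (ZMod 2) (ZMod 2) π) := by
    intro s hs
    refine ⟨Function.extend π s 0, ?_⟩
    funext a
    exact Function.FactorsThrough.extend_apply (fun a b hab => h s hs a b hab) 0 a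
  refine (Submodule.finrank_mono h1).trans ((LinearMap.finrank_range_le _).trans ?_)
  simp [Nat.card_eq_fintype_card]

open Classical in
theorem finrank_cycles [Fintype V] :
    finrank (ZMod 2) (LinearMap.ker (inc G).mulVecLin) + Nat.card V
      ≤ Nat.card G.edgeSet + Nat.card G.ConnectedComponent := by
  have h1 := LinearMap.finrank_range_add_finrank_ker (inc G).mulVecLin
  have h2 := LinearMap.finrank_range_add_finrank_ker (inc G).transpose.mulVecLin
  have h3 : finrank (ZMod 2) (LinearMap.range (inc G).transpose.mulVecLin)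
      = finrank (ZMod 2) (LinearMap.range (inc G).mulVecLin) := Matrix.rank_transpose (inc G)
  have h4 : finrank (ZMod 2) (LinearMap.ker (inc G).transpose.mulVecLin)
      ≤ Nat.card G.ConnectedComponent := by
    refine factor_le _ G.connectedComponentMk fun s hs a b hab => ?_
    have hadj : ∀ u v, G.Adj u v → s u = s v := by
      intro u v huv
      have := congrFun (LinearMap.mem_ker.mp hs) ⟨s(u, v), huv⟩
      simp only [Matrix.mulVecLin_apply, Matrix.mulVec, dotProduct, Matrix.transpose_apply, inc,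
        ite_mul, one_mul, zero_mul, Pi.zero_apply] at this
      rw [← Finset.sum_filter, show Finset.univ.filter (fun w => w ∈ s(u, v)) = {u, v} by
        ext w; simp, Finset.sum_pair huv.ne] at this
      exact (CharTwo.add_eq_zero).mp this
    obtain ⟨p⟩ := ConnectedComponent.exact hab
    induction p with
    | nil => rfl
    | cons h p ih => exact (hadj _ _ h).trans (ih (ConnectedComponent.sound ⟨p⟩))
  simp only [finrank_fintype_fun_eq_card] at h1 h2
  simp only [Nat.card_eq_fintype_card] at h4 ⊢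
  omega

theorem sameCycle_eq {X Y : Type} [Finite X] (σ : Equiv.Perm X) (f : X → Y)
    (h : ∀ x, f (σ x) = f x) {a b : X} (hab : σ.SameCycle a b) : f a = f b := by
  obtain ⟨n, rfl⟩ := hab.exists_nat_pow_eq
  induction n with
  | zero => rfl
  | succ n ih => rw [pow_succ', Equiv.Perm.mul_apply, h, ← ih ⟨n, by simp⟩]

theorem finrank_bd [Finite V] {rot : Equiv.Perm G.Dart} (tw : Sym2 V → Bool)
    (hrot : IsRotation G rot) :
    numFaces G rot tw ≤ finrank (ZMod 2) (LinearMap.range (DD (G := G)
      (fun a => (Sum.inl (Quot.mk _ a) : Quot (SameFace G rot tw) ⊕ {v : V // ∀ w, ¬ G.Adj v w}))))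
      + Nat.card G.ConnectedComponent := by
  classical
  have := Fintype.ofFinite V
  set φ : G.Dart × Bool → Quot (SameFace G rot tw) ⊕ {v : V // ∀ w, ¬ G.Adj v w} :=
    fun a => Sum.inl (Quot.mk _ a) with hφ
  have hc : ∀ a b, SameFace G rot tw a b → φ a = φ b := fun a b h => by
    simp only [hφ, Quot.sound h]
  have := Fintype.ofFinite (Quot (SameFace G rot tw) ⊕ {v : V // ∀ w, ¬ G.Adj v w})
  have h1 := LinearMap.finrank_range_add_finrank_ker (DD φ)
  rw [finrank_fintype_fun_eq_card, ← Nat.card_eq_fintype_card, Nat.card_sum] at h1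
  let π : Quot (SameFace G rot tw) ⊕ {v : V // ∀ w, ¬ G.Adj v w} → G.ConnectedComponent :=
    Sum.elim (Quot.lift (fun a => G.connectedComponentMk a.1.fst) (by
      rintro _ _ (d | ⟨d, b⟩)
      · simp [hrot.1 d]
      · exact ConnectedComponent.sound d.adj.reachable)) (fun v => G.connectedComponentMk v.1)
  have h2 : finrank (ZMod 2) (LinearMap.ker (DD φ)) ≤ Nat.card G.ConnectedComponent := by
    refine factor_le _ π fun s hs => ?_
    have e1 : ∀ d : G.Dart, s (φ (d, true)) = s (φ (d, false)) := fun d => by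
      have := congrFun (LinearMap.mem_ker.mp hs) ⟨d.edge, d.edge_mem⟩
      rw [DD_apply hc s d _ rfl] at this
      exact (CharTwo.add_eq_zero).mp this
    have e2 : ∀ (d : G.Dart) (b : Bool), s (φ (d, b)) = s (φ (d, true)) := fun d b => by
      cases b
      · exact (e1 d).symm
      · rfl
    have e3 : ∀ d d' : G.Dart, d.fst = d'.fst → s (φ (d, true)) = s (φ (d', true)) :=
      fun d d' h => sameCycle_eq rot (fun d => s (φ (d, true)))
        (fun d => by rw [hc _ _ (SameFace.corner d), e1]) (hrot.2 d d' h)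
    have e4 : ∀ u v (_ : G.Walk u v) (d d' : G.Dart), d.fst = u → d'.fst = v →
        s (φ (d, true)) = s (φ (d', true)) := by
      intro u v p
      induction p with
      | nil => exact fun d d' h h' => e3 d d' (h.trans h'.symm)
      | @cons a b c h p ih =>
        intro d d' h1 h2
        rw [e3 d ⟨(a, b), h⟩ h1, hc _ _ (SameFace.along ⟨(a, b), h⟩ true), e2]
        exact ih _ d' rfl h2
    have e5 : ∀ (v : V) (u : V), (∀ w, ¬ G.Adj v w) → G.Reachable v u → v = u := by
      rintro v u hv ⟨p⟩
      cases p with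
      | nil => rfl
      | cons h _ => exact absurd h (hv _)
    rintro (a | a) (b | b) hab
    · induction a using Quot.ind with
      | mk a =>
        induction b using Quot.ind with
        | mk b =>
          obtain ⟨p⟩ := ConnectedComponent.exact hab
          exact (e2 a.1 a.2).trans ((e4 _ _ p a.1 b.1 rfl rfl).trans (e2 b.1 b.2).symm)
    · induction a using Quot.ind with
      | mk a =>
        have := e5 b.1 a.1.fst b.2 (ConnectedComponent.exact hab).symm
        exact absurd (this ▸ a.1.adj) (b.2 _)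
    · induction b using Quot.ind with
      | mk b =>
        have := e5 a.1 b.1.fst a.2 (ConnectedComponent.exact hab)
        exact absurd (this ▸ b.1.adj) (a.2 _)
    · rw [Subtype.ext (e5 a.1 b.1 a.2 (ConnectedComponent.exact hab))]
  unfold numFaces
  omega

open Classical in
theorem girth_le_supp [Fintype V] (ℓ : ℕ) (hg : (ℓ : ℕ∞) ≤ G.egirth) (y : G.edgeSet → ZMod 2)
    (hy : (inc G).mulVec y = 0) (hy0 : y ≠ 0) :
    ℓ ≤ (Finset.univ.filter (fun e => y e ≠ 0)).card := by
  let H : SimpleGraph V :=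
    { Adj := fun u v => ∃ h : G.Adj u v, y ⟨s(u, v), h⟩ ≠ 0
      symm := ⟨fun u v ⟨h, h'⟩ => ⟨h.symm, by simpa only [Sym2.eq_swap] using h'⟩⟩
      loopless := ⟨fun u ⟨h, _⟩ => h.ne rfl⟩ }
  have hle : H ≤ G := fun u v h => h.1
  have hno : ∀ v, ¬ ∃! w, H.Adj v w := by
    rintro v ⟨w, ⟨h1, h2⟩, h3⟩
    have := congrFun hy v
    rw [inc_mulVec, Finset.sum_eq_single (⟨(v, w), h1⟩ : G.Dart)] at this
    · exact h2 this
    · rintro ⟨⟨a, b⟩, hab⟩ hd hne
      rw [Finset.mem_filter] at hd
      obtain rfl : a = v := hd.2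
      by_contra h4
      obtain rfl : b = w := h3 b ⟨hab, h4⟩
      exact hne rfl
    · simp
  have hcyc : ¬ H.IsAcyclic := by
    intro hac
    obtain ⟨⟨e, he⟩, hne⟩ := Function.ne_iff.mp hy0
    induction e using Sym2.ind with
    | h u v =>
      have huv : H.Adj u v := ⟨he, hne⟩
      set c := H.connectedComponentMk u with hc
      have ht := hac.isTree_connectedComponent c
      have hu : u ∈ c.supp := rfl
      have hv : v ∈ c.supp := ConnectedComponent.sound huv.symm.reachable
      have : Nontrivial c := ⟨⟨u, hu⟩, ⟨v, hv⟩, fun h => huv.ne (congrArg Subtype.val h)⟩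
      obtain ⟨x, hx⟩ := ht.exists_vert_degree_one_of_nontrivial
      obtain ⟨w, h1, h2⟩ := degree_eq_one_iff_existsUnique_adj.mp hx
      refine hno x.1 ⟨w.1, h1, fun w' hw' => ?_⟩
      have hw'' : w' ∈ c.supp := (ConnectedComponent.sound hw'.symm.reachable).trans x.2
      exact congrArg Subtype.val (h2 ⟨w', hw''⟩ hw')
  simp only [IsAcyclic, not_forall, not_not] at hcyc
  obtain ⟨v, p, hp⟩ := hcyc
  have h1 : (ℓ : ℕ∞) ≤ p.length := (hg.trans (egirth_anti hle)).trans (egirth_le_length hp)
  have h2 : ℓ ≤ p.edges.toFinset.card := by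
    rw [List.toFinset_card_of_nodup hp.isTrail.edges_nodup, Walk.length_edges]
    exact_mod_cast h1
  refine h2.trans ?_
  rw [← Finset.card_image_of_injective (Finset.univ.filter (fun e => y e ≠ 0))
    Subtype.val_injective]
  refine Finset.card_le_card fun e he => ?_
  have h3 := p.edges_subset_edgeSet (List.mem_toFinset.mp he)
  induction e using Sym2.ind with
  | h a b =>
    obtain ⟨h4, h5⟩ := h3
    exact Finset.mem_image.mpr ⟨⟨s(a, b), h4⟩, by simpa using h5, rfl⟩

open Classical in
theorem euler_bound [Fintype V] {rot : Equiv.Perm G.Dart} (tw : Sym2 V → Bool)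
    (hrot : IsRotation G rot) (ℓ : ℕ) (hg : (ℓ : ℕ∞) ≤ G.egirth) (U : Finset V) :
    (ℓ : ℤ) * (((Finset.univ.filter (fun e : G.edgeSet => ∀ v ∈ e.1, v ∈ U)).card : ℤ) - U.card
      - eulerGenus G rot tw)
      ≤ 2 * (Finset.univ.filter (fun e : G.edgeSet => ∀ v ∈ e.1, v ∈ U)).card := by
  set EH := Finset.univ.filter (fun e : G.edgeSet => ∀ v ∈ e.1, v ∈ U) with hEH
  set φ : G.Dart × Bool → Quot (SameFace G rot tw) ⊕ {v : V // ∀ w, ¬ G.Adj v w} :=
    fun a => Sum.inl (Quot.mk _ a) with hφ
  have hc : ∀ a b, SameFace G rot tw a b → φ a = φ b := fun a b h => by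
    simp only [hφ, Quot.sound h]
  set Z := LinearMap.ker (inc G).mulVecLin with hZ
  set B := LinearMap.range (DD φ) with hB
  let Θ : (G.edgeSet → ZMod 2) →ₗ[ZMod 2] (U → ZMod 2) × ({e // e ∉ EH} → ZMod 2) :=
    ((LinearMap.funLeft (ZMod 2) (ZMod 2) (fun u : U => u.1)).comp (inc G).mulVecLin).prod
      (LinearMap.funLeft (ZMod 2) (ZMod 2) (fun e : {e // e ∉ EH} => e.1))
  set K := LinearMap.ker Θ with hK
  have hK0 : ∀ x ∈ K, ∀ e, e ∉ EH → x e = 0 := fun x hx e he =>
    congrFun (congrArg Prod.snd (LinearMap.mem_ker.mp hx)) ⟨e, he⟩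
  have hKZ : K ≤ Z := by
    intro x hx
    rw [hZ, LinearMap.mem_ker]
    funext v
    by_cases hv : v ∈ U
    · exact congrFun (congrArg Prod.fst (LinearMap.mem_ker.mp hx)) ⟨v, hv⟩
    · rw [Matrix.mulVecLin_apply, inc_mulVec]
      refine Finset.sum_eq_zero fun d hd => hK0 x hx _ fun h => hv ?_
      rw [Finset.mem_filter] at hd h
      exact h.2 v (hd.2 ▸ Sym2.mem_mk_left _ _)
  have hBZ : B ≤ Z := by
    rintro _ ⟨s, rfl⟩
    exact inc_DD hrot hc s
  have f1 : EH.card ≤ finrank (ZMod 2) K + U.card := by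
    have h1 := LinearMap.finrank_range_add_finrank_ker Θ
    have h2 := Submodule.finrank_le (LinearMap.range Θ)
    rw [finrank_prod, finrank_fintype_fun_eq_card, finrank_fintype_fun_eq_card, Fintype.card_coe,
      Fintype.card_subtype_compl, Fintype.card_coe] at h2
    rw [finrank_fintype_fun_eq_card, ← hK] at h1
    have h3 : EH.card ≤ Fintype.card G.edgeSet := Finset.card_le_univ _
    omega
  have f2 := finrank_cycles (G := G)
  have f3 := finrank_bd tw hrot
  have f4 := Submodule.finrank_sup_add_finrank_inf_eq B K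
  have f5 : finrank (ZMod 2) (B ⊔ K : Submodule (ZMod 2) _) ≤ finrank (ZMod 2) Z :=
    Submodule.finrank_mono (sup_le hBZ hKZ)
  let r : G.Dart × Bool → G.Dart × Bool → Prop := fun a b => SameFace G rot tw a b ∨
    (∃ e, e ∉ EH ∧ a = (dartOf e, true) ∧ b = (dartOf e, false))
  have := Fintype.ofFinite (Quot r)
  set reg : G.Dart × Bool → Quot r := Quot.mk r with hreg
  have hc' : ∀ a b, SameFace G rot tw a b → reg a = reg b := fun a b h => Quot.sound (Or.inl h)
  set y : Quot r → G.edgeSet → ZMod 2 := fun R => DD reg (Pi.single R 1) with hy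
  set Rnz := Finset.univ.filter (fun R => y R ≠ 0) with hRnz
  have f6 : finrank (ZMod 2) (B ⊓ K : Submodule (ZMod 2) _) ≤ Rnz.card := by
    have h1 : B ⊓ K ≤ Submodule.span (ZMod 2) (Rnz.image y : Set (G.edgeSet → ZMod 2)) := by
      rintro _ ⟨⟨s, rfl⟩, hx⟩
      let t : Quot r → ZMod 2 := Quot.lift (fun a => s (φ a)) (by
        rintro a b (h | ⟨e, he, rfl, rfl⟩)
        · rw [hc a b h]
        · exact (CharTwo.add_eq_zero).mp (hK0 _ hx e he))
      have h2 : DD φ s = DD reg t := rfl
      have h3 : t = ∑ R, t R • Pi.single R 1 := by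
        funext R
        simp [Finset.sum_apply, Pi.single_apply]
      rw [h2, h3, map_sum]
      refine Submodule.sum_mem _ fun R _ => ?_
      rw [map_smul]
      refine Submodule.smul_mem _ _ ?_
      by_cases h4 : y R = 0
      · change y R ∈ _
        rw [h4]
        exact Submodule.zero_mem _
      · exact Submodule.subset_span (Finset.mem_coe.mpr (Finset.mem_image.mpr
          ⟨R, Finset.mem_filter.mpr ⟨Finset.mem_univ _, h4⟩, rfl⟩))
    exact (Submodule.finrank_mono h1).trans ((finrank_span_finset_le_card _).trans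
      Finset.card_image_le)
  have f7 : ℓ * Rnz.card ≤ 2 * EH.card := by
    have h1 : ∀ R ∈ Rnz, ℓ ≤ (EH.filter (fun e => y R e ≠ 0)).card := by
      intro R hR
      refine (girth_le_supp ℓ hg (y R) (inc_DD hrot hc' _) (Finset.mem_filter.mp hR).2).trans
        (Finset.card_le_card fun e he => ?_)
      rw [Finset.mem_filter] at he ⊢
      refine ⟨?_, he.2⟩
      by_contra h
      apply he.2
      change (Pi.single R 1 : Quot r → ZMod 2) (reg (dartOf e, true))
        + (Pi.single R 1 : Quot r → ZMod 2) (reg (dartOf e, false)) = 0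
      rw [show reg (dartOf e, true) = reg (dartOf e, false) from
        Quot.sound (Or.inr ⟨e, h, rfl, rfl⟩)]
      exact CharTwo.add_self_eq_zero _
    have h2 : ∀ e ∈ EH, (Rnz.filter (fun R => y R e ≠ 0)).card ≤ 2 := by
      intro e _
      refine le_trans (Finset.card_le_card (t := {reg (dartOf e, true), reg (dartOf e, false)})
        fun R hR => ?_) Finset.card_le_two
      by_contra h
      simp only [Finset.mem_insert, Finset.mem_singleton, not_or] at h
      apply (Finset.mem_filter.mp hR).2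
      change (Pi.single R 1 : Quot r → ZMod 2) (reg (dartOf e, true))
        + (Pi.single R 1 : Quot r → ZMod 2) (reg (dartOf e, false)) = 0
      rw [Pi.single_eq_of_ne' h.1, Pi.single_eq_of_ne' h.2, add_zero]
    calc ℓ * Rnz.card = ∑ _R ∈ Rnz, ℓ := by simp [mul_comm]
      _ ≤ ∑ R ∈ Rnz, (EH.filter (fun e => y R e ≠ 0)).card := Finset.sum_le_sum h1
      _ = ∑ e ∈ EH, (Rnz.filter (fun R => y R e ≠ 0)).card := by
        simp only [Finset.card_filter]
        exact Finset.sum_comm
      _ ≤ ∑ _e ∈ EH, 2 := Finset.sum_le_sum h2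
      _ = 2 * EH.card := by simp [mul_comm]
  have f8 : (EH.card : ℤ) - U.card - eulerGenus G rot tw ≤ Rnz.card := by
    unfold eulerGenus
    rw [← hφ, ← hB] at f3
    rw [← hZ] at f2
    omega
  calc (ℓ : ℤ) * ((EH.card : ℤ) - U.card - eulerGenus G rot tw) ≤ ℓ * Rnz.card := by gcongr
    _ ≤ _ := by exact_mod_cast f7

end Pool.Agent.H733Z.Col
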