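import Pool.Agent.Helper96.TwoFactor.Defs

set_option autoImplicit false

namespace Pool.Agent.H733Z.Col

open Pool.Agent.Helper96.TwoFactor

variable {V : Type}

/-- `G` has an embedding scheme (rotation system with edge signature) of Euler genus at most `g`. -/
def EmbedsEuler (G : SimpleGraph V) (g : ℕ) : Prop :=
  ∃ (rot : Equiv.Perm G.Dart) (tw : Sym2 V → Bool), IsRotation G rot ∧ eulerGenus G rot tw ≤ (g : ℤ)

/-- `G` is `(0, k)`-colourable: there is an independent set `I` such that every vertex outside `I`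
has at most `k` neighbours outside `I`. -/
def ZeroKColorable (G : SimpleGraph V) (k : ℕ) : Prop :=
  ∃ I : Set V, (∀ u ∈ I, ∀ v ∈ I, ¬ G.Adj u v) ∧ ∀ v ∉ I, {w | G.Adj v w ∧ w ∉ I}.ncard ≤ k

/-- The statement of the question for all girth bounds `ℓ ≥ ℓ₀`. -/
def Statement (ℓ₀ : ℕ) : Prop :=
  ∃ c : ℕ → ℝ, (∀ ℓ, 0 < c ℓ) ∧ Filter.Tendsto c Filter.atTop (nhds 0) ∧
    ∀ ℓ, ℓ₀ ≤ ℓ → ∃ C : ℝ, 0 < C ∧ ∀ g : ℕ, 1 ≤ g →
      ∀ (W : Type) [Finite W] (G : SimpleGraph W), (ℓ : ℕ∞) ≤ G.egirth → EmbedsEuler G g →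
        ZeroKColorable G ⌊C * (g : ℝ) ^ c ℓ⌋₊

end Pool.Agent.H733Z.Col
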