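import Pool.Agent.H733Z.Col1
import Pool.Agent.H733Z.Col2
import Pool.Agent.H733Z.ColDefs

set_option autoImplicit false

namespace Pool.Agent.H733Z.Col

open SimpleGraph Pool.Agent.Helper96.TwoFactor

variable {V : Type} {G : SimpleGraph V}

/-- the edges of `G` with both ends in `U` -/
def res (G : SimpleGraph V) (U : Finset V) : SimpleGraph V where
  Adj u v := G.Adj u v ∧ u ∈ U ∧ v ∈ U
  symm := ⟨fun _ _ h => ⟨h.1.symm, h.2.2, h.2.1⟩⟩
  loopless := ⟨fun _ h => h.1.ne rfl⟩

theorem res_le (U : Finset V) : res G U ≤ G := fun _ _ h => h.1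

theorem ZeroKColorable.mono {k k' : ℕ} (h : ZeroKColorable G k) (hk : k ≤ k') :
    ZeroKColorable G k' := by
  obtain ⟨I, h1, h2⟩ := h
  exact ⟨I, h1, fun v hv => (h2 v hv).trans hk⟩

theorem extend [Finite V] [DecidableEq V] (U : Finset V) (v : V) (k : ℕ)
    (h : ZeroKColorable (res G (U.erase v)) k)
    (hv : ((res G U).neighborSet v).ncard ≤ 1 ∨ (((res G U).neighborSet v).ncard ≤ k ∧
      ∀ w, (res G U).Adj v w → ((res G U).neighborSet w).ncard ≤ k)) :
    ZeroKColorable (res G U) k := by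
  obtain ⟨I, h1, h2⟩ := h
  have hadj : ∀ a b, (res G U).Adj a b → a ≠ v → b ≠ v → (res G (U.erase v)).Adj a b :=
    fun a b h ha hb => ⟨h.1, Finset.mem_erase.mpr ⟨ha, h.2.1⟩, Finset.mem_erase.mpr ⟨hb, h.2.2⟩⟩
  by_cases hno : ∀ w ∈ I, ¬ (res G U).Adj v w
  · refine ⟨insert v I, ?_, ?_⟩
    · rintro a (rfl | ha) b (rfl | hb) hab
      · exact hab.ne rfl
      · exact hno b hb hab
      · exact hno a ha hab.symm
      · by_cases e1 : a = v
        · exact hno b hb (e1 ▸ hab)
        by_cases e2 : b = v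
        · exact hno a ha (e2 ▸ hab.symm)
        exact h1 a ha b hb (hadj a b hab e1 e2)
    · intro a ha
      rw [Set.mem_insert_iff, not_or] at ha
      refine le_trans (Set.ncard_le_ncard ?_ (Set.toFinite _)) (h2 a ha.2)
      rintro b ⟨hab, hb⟩
      rw [Set.mem_insert_iff, not_or] at hb
      exact ⟨hadj a b hab ha.1 hb.1, hb.2⟩
  · push Not at hno
    obtain ⟨u, hu, huv⟩ := hno
    refine ⟨I \ {v}, ?_, ?_⟩
    · rintro a ⟨ha, ha'⟩ b ⟨hb, hb'⟩ hab
      exact h1 a ha b hb (hadj a b hab ha' hb')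
    · intro a ha
      by_cases e1 : a = v
      · subst e1
        rcases hv with hv | hv
        · have : {w | (res G U).Adj a w ∧ w ∉ I \ {a}} = ∅ := by
            ext w
            simp only [Set.mem_ofPred_eq, Set.mem_empty_iff_false, iff_false, not_and, not_not]
            intro hw
            obtain rfl : w = u := (Set.ncard_le_one (Set.toFinite _)).mp hv w hw u huv
            exact ⟨hu, fun h => huv.ne (Set.mem_singleton_iff.mp h).symm⟩
          rw [this]
          simp
        · exact le_trans (Set.ncard_le_ncard (fun w hw => hw.1) (Set.toFinite _)) hv.1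
      · have haI : a ∉ I := fun h => ha ⟨h, e1⟩
        by_cases e2 : (res G U).Adj v a
        · rcases hv with hv | hv
          · obtain rfl : a = u := (Set.ncard_le_one (Set.toFinite _)).mp hv a e2 u huv
            exact absurd hu haI
          · exact le_trans (Set.ncard_le_ncard (fun w hw => hw.1) (Set.toFinite _)) (hv.2 a e2)
        · refine le_trans (Set.ncard_le_ncard ?_ (Set.toFinite _)) (h2 a haI)
          rintro b ⟨hab, hb⟩
          have e3 : b ≠ v := fun h => e2 (h ▸ hab.symm)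
          exact ⟨hadj a b hab e1 e3, fun h => hb ⟨h, e3⟩⟩

open Classical in
theorem discharge [Fintype V] (H : SimpleGraph V) (U : Finset V) (hU : ∀ v w, H.Adj v w → v ∈ U)
    (k : ℕ) (hk : 28 ≤ k) (h1 : ∀ v ∈ U, 2 ≤ H.degree v)
    (h2 : ∀ v ∈ U, H.degree v = 2 → ∃ w, H.Adj v w ∧ k < H.degree w) :
    29 * U.card ≤ 20 * H.edgeFinset.card := by
  have e1 : ∑ v ∈ U, H.degree v = 2 * H.edgeFinset.card := by
    rw [← H.sum_degrees_eq_twice_card_edges]
    refine Finset.sum_subset (Finset.subset_univ _) fun v _ hv => ?_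
    rw [← card_neighborFinset_eq_degree, Finset.card_eq_zero]
    ext w
    simpa using fun h => hv (hU _ _ h)
  have e2 : (U.filter (fun v => H.degree v = 2)).card
      ≤ ∑ w ∈ U.filter (fun w => k < H.degree w), H.degree w := by
    refine le_trans (Finset.card_le_card (t := (U.filter (fun w => k < H.degree w)).biUnion
      (fun w => H.neighborFinset w)) fun v hv => ?_) (Finset.card_biUnion_le.trans (le_of_eq rfl))
    rw [Finset.mem_filter] at hv
    obtain ⟨w, a1, a2⟩ := h2 v hv.1 hv.2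
    exact Finset.mem_biUnion.mpr ⟨w, Finset.mem_filter.mpr ⟨hU _ _ a1.symm, a2⟩,
      (H.mem_neighborFinset _ _).mpr a1.symm⟩
  have e3 : ∑ v ∈ U, (29 + 9 * (if k < H.degree v then H.degree v else 0))
      ≤ ∑ v ∈ U, (10 * H.degree v + 9 * (if H.degree v = 2 then 1 else 0)) := by
    refine Finset.sum_le_sum fun v hv => ?_
    have := h1 v hv
    split_ifs <;> omega
  rw [Finset.sum_add_distrib, Finset.sum_add_distrib, ← Finset.mul_sum, ← Finset.mul_sum,
    ← Finset.mul_sum, ← Finset.sum_filter, ← Finset.card_filter, e1] at e3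
  simp only [Finset.sum_const, smul_eq_mul] at e3
  omega

theorem critical [Finite V] (g k : ℕ) (hk : 28 ≤ k) (hg : ((7 : ℕ) : ℕ∞) ≤ G.egirth)
    (he : EmbedsEuler G g) (hn : ¬ ZeroKColorable G k) :
    ∃ U : Finset V, U.card ≤ 28 * g ∧ ¬ ZeroKColorable (res G U) k := by
  classical
  have := Fintype.ofFinite V
  obtain ⟨rot, tw, hrot, heg⟩ := he
  have hex : ∃ n, ∃ U : Finset V, U.card = n ∧ ¬ ZeroKColorable (res G U) k := by
    refine ⟨_, Finset.univ, rfl, ?_⟩
    rwa [show res G Finset.univ = G by ext; simp [res]]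
  obtain ⟨U, hU, hUn⟩ := Nat.find_spec hex
  have hmin : ∀ v ∈ U, ZeroKColorable (res G (U.erase v)) k := by
    intro v hv
    by_contra h
    have h1 := Nat.find_min' hex ⟨_, rfl, h⟩
    rw [Finset.card_erase_of_mem hv] at h1
    have := Finset.card_pos.mpr ⟨v, hv⟩
    omega
  have hdeg : ∀ v, ((res G U).neighborSet v).ncard = (res G U).degree v := fun v => by
    rw [← card_neighborSet_eq_degree, Set.ncard_eq_toFinset_card', Set.toFinset_card]
  have h1 := discharge (res G U) U (fun v w h => h.2.1) k hk (fun v hv => by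
    by_contra h
    exact hUn (extend U v k (hmin v hv) (Or.inl (by rw [hdeg]; omega)))) (fun v hv h2 => by
    by_contra h
    push Not at h
    exact hUn (extend U v k (hmin v hv) (Or.inr ⟨by rw [hdeg]; omega, fun w hw => by
      rw [hdeg]; exact h w hw⟩)))
  have h2 := euler_bound tw hrot 7 hg U
  have h3 : (res G U).edgeFinset.card
      ≤ (Finset.univ.filter (fun e : G.edgeSet => ∀ v ∈ e.1, v ∈ U)).card := by
    rw [← Finset.card_image_of_injective (Finset.univ.filter (fun e : G.edgeSet => ∀ v ∈ e.1, v ∈ U))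
      Subtype.val_injective]
    refine Finset.card_le_card fun e he => ?_
    rw [mem_edgeFinset] at he
    induction e using Sym2.ind with
    | h a b =>
      obtain ⟨a1, a2, a3⟩ := he
      exact Finset.mem_image.mpr ⟨⟨s(a, b), a1⟩, by simpa using ⟨a2, a3⟩, rfl⟩
  refine ⟨U, ?_, hUn⟩
  have h4 : 29 * U.card ≤ 20 * (Finset.univ.filter (fun e : G.edgeSet => ∀ v ∈ e.1, v ∈ U)).card := by
    refine le_trans ?_ (Nat.mul_le_mul_left 20 h3)
    convert h1
  push_cast at h2
  omega

theorem colour_of_pow [Finite V] (g k j : ℕ) (hg : ((7 : ℕ) : ℕ∞) ≤ G.egirth)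
    (hj : j = 1 ∨ ((6 * j + 3 : ℕ) : ℕ∞) ≤ G.egirth) (he : EmbedsEuler G g) (hk : 28 * g < k ^ j)
    (K : ℕ) (hK : 28 ≤ K) (hK' : 2 * k + 1 ≤ K) : ZeroKColorable G K := by
  by_contra hn
  obtain ⟨U, h1, h2⟩ := critical g K hK hg he hn
  apply h2
  rcases hj with rfl | hj
  · refine ⟨∅, by simp, fun v _ => ?_⟩
    have : {w | (res G U).Adj v w ∧ w ∉ (∅ : Set V)}.ncard ≤ (U : Set V).ncard :=
      Set.ncard_le_ncard (fun w hw => hw.1.2.2) (Set.toFinite _)
    rw [Set.ncard_coe_finset] at this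
    rw [pow_one] at hk
    omega
  · exact ZeroKColorable.mono (few_vertices (G := res G U) U (fun v w h => h.2.1) k j
      (hj.trans (egirth_anti (res_le U))) (by omega)) hK'

theorem statement_seven : Statement 7 := by
  refine ⟨fun ℓ => 1 / ((max 1 ((ℓ - 3) / 6) : ℕ) : ℝ), fun ℓ => ?_, ?_, fun ℓ hℓ => ⟨59, by norm_num,
    fun g hg W _ G h1 h2 => ?_⟩⟩
  · have : 0 < max 1 ((ℓ - 3) / 6) := by omega
    positivity
  · refine tendsto_one_div_atTop_nhds_zero_nat.comp (f := fun ℓ : ℕ => max 1 ((ℓ - 3) / 6)) ?_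
    refine Filter.tendsto_atTop_atTop.mpr fun b => ⟨6 * b + 3, fun a ha => ?_⟩
    omega
  · set j := max 1 ((ℓ - 3) / 6) with hj
    have hj0 : j ≠ 0 := by omega
    have hj1 : (1 : ℝ) ≤ j := by exact_mod_cast Nat.one_le_iff_ne_zero.mpr hj0
    have hg1 : (1 : ℝ) ≤ g := by exact_mod_cast hg
    set x : ℝ := (g : ℝ) ^ (1 / (j : ℝ)) with hx
    have hx1 : 1 ≤ x := Real.one_le_rpow hg1 (by positivity)
    have hxj : x ^ j = g := by
      rw [hx, one_div, Real.rpow_inv_natCast_pow (by positivity) hj0]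
    refine colour_of_pow g (⌊28 * x⌋₊ + 1) j (girth_mono hℓ h1) ?_ h2 ?_ _ ?_ ?_
    · by_cases h : j = 1
      · exact Or.inl h
      · exact Or.inr (girth_mono (by omega) h1)
    · have h3 : 28 * x < (⌊28 * x⌋₊ + 1 : ℕ) := by
        push_cast
        exact Nat.lt_floor_add_one _
      have h4 : (28 * x) ^ j < ((⌊28 * x⌋₊ + 1 : ℕ) : ℝ) ^ j :=
        pow_lt_pow_left₀ h3 (by positivity) hj0
      have h5 : (28 : ℝ) * g ≤ (28 * x) ^ j := by
        rw [mul_pow, hxj]
        gcongr
        exact le_self_pow₀ (by norm_num) hj0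
      exact_mod_cast h5.trans_lt h4
    · apply Nat.le_floor
      push_cast
      linarith
    · apply Nat.le_floor
      have := Nat.floor_le (show 0 ≤ 28 * x by positivity)
      push_cast
      linarith

end Pool.Agent.H733Z.Col
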