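import Pool.Agent.H733Z.Col3

set_option autoImplicit false

namespace Pool.Agent.H733Z.Col

open SimpleGraph Pool.Agent.Helper96.TwoFactor

/-- types of vertices -/
abbrev TT := Fin 4 ⊕ (Fin 4 × Bool)

/-- adjacency of types -/
def adjQ : TT → TT → Bool
  | .inl h, .inl h' => h' == h + 2
  | .inl h, .inr (s, b) => h == (if b then s + 1 else s)
  | .inr (s, b), .inl h => h == (if b then s + 1 else s)
  | .inr (s, b), .inr (s', b') => s == s' && b' == !b

theorem adjQ_symm : ∀ a b, adjQ a b = adjQ b a := by decide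

theorem adjQ_irrefl : ∀ a, adjQ a a = false := by decide

theorem adjQ_3 : ∀ a b, adjQ a b → ∀ c, adjQ b c → adjQ c a = false := by decide

theorem adjQ_4 : ∀ a b, adjQ a b → ∀ c, adjQ b c → ∀ d, adjQ c d → adjQ d a → a = c ∨ b = d := by
  decide

theorem adjQ_5 : ∀ a b, adjQ a b → ∀ c, adjQ b c → ∀ d, adjQ c d → ∀ e, adjQ d e →
    adjQ e a = false := by decide

/-- vertices -/
abbrev WW (n : ℕ) := Fin 4 ⊕ (Fin 4 × Bool × Fin (n + 1))

variable {n : ℕ}

/-- the type of a vertex -/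
def tp : WW n → TT
  | .inl h => .inl h
  | .inr (s, b, _) => .inr (s, b)

/-- indices agree -/
def agree : WW n → WW n → Prop
  | .inr (_, _, i), .inr (_, _, i') => i = i'
  | _, _ => True

/-- four hubs, joined cyclically by bundles of paths of length three, and two diagonals -/
def GW (n : ℕ) : SimpleGraph (WW n) where
  Adj u v := adjQ (tp u) (tp v) ∧ agree u v
  symm := ⟨by
    rintro u v ⟨h1, h2⟩
    refine ⟨adjQ_symm _ _ ▸ h1, ?_⟩
    rcases u with u | ⟨s, b, i⟩ <;> rcases v with v | ⟨s', b', i'⟩ <;> simp_all [agree]⟩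
  loopless := ⟨fun u h => by simpa [adjQ_irrefl] using h.1⟩

theorem adj_hh (h h' : Fin 4) : (GW n).Adj (.inl h) (.inl h') ↔ h' = h + 2 := by
  simp [GW, tp, agree, adjQ]

theorem adj_hw (h s : Fin 4) (b : Bool) (i : Fin (n + 1)) :
    (GW n).Adj (.inl h) (.inr (s, b, i)) ↔ h = (if b then s + 1 else s) := by
  simp [GW, tp, agree, adjQ]

theorem adj_wh (h s : Fin 4) (b : Bool) (i : Fin (n + 1)) :
    (GW n).Adj (.inr (s, b, i)) (.inl h) ↔ h = (if b then s + 1 else s) := by
  simp [GW, tp, agree, adjQ]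

theorem adj_ww (s s' : Fin 4) (b b' : Bool) (i i' : Fin (n + 1)) :
    (GW n).Adj (.inr (s, b, i)) (.inr (s', b', i')) ↔ s = s' ∧ b' = !b ∧ i = i' := by
  simp [GW, tp, agree, adjQ, and_assoc]

theorem common {a b c d : WW n} (h1 : (GW n).Adj a b) (h2 : (GW n).Adj b c) (h3 : (GW n).Adj c d)
    (h4 : (GW n).Adj d a) (ht : tp a = tp c) : a = c ∨ b = d := by
  rcases a with a | ⟨s, β, i⟩ <;> rcases c with c | ⟨s', β', i'⟩
  · left
    simpa [tp] using ht
  · simp [tp] at ht
  · simp [tp] at ht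
  · simp only [tp, Sum.inr.injEq, Prod.mk.injEq] at ht
    obtain ⟨rfl, rfl⟩ := ht
    rcases b with b | ⟨s1, β1, i1⟩
    · rcases d with d | ⟨s2, β2, i2⟩
      · right
        rw [adj_wh] at h1 h3
        rw [h1, h3]
      · left
        rw [adj_ww] at h3 h4
        rw [h3.2.2, h4.2.2]
    · left
      rw [adj_ww] at h1 h2
      rw [h1.2.2, h2.2.2]

theorem GW_girth : ((6 : ℕ) : ℕ∞) ≤ (GW n).egirth := by
  rw [le_egirth]
  intro a p hp
  have h3 := hp.three_le_length
  by_contra hlt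
  have hl : p.length < 6 := by
    by_contra h
    exact hlt (by exact_mod_cast not_lt.mp h)
  rcases p with _ | ⟨h1, p⟩
  · simp at h3
  rcases p with _ | ⟨h2, p⟩
  · simp at h3
  rcases p with _ | ⟨h3', p⟩
  · simp at h3
  rcases p with _ | ⟨h4, p⟩
  · simpa [adjQ_3 _ _ h1.1 _ h2.1] using h3'.1
  rcases p with _ | ⟨h5, p⟩
  · have hn := hp.support_nodup
    simp only [Walk.support_cons, Walk.support_nil, List.tail_cons, List.nodup_cons, List.mem_cons,
      not_or] at hn
    rcases adjQ_4 _ _ h1.1 _ h2.1 _ h3'.1 h4.1 with h | h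
    · rcases common h1 h2 h3' h4 h with h' | h'
      · exact hn.2.1.2.1 h'.symm
      · exact hn.1.2.1 h'
    · rcases common h2 h3' h4 h1 h with h' | h'
      · exact hn.1.2.1 h'
      · exact hn.2.1.2.1 h'
  rcases p with _ | ⟨h6, p⟩
  · simpa [adjQ_5 _ _ h1.1 _ h2.1 _ h3'.1 _ h4.1] using h5.1
  · simp only [Walk.length_cons] at hl
    omega

theorem GW_not (k : ℕ) : ¬ ZeroKColorable (GW (2 * k)) k := by
  rintro ⟨I, h1, h2⟩
  have e1 : ∃ s : Fin 4, Sum.inl s ∉ I ∧ Sum.inl (s + 1) ∉ I := by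
    have a1 : Sum.inl 0 ∉ I ∨ Sum.inl 2 ∉ I := by
      by_contra h
      push Not at h
      exact h1 _ h.1 _ h.2 ((adj_hh _ _).mpr (by decide))
    have a2 : Sum.inl 1 ∉ I ∨ Sum.inl 3 ∉ I := by
      by_contra h
      push Not at h
      exact h1 _ h.1 _ h.2 ((adj_hh _ _).mpr (by decide))
    rcases a1 with a1 | a1 <;> rcases a2 with a2 | a2
    · exact ⟨0, a1, a2⟩
    · exact ⟨3, a2, a1⟩
    · exact ⟨1, a2, a1⟩
    · exact ⟨2, a1, a2⟩
  obtain ⟨s, a1, a2⟩ := e1
  have key : ∀ b : Bool, Sum.inl (if b then s + 1 else s) ∉ I →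
      {i : Fin (2 * k + 1) | Sum.inr (s, b, i) ∉ I}.ncard ≤ k := by
    intro b hb
    refine le_trans ?_ (h2 _ hb)
    refine Set.ncard_le_ncard_of_injOn (fun i => Sum.inr (s, b, i)) (fun i hi => ?_) ?_
    · exact ⟨(adj_hw _ _ _ _).mpr rfl, hi⟩
    · intro i _ j _ h
      simpa using h
  have b1 := key false a1
  have b2 := key true a2
  have b3 : (Set.univ : Set (Fin (2 * k + 1))) ⊆ {i | Sum.inr (s, false, i) ∉ I}
      ∪ {i | Sum.inr (s, true, i) ∉ I} := by
    intro i _
    by_contra h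
    simp only [Set.mem_union, Set.mem_ofPred_eq, not_or, not_not] at h
    exact h1 _ h.1 _ h.2 ((adj_ww _ _ _ _ _ _).mpr ⟨rfl, rfl, rfl⟩)
  have b4 := (Set.ncard_le_ncard b3 (Set.toFinite _)).trans (Set.ncard_union_le _ _)
  rw [Set.ncard_univ, Nat.card_eq_fintype_card, Fintype.card_fin] at b4
  omega

/-- the next neighbour in the rotation -/
def nxt : WW n → WW n → WW n
  | .inl h, .inl _ => .inr (h, false, 0)
  | .inl h, .inr (s, b, i) =>
      if hi : i.1 + 1 < n + 1 then .inr (s, b, ⟨i.1 + 1, hi⟩)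
      else if b then .inl (h + 2) else .inr (h - 1, true, 0)
  | .inr (s, b, i), .inl _ => .inr (s, !b, i)
  | .inr (s, b, _), .inr _ => .inl (if b then s + 1 else s)

theorem nxt_adj {u v : WW n} (h : (GW n).Adj u v) : (GW n).Adj u (nxt u v) := by
  rcases u with u | ⟨s, b, i⟩ <;> rcases v with v | ⟨s', b', i'⟩
  · simp [nxt, adj_hw]
  · rw [adj_hw] at h
    simp only [nxt]
    split_ifs with h1 h2
    · rw [adj_hw]
      exact h
    · rw [adj_hh]
    · simp [adj_hw]
  · simp [nxt, adj_ww]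
  · simp [nxt, adj_wh]

theorem nxt_inj {u v w : WW n} (h : (GW n).Adj u v) (h' : (GW n).Adj u w)
    (e : nxt u v = nxt u w) : v = w := by
  rcases u with u | ⟨s, b, i⟩ <;> rcases v with v | ⟨s1, b1, i1⟩ <;>
    rcases w with w | ⟨s2, b2, i2⟩
  · rw [adj_hh] at h h'
    rw [h, h']
  · simp only [nxt] at e
    split_ifs at e
    · simp only [Sum.inr.injEq, Prod.mk.injEq, Fin.ext_iff, Fin.val_zero] at e
      omega
    · simp at e
  · simp only [nxt] at e
    split_ifs at e
    · simp only [Sum.inr.injEq, Prod.mk.injEq, Fin.ext_iff, Fin.val_zero] at e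
      omega
    · simp at e
  · rw [adj_hw] at h h'
    simp only [nxt] at e
    have := i1.2
    have := i2.2
    by_cases a1 : i1.1 + 1 < n + 1 <;> by_cases a2 : i2.1 + 1 < n + 1
    · rw [dif_pos a1, dif_pos a2] at e
      simp only [Sum.inr.injEq, Prod.mk.injEq, Fin.mk.injEq] at e ⊢
      exact ⟨e.1, e.2.1, Fin.ext (by omega)⟩
    · rw [dif_pos a1, dif_neg a2] at e
      cases b2 <;> simp at e
    · rw [dif_neg a1, dif_pos a2] at e
      cases b1 <;> simp at e
    · rw [dif_neg a1, dif_neg a2] at e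
      obtain rfl : i1 = i2 := Fin.ext (by omega)
      cases b1 <;> cases b2
      · simp only [Bool.false_eq_true, if_false] at h h'
        rw [← h, ← h']
      · simp at e
      · simp at e
      · simp only [if_true] at h h'
        rw [add_right_cancel (h.symm.trans h')]
  · rw [adj_wh] at h h'
    rw [h, h']
  · simp [nxt] at e
  · simp [nxt] at e
  · rw [adj_ww] at h h'
    obtain ⟨rfl, rfl, rfl⟩ := h
    obtain ⟨rfl, rfl, rfl⟩ := h'
    rfl

instance : Finite (GW n).Dart := Finite.of_injective (fun d => d.toProd) Dart.toProd_injective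

/-- the rotation on darts -/
def rotF (d : (GW n).Dart) : (GW n).Dart := ⟨(d.fst, nxt d.fst d.snd), nxt_adj d.adj⟩

theorem rotF_inj : Function.Injective (rotF (n := n)) := by
  rintro ⟨⟨u, v⟩, h⟩ ⟨⟨u', v'⟩, h'⟩ e
  simp only [rotF, Dart.mk.injEq, Prod.mk.injEq] at e
  obtain ⟨rfl, e⟩ := e
  obtain rfl := nxt_inj h h' e
  rfl

/-- the rotation -/
noncomputable def rotP (n : ℕ) : Equiv.Perm (GW n).Dart :=
  Equiv.ofBijective rotF (Finite.injective_iff_bijective.mp rotF_inj)

theorem rot_step {u v w : WW n} (h : (GW n).Adj u v) (h' : (GW n).Adj u w) (e : nxt u v = w) :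
    (rotP n).SameCycle ⟨(u, v), h⟩ ⟨(u, w), h'⟩ := by
  refine ⟨1, ?_⟩
  subst e
  rw [zpow_one]
  rfl

theorem rot_chain (h s : Fin 4) (b : Bool) (hs : h = (if b then s + 1 else s)) (i : ℕ)
    (hi : i < n + 1) : (rotP n).SameCycle ⟨(.inl h, .inr (s, b, 0)), (adj_hw _ _ _ _).mpr hs⟩
      ⟨(.inl h, .inr (s, b, ⟨i, hi⟩)), (adj_hw _ _ _ _).mpr hs⟩ := by
  induction i with
  | zero => exact Equiv.Perm.SameCycle.refl _ _
  | succ i ih =>
    refine (ih (by omega)).trans (rot_step _ _ ?_)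
    simp [nxt, hi]

theorem isRotation : IsRotation (GW n) (rotP n) := by
  refine ⟨fun d => rfl, ?_⟩
  have hub : ∀ (h : Fin 4) (v : WW n) (hv : (GW n).Adj (.inl h) v), (rotP n).SameCycle
      ⟨(.inl h, .inr (h, false, 0)), (adj_hw _ _ _ _).mpr rfl⟩ ⟨(.inl h, v), hv⟩ := by
    intro h v hv
    rcases v with v | ⟨s, b, i⟩
    · exact (rot_step hv _ rfl).symm
    · have hs := (adj_hw _ _ _ _).mp hv
      cases b
      · obtain rfl : h = s := hs
        exact rot_chain h h false rfl i.1 i.2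
      · obtain rfl : h = s + 1 := hs
        exact ((rot_chain (s + 1) (s + 1) false rfl n (by omega)).trans
          (rot_step _ ((adj_hw _ s true 0).mpr rfl) (by simp [nxt]))).trans
          (rot_chain (s + 1) s true rfl i.1 i.2)
  rintro ⟨⟨u, v⟩, h⟩ ⟨⟨u', w⟩, h'⟩ e
  obtain rfl : u = u' := e
  rcases u with u | ⟨s, b, i⟩
  · exact (hub u v h).symm.trans (hub u w h')
  · rcases v with v | ⟨s1, b1, i1⟩ <;> rcases w with w | ⟨s2, b2, i2⟩
    · obtain rfl : v = w := ((adj_wh _ _ _ _).mp h).trans ((adj_wh _ _ _ _).mp h').symm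
      exact Equiv.Perm.SameCycle.refl _ _
    · obtain ⟨rfl, rfl, rfl⟩ := (adj_ww _ _ _ _ _ _).mp h'
      exact rot_step _ _ rfl
    · obtain ⟨rfl, rfl, rfl⟩ := (adj_ww _ _ _ _ _ _).mp h
      exact (rot_step h' h rfl).symm
    · obtain ⟨rfl, rfl, rfl⟩ := (adj_ww _ _ _ _ _ _).mp h
      obtain ⟨rfl, rfl, rfl⟩ := (adj_ww _ _ _ _ _ _).mp h'
      exact Equiv.Perm.SameCycle.refl _ _

/-- label of a gap between two consecutive paths of a bundle -/
def gap (n : ℕ) (s : Fin 4) (j : ℕ) : Option (Fin 4 × ℕ) :=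
  if 0 < j ∧ j < n + 1 then some (s, j) else none

/-- label of a side -/
def lab : WW n → WW n → Bool → Option (Fin 4 × ℕ)
  | .inl _, .inl _, _ => none
  | .inl _, .inr (s, _, i), c => gap n s (if c then i.1 + 1 else i.1)
  | .inr (s, _, i), .inl _, c => gap n s (if c then i.1 + 1 else i.1)
  | .inr (s, _, i), .inr _, c => gap n s (if c then i.1 else i.1 + 1)

theorem lab_inv (a b : (GW n).Dart × Bool) (h : SameFace (GW n) (rotP n) (fun _ => true) a b) :
    lab a.1.fst a.1.snd a.2 = lab b.1.fst b.1.snd b.2 := by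
  rcases h with ⟨⟨u, v⟩, h⟩ | ⟨⟨⟨u, v⟩, h⟩, c⟩
  · change lab u v true = lab u (nxt u v) false
    rcases u with u | ⟨s, b, i⟩ <;> rcases v with v | ⟨s', b', i'⟩
    · simp [nxt, lab, gap]
    · simp only [nxt]
      split_ifs with h1 h2
      · simp [lab]
      · simp only [lab, gap, if_true]
        rw [if_neg (by omega)]
      · simp only [lab, gap, if_true]
        rw [if_neg (by omega)]
        simp
    · simp [nxt, lab]
    · simp [nxt, lab]
  · change lab u v c = lab v u (xor (!c) true)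
    rw [show xor (!c) true = c by cases c <;> rfl]
    rcases u with u | ⟨s, b, i⟩ <;> rcases v with v | ⟨s', b', i'⟩
    · rfl
    · rfl
    · rfl
    · obtain ⟨rfl, rfl, rfl⟩ := (adj_ww _ _ _ _ _ _).mp h
      rfl

theorem faces_ge : 4 * n ≤ numFaces (GW n) (rotP n) (fun _ => true) := by
  have : Nat.card (Fin 4 × Fin n) ≤ Nat.card (Quot (SameFace (GW n) (rotP n) (fun _ => true))) := by
    refine Nat.card_le_card_of_injective (fun p => Quot.mk _
      (⟨(.inl p.1, .inr (p.1, false, p.2.castSucc)), (adj_hw _ _ _ _).mpr rfl⟩, true)) ?_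
    rintro ⟨s, i⟩ ⟨s', i'⟩ h
    have := congrArg (Quot.lift (fun a : (GW n).Dart × Bool => lab a.1.fst a.1.snd a.2) lab_inv) h
    simp only [lab, gap, if_true, Fin.val_castSucc] at this
    rw [if_pos (by omega), if_pos (by omega)] at this
    simp only [Option.some.injEq, Prod.mk.injEq] at this
    exact Prod.ext this.1 (Fin.ext (by simpa using this.2))
  simp only [Nat.card_eq_fintype_card, Fintype.card_prod, Fintype.card_fin] at this
  unfold numFaces
  omega

theorem comps_le : Nat.card (GW n).ConnectedComponent ≤ 4 := by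
  have : Nat.card (GW n).ConnectedComponent ≤ Nat.card (Fin 4) := by
    refine Nat.card_le_card_of_surjective (fun h => (GW n).connectedComponentMk (.inl h)) ?_
    intro c
    induction c using ConnectedComponent.ind with
    | h v =>
      rcases v with v | ⟨s, b, i⟩
      · exact ⟨v, rfl⟩
      · exact ⟨_, ConnectedComponent.sound ((adj_hw _ s b i).mpr rfl).reachable⟩
  simpa using this

theorem edges_le : Nat.card (GW n).edgeSet ≤ 4 + 12 * (n + 1) := by
  let f : Fin 4 ⊕ (Fin 4 × Option Bool × Fin (n + 1)) → (GW n).edgeSet := fun x =>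
    match x with
    | .inl h => ⟨s(.inl h, .inl (h + 2)), (adj_hh _ _).mpr rfl⟩
    | .inr (s, none, i) => ⟨s(.inr (s, false, i), .inr (s, true, i)),
        (adj_ww _ _ _ _ _ _).mpr ⟨rfl, rfl, rfl⟩⟩
    | .inr (s, some b, i) => ⟨s(.inl (if b then s + 1 else s), .inr (s, b, i)),
        (adj_hw _ _ _ _).mpr rfl⟩
  have : Nat.card (GW n).edgeSet ≤ Nat.card (Fin 4 ⊕ (Fin 4 × Option Bool × Fin (n + 1))) := by
    refine Nat.card_le_card_of_surjective f ?_
    rintro ⟨e, he⟩
    induction e using Sym2.ind with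
    | h u v =>
      rcases u with u | ⟨s, b, i⟩ <;> rcases v with v | ⟨s', b', i'⟩
      · obtain rfl := (adj_hh _ _).mp he
        exact ⟨.inl u, rfl⟩
      · obtain rfl := (adj_hw _ _ _ _).mp he
        exact ⟨.inr (s', some b', i'), rfl⟩
      · obtain rfl := (adj_wh _ _ _ _).mp he
        exact ⟨.inr (s, some b, i), Subtype.ext Sym2.eq_swap⟩
      · obtain ⟨rfl, rfl, rfl⟩ := (adj_ww _ _ _ _ _ _).mp he
        cases b
        · exact ⟨.inr (s, none, i), rfl⟩
        · exact ⟨.inr (s, none, i), Subtype.ext Sym2.eq_swap⟩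
  simp only [Nat.card_eq_fintype_card, Fintype.card_sum, Fintype.card_prod, Fintype.card_fin,
    Fintype.card_option, Fintype.card_bool] at this ⊢
  omega

theorem GW_embeds : EmbedsEuler (GW n) 12 := by
  refine ⟨rotP n, fun _ => true, isRotation, ?_⟩
  have h1 := faces_ge (n := n)
  have h2 := comps_le (n := n)
  have h3 := edges_le (n := n)
  have h4 : Nat.card (WW n) = 4 + 8 * (n + 1) := by
    simp only [Nat.card_eq_fintype_card, Fintype.card_sum, Fintype.card_prod, Fintype.card_fin,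
      Fintype.card_bool]
    omega
  unfold eulerGenus
  omega

theorem statement_iff (ℓ₀ : ℕ) : Statement ℓ₀ ↔ 7 ≤ ℓ₀ := by
  constructor
  · rintro ⟨c, -, -, h⟩
    by_contra hlt
    obtain ⟨C, -, hC⟩ := h 6 (by omega)
    exact GW_not _ (hC 12 (by norm_num) _ (GW (2 * _)) GW_girth GW_embeds)
  · intro h7
    obtain ⟨c, h1, h2, h3⟩ := statement_seven
    exact ⟨c, h1, h2, fun ℓ hℓ => h3 ℓ (h7.trans hℓ)⟩

end Pool.Agent.H733Z.Col
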