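import Pool.Agent.Helper878.ERW.Main

set_option autoImplicit false

open MeasureTheory Filter Topology ProbabilityTheory
open scoped BigOperators ENNReal

namespace Pool.Agent.H733Z.Erw

open Pool.H878.ERW

/-- the uniforms seen from the site `y` -/
def shU (y : ℤ) (u : ℤ × ℕ → ℝ) : ℤ × ℕ → ℝ := fun i => u (i.1 + y, i.2)

/-- the environment seen from the site `y` -/
def shW (y : ℤ) (w : ℤ → ℕ → ℝ) : ℤ → ℕ → ℝ := fun x => w (x + y)

/-- the uniforms for which the walk stays positive after time `0` -/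
def Stay (w : ℤ → ℕ → ℝ) : Set (ℤ × ℕ → ℝ) := {u | ∀ n, 1 ≤ n → 1 ≤ (e1st w u n).1}

theorem measX2 {Ω : Type} [MeasurableSpace Ω] (e : Ω → ℤ → ℕ → ℝ) (he : Measurable e) (n : ℕ) :
    Measurable (fun z : Ω × (ℤ × ℕ → ℝ) => (e1st (e z.1) z.2 n).1) := by
  classical
  apply measurable_to_countable'
  intro k
  have h : (fun z : Ω × (ℤ × ℕ → ℝ) => (e1st (e z.1) z.2 n).1) ⁻¹' {k} =
      ⋃ (q : Fin (n + 1) → ℤ) (_ : q (Fin.last n) = k),
        {z : Ω × (ℤ × ℕ → ℝ) | ∀ j ≤ n, (e1st (e z.1) z.2 j).1 =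
          (fun j => if h : j < n + 1 then q ⟨j, h⟩ else 0) j} := by
    ext z
    simp only [Set.mem_preimage, Set.mem_singleton_iff, Set.mem_iUnion, Set.mem_ofPred_eq,
      exists_prop]
    constructor
    · intro hz
      refine ⟨fun j => (e1st (e z.1) z.2 j).1, hz, ?_⟩
      intro j hj
      rw [dif_pos (by omega)]
    · rintro ⟨q, hq, h⟩
      rw [h n le_rfl, dif_pos (by omega), ← hq]
      rfl
  rw [h]
  exact MeasurableSet.iUnion fun q => MeasurableSet.iUnion fun _ => e1E_meas e he _ n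

theorem measX (w : ℤ → ℕ → ℝ) (n : ℕ) :
    Measurable (fun u : ℤ × ℕ → ℝ => (e1st w u n).1) :=
  (measX2 (fun _ : Unit => w) measurable_const n).comp
    (measurable_prodMk_left (x := ()))

theorem erwQ (w : ℤ → ℕ → ℝ) (hw : ∀ x i, w x i ∈ Set.Icc (0 : ℝ) 1) :
    IsERW e1nu (fun _ => w) (fun n u => (e1st w u n).1) := by
  refine ⟨fun n p A _ => ?_⟩
  by_cases hA : w ∈ A
  · by_cases hp : p 0 = 0
    · rw [if_pos hp]
      have e1 : {u : ℤ × ℕ → ℝ | w ∈ A ∧ ∀ j, j ≤ n → (e1st w u j).1 = p j} =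
          {u | ∀ j < n, u (p j, visits p j) ∈ e1B w p j} := by
        ext u
        simp only [Set.mem_ofPred_eq]
        rw [e1event]
        simp [hA, hp]
      rw [e1, e1inner hw]
      simp [hA]
    · rw [if_neg hp]
      have e1 : {u : ℤ × ℕ → ℝ | w ∈ A ∧ ∀ j, j ≤ n → (e1st w u j).1 = p j} = ∅ := by
        ext u
        simp only [Set.mem_ofPred_eq, Set.mem_empty_iff_false, iff_false]
        rintro ⟨-, h⟩
        exact hp ((e1event _ _ _ _).mp h).1
      rw [e1]; simp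
  · have e1 : {u : ℤ × ℕ → ℝ | w ∈ A ∧ ∀ j, j ≤ n → (e1st w u j).1 = p j} = ∅ := by
      ext u
      simp [hA]
    rw [e1]
    simp [hA]

theorem Stay_meas (w : ℤ → ℕ → ℝ) : MeasurableSet (Stay w) := by
  have : Stay w = ⋂ n : ℕ, ⋂ _ : 1 ≤ n, {u | 1 ≤ (e1st w u n).1} := by
    ext u; simp [Stay]
  rw [this]
  exact MeasurableSet.iInter fun n => MeasurableSet.iInter fun _ =>
    measurableSet_le measurable_const (measX w n)

theorem stay_lower (w : ℤ → ℕ → ℝ) (hw : ∀ x i, w x i ∈ Set.Icc (0 : ℝ) 1) (c : ℝ) (K : ℕ)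
    (hc : ∀ m, c ≤ stay w (K + m) 0 (fun _ => 0)) : ENNReal.ofReal c ≤ e1nu (Stay w) := by
  have hlow : ∀ n, ENNReal.ofReal c ≤
      e1nu {u : ℤ × ℕ → ℝ | ∀ j, 1 ≤ j → j ≤ n → 1 ≤ (e1st w u j).1} := by
    intro n
    have h1 := partE2 e1nu (fun _ => w) (fun n u => (e1st w u n).1) measurable_const (measX w)
      (fun _ => hw) (erwQ w hw) (K + n)
    rw [lintegral_const, measure_univ, mul_one] at h1
    refine ((ENNReal.ofReal_le_ofReal (hc n)).trans h1).trans (measure_mono ?_)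
    intro u hu j hj1 hj2
    exact hu j hj1 (by omega)
  have hset : Stay w =
      ⋂ n : ℕ, {u : ℤ × ℕ → ℝ | ∀ j, 1 ≤ j → j ≤ n → 1 ≤ (e1st w u j).1} := by
    ext u
    simp only [Stay, Set.mem_ofPred_eq, Set.mem_iInter]
    exact ⟨fun h n j hj _ => h j hj, fun h n hn => h n n hn le_rfl⟩
  have hmeas : ∀ n, MeasurableSet
      {u : ℤ × ℕ → ℝ | ∀ j, 1 ≤ j → j ≤ n → 1 ≤ (e1st w u j).1} := by
    intro n
    have : {u : ℤ × ℕ → ℝ | ∀ j, 1 ≤ j → j ≤ n → 1 ≤ (e1st w u j).1} =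
        ⋂ j : ℕ, ⋂ _ : 1 ≤ j, ⋂ _ : j ≤ n, {u | 1 ≤ (e1st w u j).1} := by
      ext u; simp
    rw [this]
    exact MeasurableSet.iInter fun j => MeasurableSet.iInter fun _ => MeasurableSet.iInter fun _ =>
      measurableSet_le measurable_const (measX w j)
  have hanti : Antitone fun n : ℕ =>
      {u : ℤ × ℕ → ℝ | ∀ j, 1 ≤ j → j ≤ n → 1 ≤ (e1st w u j).1} := by
    intro a b hab u hu j hj1 hj2
    exact hu j hj1 (hj2.trans hab)
  rw [hset]
  have hlim := tendsto_measure_iInter_atTop (μ := e1nu)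
    (fun n => (hmeas n).nullMeasurableSet) hanti ⟨0, measure_ne_top _ _⟩
  exact ge_of_tendsto' hlim hlow

theorem stay_local (w : ℤ → ℕ → ℝ) (u u' : ℤ × ℕ → ℝ) (hu : u ∈ Stay w)
    (h : ∀ i : ℤ × ℕ, 0 ≤ i.1 → u' i = u i) : u' ∈ Stay w := by
  have hp : ∀ j, 0 ≤ (e1st w u j).1 := by
    intro j
    rcases Nat.eq_zero_or_pos j with rfl | hj
    · exact le_rfl
    · have := hu j hj
      omega
  intro n hn
  have h1 := (e1event w u (fun j => (e1st w u j).1) n).mp (fun _ _ => rfl)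
  have h2 := (e1event w u' (fun j => (e1st w u j).1) n).mpr ⟨h1.1, fun j hj => by
    rw [h _ (hp j)]
    exact h1.2 j hj⟩
  rw [h2 n le_rfl]
  exact hu n hn

/-- the uniforms seen from `y`, with the ones to the left of `y` erased -/
def cut (y : ℤ) (u : ℤ × ℕ → ℝ) : ℤ × ℕ → ℝ := fun i => if 0 ≤ i.1 then u (i.1 + y, i.2) else 0

/-- the event that the walk started at `y` on fresh cookies never comes back to `y` -/
def AA (w : ℤ → ℕ → ℝ) (y : ℤ) : Set (ℤ × ℕ → ℝ) := shU y ⁻¹' Stay (shW y w)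

theorem AA_eq (w : ℤ → ℕ → ℝ) (y : ℤ) : AA w y = cut y ⁻¹' Stay (shW y w) := by
  ext u
  constructor
  · intro hu
    exact stay_local _ _ _ hu (fun i hi => by simp [cut, shU, hi])
  · intro hu
    exact stay_local _ _ _ hu (fun i hi => by simp [cut, shU, hi])

theorem shU_meas (y : ℤ) : Measurable (shU y) :=
  measurable_pi_iff.2 fun _ => measurable_pi_apply _

theorem AA_meas (w : ℤ → ℕ → ℝ) (y : ℤ) : MeasurableSet (AA w y) :=
  shU_meas y (Stay_meas _)

theorem shU_map (y : ℤ) : e1nu.map (shU y) = e1nu := by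
  unfold e1nu
  have hf : Function.Injective (fun i : ℤ × ℕ => (i.1 + y, i.2)) := by
    intro a b h
    simp only [Prod.mk.injEq] at h
    exact Prod.ext (by omega) h.2
  exact Measure.map_infinitePi_infinitePi_of_inj (P := fun _ : ℤ × ℕ => e1U) hf

theorem AA_prob (w : ℤ → ℕ → ℝ) (y : ℤ) : e1nu (AA w y) = e1nu (Stay (shW y w)) := by
  unfold AA
  rw [← Measure.map_apply (shU_meas y) (Stay_meas _), shU_map]

/-- the σ-algebra of one uniform -/
def sg (i : ℤ × ℕ) : MeasurableSpace (ℤ × ℕ → ℝ) :=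
  MeasurableSpace.comap (fun u => u i) inferInstance

theorem AA_meas_tail (w : ℤ → ℕ → ℝ) (y : ℤ) (U : Set (ℤ × ℕ))
    (hU : ∀ i : ℤ × ℕ, y ≤ i.1 → i ∈ U) : MeasurableSet[⨆ i ∈ U, sg i] (AA w y) := by
  rw [AA_eq]
  have hm : @Measurable _ _ (⨆ i ∈ U, sg i) _ (cut y) := by
    refine (@measurable_pi_iff _ _ _ (⨆ i ∈ U, sg i) _ _).2 fun i => ?_
    by_cases hi : 0 ≤ i.1
    · have e : (fun u : ℤ × ℕ → ℝ => cut y u i) = fun u => u (i.1 + y, i.2) := by
        funext u; simp [cut, hi]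
      rw [e]
      have h1 : sg (i.1 + y, i.2) ≤ ⨆ i ∈ U, sg i :=
        le_iSup₂_of_le (f := fun i (_ : i ∈ U) => sg i) (i.1 + y, i.2) (hU _ (by simp [hi])) le_rfl
      exact Measurable.mono (comap_measurable _) h1 le_rfl
    · have e : (fun u : ℤ × ℕ → ℝ => cut y u i) = fun _ => 0 := by
        funext u; simp [cut, hi]
      rw [e]
      exact @measurable_const _ _ _ (⨆ i ∈ U, sg i) _
  exact hm (Stay_meas _)

theorem tail_one (w : ℤ → ℕ → ℝ) (c : ℝ≥0∞) (hc : 0 < c) (h : ∀ y : ℕ, c ≤ e1nu (AA w y)) :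
    ∀ᵐ u ∂e1nu, ∃ y : ℕ, u ∈ AA w y := by
  set t : Set (ℤ × ℕ → ℝ) := ⋂ m : ℕ, ⋃ y : ℕ, ⋃ _ : m ≤ y, AA w y with ht
  have hmeas : ∀ m : ℕ, MeasurableSet (⋃ y : ℕ, ⋃ _ : m ≤ y, AA w y) := fun m =>
    MeasurableSet.iUnion fun y => MeasurableSet.iUnion fun _ => AA_meas w y
  have hanti : Antitone fun m : ℕ => ⋃ y : ℕ, ⋃ _ : m ≤ y, AA w y := by
    intro a b hab u hu
    simp only [Set.mem_iUnion] at hu ⊢
    obtain ⟨y, hy, hu⟩ := hu
    exact ⟨y, hab.trans hy, hu⟩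
  have hpos : c ≤ e1nu t := by
    have hlim := tendsto_measure_iInter_atTop (μ := e1nu)
      (fun n => (hmeas n).nullMeasurableSet) hanti ⟨0, measure_ne_top _ _⟩
    refine ge_of_tendsto' hlim fun m => (h m).trans (measure_mono ?_)
    intro u hu
    simp only [Set.mem_iUnion]
    exact ⟨m, le_rfl, hu⟩
  have hind : iIndep sg e1nu := by
    have := iIndepFun_infinitePi (P := fun _ : ℤ × ℕ => e1U) (X := fun _ x => x)
      (fun _ => measurable_id)
    exact this.iIndep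
  have htail : MeasurableSet[limsup sg (Filter.comap Prod.fst atTop)] t := by
    rw [limsup_eq_iInf_iSup, MeasurableSpace.measurableSet_iInf]
    intro U
    rw [MeasurableSpace.measurableSet_iInf]
    intro hU
    obtain ⟨V, hV, hVU⟩ := Filter.mem_comap.1 hU
    obtain ⟨y0, hy0⟩ := Filter.mem_atTop_sets.1 hV
    have e : t = ⋂ m : ℕ, ⋃ y : ℕ, ⋃ _ : m ≤ y ∧ y0 ≤ y, AA w y := by
      ext u
      simp only [ht, Set.mem_iInter, Set.mem_iUnion]
      constructor
      · intro hu m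
        obtain ⟨y, hy, hu⟩ := hu (max m y0.toNat)
        exact ⟨y, ⟨by omega, by omega⟩, hu⟩
      · intro hu m
        obtain ⟨y, hy, hu⟩ := hu m
        exact ⟨y, hy.1, hu⟩
    rw [e]
    refine MeasurableSet.iInter fun m => MeasurableSet.iUnion fun y =>
      MeasurableSet.iUnion fun hy => AA_meas_tail w y U fun i hi => hVU (hy0 _ ?_)
    exact hy.2.trans hi
  have h01 := measure_zero_or_one_of_measurableSet_limsup (s := sg) (μ := e1nu)
    (f := Filter.comap Prod.fst atTop) (p := fun U => ∃ y : ℤ, ∀ i ∈ U, i.1 < y)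
    (ns := fun y : ℤ => {i : ℤ × ℕ | i.1 < y})
    (fun i => (measurable_pi_apply i).comap_le) hind
    (by
      rintro U ⟨y, hy⟩
      refine Filter.mem_comap.2 ⟨Set.Ici y, Filter.Ici_mem_atTop y, fun i hi hU => ?_⟩
      have h1 := hy i hU
      have h2 : y ≤ i.1 := hi
      omega)
    (by
      intro a b
      refine ⟨max a b, fun i hi => ?_, fun i hi => ?_⟩
      · have h1 : i.1 < a := hi
        show i.1 < max a b
        omega
      · have h1 : i.1 < b := hi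
        show i.1 < max a b
        omega)
    (fun y => ⟨y, fun i hi => hi⟩)
    (fun i => ⟨i.1 + 1, by show i.1 < i.1 + 1; omega⟩) htail
  have h1 : e1nu t = 1 := by
    rcases h01 with h0 | h1
    · rw [h0] at hpos
      exact absurd hpos (not_le.2 hc)
    · exact h1
  have htm : MeasurableSet t := MeasurableSet.iInter hmeas
  have h2 : ∀ᵐ u ∂e1nu, u ∈ t := (prob_compl_eq_zero_iff htm).2 h1
  filter_upwards [h2] with u hu
  simp only [ht, Set.mem_iInter, Set.mem_iUnion] at hu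
  obtain ⟨y, -, hy⟩ := hu 0
  exact ⟨y, hy⟩

end Pool.Agent.H733Z.Erw
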