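import Pool.Agent.H733Z.Erw1

set_option autoImplicit false

open MeasureTheory Filter Topology ProbabilityTheory
open scoped BigOperators ENNReal

namespace Pool.Agent.H733Z.Erw

open Pool.H878.ERW

theorem often_of_half (B : Set ℝ) (hB : MeasurableSet B) (hb : e1U Bᶜ ≤ 2⁻¹) (x : ℤ) (m : ℕ) :
    ∀ᵐ u ∂e1nu, ∃ i, m ≤ i ∧ u (x, i) ∈ B := by
  classical
  rw [ae_iff]
  have key : ∀ k : ℕ, e1nu {u | ¬ ∃ i, m ≤ i ∧ u (x, i) ∈ B} ≤ 2⁻¹ ^ k := by
    intro k
    have hinj : Function.Injective (fun i : ℕ => (x, m + i)) := by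
      intro a b h
      simp only [Prod.mk.injEq] at h
      omega
    have hsub : {u : ℤ × ℕ → ℝ | ¬ ∃ i, m ≤ i ∧ u (x, i) ∈ B} ⊆
        Set.pi ((Finset.range k).image (fun i : ℕ => (x, m + i)) : Finset (ℤ × ℕ))
          (fun _ => Bᶜ) := by
      intro u hu j hj
      simp only [Finset.coe_image, Set.mem_image] at hj
      obtain ⟨i, -, rfl⟩ := hj
      intro hB'
      exact hu ⟨m + i, by omega, hB'⟩
    refine (measure_mono hsub).trans ?_
    unfold e1nu
    rw [Measure.infinitePi_pi _ (fun _ _ => hB.compl), Finset.prod_const,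
      Finset.card_image_of_injective _ hinj, Finset.card_range]
    exact pow_le_pow_left' hb k
  have hlim : Tendsto (fun k : ℕ => (2⁻¹ : ℝ≥0∞) ^ k) atTop (𝓝 0) :=
    ENNReal.tendsto_pow_atTop_nhds_zero_of_lt_one (by norm_num)
  exact le_antisymm (ge_of_tendsto' hlim key) zero_le'

theorem half_left : e1U (Set.Iio (1 / 2 : ℝ))ᶜ ≤ 2⁻¹ := by
  unfold e1U
  rw [Measure.restrict_apply measurableSet_Iio.compl]
  have : (Set.Iio (1 / 2 : ℝ))ᶜ ∩ Set.Icc 0 1 ⊆ Set.Icc (1 / 2) 1 := by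
    rintro t ⟨h1, h2⟩
    exact ⟨not_lt.1 h1, h2.2⟩
  refine (measure_mono this).trans ?_
  rw [Real.volume_Icc, show (1 : ℝ) - 1 / 2 = 2⁻¹ by norm_num, ENNReal.ofReal_inv_of_pos two_pos]
  simp

theorem half_right : e1U (Set.Ici (1 / 2 : ℝ))ᶜ ≤ 2⁻¹ := by
  unfold e1U
  rw [Measure.restrict_apply measurableSet_Ici.compl]
  have : (Set.Ici (1 / 2 : ℝ))ᶜ ∩ Set.Icc 0 1 ⊆ Set.Icc 0 (1 / 2) := by
    rintro t ⟨h1, h2⟩
    have h3 : ¬ (1 / 2 : ℝ) ≤ t := h1
    exact ⟨h2.1, (not_le.1 h3).le⟩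
  refine (measure_mono this).trans ?_
  rw [Real.volume_Icc, show (1 : ℝ) / 2 - 0 = 2⁻¹ by norm_num, ENNReal.ofReal_inv_of_pos two_pos]
  simp

/-- every site carries infinitely many small and infinitely many large uniforms -/
def Good (u : ℤ × ℕ → ℝ) : Prop :=
  (∀ x m, ∃ i, m ≤ i ∧ u (x, i) < 1 / 2) ∧ (∀ x m, ∃ i, m ≤ i ∧ 1 / 2 ≤ u (x, i))

theorem ae_good : ∀ᵐ u ∂e1nu, Good u := by
  have h1 : ∀ᵐ u ∂e1nu, ∀ x m, ∃ i, m ≤ i ∧ u (x, i) < 1 / 2 := by
    rw [ae_all_iff]; intro x; rw [ae_all_iff]; intro m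
    exact often_of_half _ measurableSet_Iio half_left x m
  have h2 : ∀ᵐ u ∂e1nu, ∀ x m, ∃ i, m ≤ i ∧ 1 / 2 ≤ u (x, i) := by
    rw [ae_all_iff]; intro x; rw [ae_all_iff]; intro m
    exact often_of_half _ measurableSet_Ici half_right x m
  filter_upwards [h1, h2] with u a b
  exact ⟨a, b⟩

theorem visits_le (p : ℕ → ℤ) (n : ℕ) : visits p n ≤ n + 1 := by
  unfold visits
  exact (Finset.card_filter_le _ _).trans (by simp)

theorem visits_onto (p : ℕ → ℤ) (z : ℤ) (hz : (setOf fun n => p n = z).Infinite) (i : ℕ) :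
    ∃ n, p n = z ∧ visits p n = i + 1 := by
  classical
  have h1 : p (Nat.nth (fun n => p n = z) i) = z := Nat.nth_mem_of_infinite hz i
  refine ⟨_, h1, ?_⟩
  have h2 := Nat.count_nth_succ_of_infinite hz i
  rw [Nat.count_eq_card_filter_range] at h2
  unfold visits
  rw [h1]
  convert h2

theorem inf_of_often (p : ℕ → ℤ) (z : ℤ) (h : ∀ m, ∃ n, m ≤ n ∧ p n = z) :
    (setOf fun n => p n = z).Infinite := by
  refine Set.infinite_of_forall_exists_gt fun m => ?_
  obtain ⟨n, hn, hp⟩ := h (m + 1)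
  exact ⟨n, hp, by omega⟩

theorem spread (w : ℤ → ℕ → ℝ) (M : ℕ) (hM : ∀ x i, M < i → w x i = 1 / 2) (u : ℤ × ℕ → ℝ)
    (hu : Good u) (z : ℤ) (hz : (setOf fun n => (e1st w u n).1 = z).Infinite) :
    (setOf fun n => (e1st w u n).1 = z + 1).Infinite ∧
      (setOf fun n => (e1st w u n).1 = z - 1).Infinite := by
  constructor
  · refine inf_of_often (fun n => (e1st w u n).1) _ fun m => ?_
    obtain ⟨i, hi, hui⟩ := hu.1 z (m + M + 1)
    obtain ⟨n, hn, hv⟩ := visits_onto (fun n => (e1st w u n).1) z hz (i - 1)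
    have hv' : visits (fun n => (e1st w u n).1) n = i := by omega
    have hle := visits_le (fun n => (e1st w u n).1) n
    refine ⟨n + 1, by omega, ?_⟩
    have hn' : (e1st w u n).1 = z := hn
    show (e1st w u (n + 1)).1 = z + 1
    rw [e1step, hv', hn', hM z i (by omega), if_pos hui]
  · refine inf_of_often (fun n => (e1st w u n).1) _ fun m => ?_
    obtain ⟨i, hi, hui⟩ := hu.2 z (m + M + 1)
    obtain ⟨n, hn, hv⟩ := visits_onto (fun n => (e1st w u n).1) z hz (i - 1)
    have hv' : visits (fun n => (e1st w u n).1) n = i := by omega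
    have hle := visits_le (fun n => (e1st w u n).1) n
    refine ⟨n + 1, by omega, ?_⟩
    have hn' : (e1st w u n).1 = z := hn
    show (e1st w u (n + 1)).1 = z - 1
    rw [e1step, hv', hn', hM z i (by omega), if_neg (not_lt.2 hui)]

theorem spread_all (w : ℤ → ℕ → ℝ) (M : ℕ) (hM : ∀ x i, M < i → w x i = 1 / 2) (u : ℤ × ℕ → ℝ)
    (hu : Good u) (z : ℤ) (hz : (setOf fun n => (e1st w u n).1 = z).Infinite) (y : ℤ) :
    (setOf fun n => (e1st w u n).1 = y).Infinite := by
  have key : ∀ d : ℤ, (setOf fun n => (e1st w u n).1 = z + d).Infinite := by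
    intro d
    induction d using Int.induction_on with
    | zero => simpa using hz
    | succ i ih =>
      have := (spread w M hM u hu _ ih).1
      rwa [add_assoc] at this
    | pred i ih =>
      have := (spread w M hM u hu _ ih).2
      rwa [add_sub_assoc] at this
  have := key (y - z)
  rwa [show z + (y - z) = y by ring] at this

theorem step_le (w : ℤ → ℕ → ℝ) (u : ℤ × ℕ → ℝ) (n : ℕ) :
    (e1st w u (n + 1)).1 ≤ (e1st w u n).1 + 1 := by
  rw [e1step]
  split_ifs <;> omega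

theorem restart (w : ℤ → ℕ → ℝ) (u : ℤ × ℕ → ℝ) (y : ℤ) (T : ℕ) (hT : (e1st w u T).1 = y)
    (hlt : ∀ j, j < T → (e1st w u j).1 < y) (hu : u ∈ AA w y) (n : ℕ) :
    (e1st w u (T + n)).1 = (e1st (shW y w) (shU y u) n).1 + y ∧
      ∀ x, 0 ≤ x → (e1st w u (T + n)).2 (x + y) = (e1st (shW y w) (shU y u) n).2 x := by
  have hp : ∀ j, 0 ≤ (e1st (shW y w) (shU y u) j).1 := by
    intro j
    rcases Nat.eq_zero_or_pos j with rfl | hj
    · exact le_rfl
    · have : 1 ≤ (e1st (shW y w) (shU y u) j).1 := hu j hj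
      omega
  induction n with
  | zero =>
    refine ⟨by simpa [e1st] using hT, fun x hx => ?_⟩
    rw [Nat.add_zero, e1st_snd]
    show _ = 0
    rw [Finset.card_eq_zero, Finset.filter_eq_empty_iff]
    intro m hm
    have := hlt m (Finset.mem_range.1 hm)
    omega
  | succ n ih =>
    obtain ⟨h1, h2⟩ := ih
    have h3 := h2 _ (hp n)
    have e1 : e1st w u (T + (n + 1)) =
      (if u ((e1st w u (T + n)).1, (e1st w u (T + n)).2 (e1st w u (T + n)).1 + 1) <
        w (e1st w u (T + n)).1 ((e1st w u (T + n)).2 (e1st w u (T + n)).1 + 1)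
      then (e1st w u (T + n)).1 + 1 else (e1st w u (T + n)).1 - 1,
      Function.update (e1st w u (T + n)).2 (e1st w u (T + n)).1
        ((e1st w u (T + n)).2 (e1st w u (T + n)).1 + 1)) := rfl
    have e2 : e1st (shW y w) (shU y u) (n + 1) =
      (if u ((e1st (shW y w) (shU y u) n).1 + y,
          (e1st (shW y w) (shU y u) n).2 (e1st (shW y w) (shU y u) n).1 + 1) <
        w ((e1st (shW y w) (shU y u) n).1 + y)
          ((e1st (shW y w) (shU y u) n).2 (e1st (shW y w) (shU y u) n).1 + 1)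
      then (e1st (shW y w) (shU y u) n).1 + 1 else (e1st (shW y w) (shU y u) n).1 - 1,
      Function.update (e1st (shW y w) (shU y u) n).2 (e1st (shW y w) (shU y u) n).1
        ((e1st (shW y w) (shU y u) n).2 (e1st (shW y w) (shU y u) n).1 + 1)) := rfl
    rw [e1, e2, h1, h3]
    constructor
    · dsimp only
      split_ifs <;> ring
    · intro x hx
      dsimp only
      by_cases hxe : x = (e1st (shW y w) (shU y u) n).1
      · rw [hxe, Function.update_self, Function.update_self]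
      · rw [Function.update_of_ne hxe, Function.update_of_ne (by omega)]
        exact h2 x hx

theorem transient_of (w : ℤ → ℕ → ℝ) (M : ℕ) (hM : ∀ x i, M < i → w x i = 1 / 2)
    (u : ℤ × ℕ → ℝ) (hu : Good u) (y : ℕ) (hy : u ∈ AA w y) :
    Tendsto (fun n => |(e1st w u n).1|) atTop atTop := by
  classical
  have hfin : ∀ z : ℤ, (setOf fun n => (e1st w u n).1 = z).Finite := by
    intro z
    by_contra hz
    have hinf := spread_all w M hM u hu z hz y
    have hex : ∃ n, (y : ℤ) ≤ (e1st w u n).1 := by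
      obtain ⟨n, hn⟩ := hinf.nonempty
      exact ⟨n, le_of_eq hn.symm⟩
    have hlt : ∀ j, j < Nat.find hex → (e1st w u j).1 < y := fun j hj =>
      not_le.1 (Nat.find_min hex hj)
    have hT : (e1st w u (Nat.find hex)).1 = y := by
      have h1 := Nat.find_spec hex
      rcases Nat.eq_zero_or_pos (Nat.find hex) with h0 | h0
      · rw [h0] at h1 ⊢
        have h2 : (e1st w u 0).1 = 0 := rfl
        omega
      · obtain ⟨k, hk⟩ : ∃ k, Nat.find hex = k + 1 := ⟨Nat.find hex - 1, by omega⟩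
        have h2 := hlt k (by omega)
        have h3 := step_le w u k
        rw [hk] at h1 ⊢
        omega
    obtain ⟨n, hn, hgt⟩ := hinf.exists_gt (Nat.find hex)
    have hn' : (e1st w u n).1 = y := hn
    obtain ⟨k, rfl⟩ : ∃ k, n = Nat.find hex + k := ⟨n - Nat.find hex, by omega⟩
    have h1 := (restart w u y _ hT hlt hy k).1
    have h2 : 1 ≤ (e1st (shW y w) (shU y u) k).1 := hy k (by omega)
    omega
  rw [← Nat.cofinite_eq_atTop, tendsto_atTop]
  intro b
  rw [Filter.eventually_cofinite]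
  refine ((Set.finite_Icc (-b) b).biUnion fun z _ => hfin z).subset ?_
  intro n hn
  simp only [Set.mem_ofPred_eq, not_le] at hn
  simp only [Set.mem_iUnion]
  exact ⟨(e1st w u n).1, ⟨(abs_lt.1 hn).1.le, (abs_lt.1 hn).2.le⟩, rfl⟩

theorem quenched (w : ℤ → ℕ → ℝ) (hw : ∀ x i, w x i ∈ Set.Icc (0 : ℝ) 1) (M : ℕ)
    (hM : ∀ x i, M < i → w x i = 1 / 2) (c : ℝ) (hc : 0 < c) (K : ℕ)
    (h : ∀ (y : ℕ) (m : ℕ), c ≤ stay (shW y w) (K + m) 0 (fun _ => 0)) :
    ∀ᵐ u ∂e1nu, Tendsto (fun n => |(e1st w u n).1|) atTop atTop := by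
  have h1 := tail_one w (ENNReal.ofReal c) (ENNReal.ofReal_pos.2 hc) fun y => by
    rw [AA_prob]
    exact stay_lower _ (fun x i => hw _ _) c K (h y)
  filter_upwards [h1, ae_good] with u hu hg
  obtain ⟨y, hy⟩ := hu
  exact transient_of w M hM u hg y hy

end Pool.Agent.H733Z.Erw
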