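import Pool.Agent.H733Z.Erw2

set_option autoImplicit false

open MeasureTheory Filter Topology
open scoped BigOperators ENNReal

namespace Pool.Agent.H733Z.Erw

open Pool.H878.ERW

theorem erwA {Ω : Type} [MeasurableSpace Ω] (μ : Measure Ω) [IsProbabilityMeasure μ]
    (e : Ω → ℤ → ℕ → ℝ) (he : Measurable e) (h01 : ∀ w x i, e w x i ∈ Set.Icc (0:ℝ) 1) :
    IsERW (μ.prod e1nu) (fun w => e w.1) (fun n z => (e1st (e z.1) z.2 n).1) := by
  classical
  refine ⟨fun n p A hA => ?_⟩
  have hset : MeasurableSet {z : Ω × (ℤ × ℕ → ℝ) | e z.1 ∈ A ∧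
      ∀ j, j ≤ n → (e1st (e z.1) z.2 j).1 = p j} :=
    ((he.comp measurable_fst) hA).inter (e1E_meas e he p n)
  have hA' : MeasurableSet {z : Ω × (ℤ × ℕ → ℝ) | e z.1 ∈ A} := (he.comp measurable_fst) hA
  show (μ.prod e1nu) {z : Ω × (ℤ × ℕ → ℝ) | e z.1 ∈ A ∧
      ∀ j, j ≤ n → (e1st (e z.1) z.2 j).1 = p j} = _
  rw [Measure.prod_apply hset]
  by_cases hp : p 0 = 0
  · rw [if_pos hp]
    have hstep : Measurable (fun ω : Ω => ∏ j ∈ Finset.range n,
        ENNReal.ofReal (stepProb (e ω) p j)) := by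
      apply Finset.measurable_prod
      intro j _
      apply ENNReal.measurable_ofReal.comp
      have hw : Measurable (fun ω => e ω (p j) (visits p j)) :=
        (measurable_pi_apply _).comp ((measurable_pi_apply _).comp he)
      unfold stepProb
      by_cases h1 : p (j + 1) = p j + 1
      · simp only [if_pos h1]; exact hw
      · by_cases h2 : p (j + 1) = p j - 1
        · simp only [if_neg h1, if_pos h2]; exact measurable_const.sub hw
        · simp only [if_neg h1, if_neg h2]; exact measurable_const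
    have hm : Measurable ({z : Ω × (ℤ × ℕ → ℝ) | e z.1 ∈ A}.indicator
        (fun z : Ω × (ℤ × ℕ → ℝ) => ∏ j ∈ Finset.range n,
          ENNReal.ofReal (stepProb (e z.1) p j))) :=
      (hstep.comp measurable_fst).indicator hA'
    have hR : ∫⁻ w in {w : Ω × (ℤ × ℕ → ℝ) | e w.1 ∈ A}, ∏ j ∈ Finset.range n,
        ENNReal.ofReal (stepProb (e w.1) p j) ∂(μ.prod e1nu) =
        ∫⁻ ω, ∫⁻ u, ({z : Ω × (ℤ × ℕ → ℝ) | e z.1 ∈ A}.indicator
        (fun z : Ω × (ℤ × ℕ → ℝ) => ∏ j ∈ Finset.range n,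
          ENNReal.ofReal (stepProb (e z.1) p j))) (ω, u) ∂e1nu ∂μ := by
      rw [← lintegral_indicator hA', lintegral_prod _ hm.aemeasurable]
    rw [hR]
    apply lintegral_congr
    intro ω
    by_cases hω : e ω ∈ A
    · have e1 : (Prod.mk ω ⁻¹' {z : Ω × (ℤ × ℕ → ℝ) | e z.1 ∈ A ∧
          ∀ j, j ≤ n → (e1st (e z.1) z.2 j).1 = p j}) =
          {u | ∀ j < n, u (p j, visits p j) ∈ e1B (e ω) p j} := by
        ext u
        simp only [Set.mem_preimage, Set.mem_ofPred_eq]
        rw [e1event]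
        simp [hω, hp]
      rw [e1, e1inner (h01 ω)]
      have e2 : ∀ u : ℤ × ℕ → ℝ, ({z : Ω × (ℤ × ℕ → ℝ) | e z.1 ∈ A}.indicator
          (fun z : Ω × (ℤ × ℕ → ℝ) => ∏ j ∈ Finset.range n,
            ENNReal.ofReal (stepProb (e z.1) p j)) (ω, u)) =
          ∏ j ∈ Finset.range n, ENNReal.ofReal (stepProb (e ω) p j) := by
        intro u
        rw [Set.indicator_of_mem]
        exact hω
      rw [lintegral_congr e2]
      simp
    · have e1 : (Prod.mk ω ⁻¹' {z : Ω × (ℤ × ℕ → ℝ) | e z.1 ∈ A ∧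
          ∀ j, j ≤ n → (e1st (e z.1) z.2 j).1 = p j}) = ∅ := by
        ext u
        simp [hω]
      have e2 : ∀ u : ℤ × ℕ → ℝ, ({z : Ω × (ℤ × ℕ → ℝ) | e z.1 ∈ A}.indicator
          (fun z : Ω × (ℤ × ℕ → ℝ) => ∏ j ∈ Finset.range n,
            ENNReal.ofReal (stepProb (e z.1) p j)) (ω, u)) = 0 := by
        intro u
        rw [Set.indicator_of_notMem]
        exact hω
      rw [e1, lintegral_congr e2]
      simp
  · rw [if_neg hp]
    have e1 : ∀ ω, e1nu (Prod.mk ω ⁻¹' {z : Ω × (ℤ × ℕ → ℝ) | e z.1 ∈ A ∧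
          ∀ j, j ≤ n → (e1st (e z.1) z.2 j).1 = p j}) = 0 := by
      intro ω
      have : (Prod.mk ω ⁻¹' {z : Ω × (ℤ × ℕ → ℝ) | e z.1 ∈ A ∧
          ∀ j, j ≤ n → (e1st (e z.1) z.2 j).1 = p j}) = ∅ := by
        ext u
        simp only [Set.mem_preimage, Set.mem_ofPred_eq, Set.mem_empty_iff_false, iff_false]
        rintro ⟨-, h⟩
        exact hp ((e1event _ _ _ _).mp h).1
      rw [this]; simp
    rw [lintegral_congr e1]
    simp

attribute [local irreducible] DD NN LL cexp fz

theorem main_tr : ∃ (Ω : Type) (_ : MeasurableSpace Ω) (μ : Measure Ω) (_ : IsProbabilityMeasure μ)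
    (env : Ω → ℤ → ℕ → ℝ) (X : ℕ → Ω → ℤ),
    Measurable env ∧ (∀ n, Measurable (X n)) ∧ (∀ w z i, env w z i ∈ Set.Icc (0:ℝ) 1) ∧
    IsERW μ env X ∧
    Ergodic (fun (e : ℤ → ℕ → ℝ) (z : ℤ) => e (z + 1)) (μ.map env) ∧
    (∃ M : ℕ, ∀ᵐ w ∂μ, ∀ z i, M < i → env w z i = 1 / 2) ∧
    (∀ z, 0 < μ {w | ∀ i, 1 ≤ i → 0 < env w z i}) ∧
    (∀ z, 0 < μ {w | ∀ i, 1 ≤ i → env w z i < 1}) ∧
    (∫ w, (∑' i : ℕ, (2 * env w 0 (i + 1) - 1)) ∂μ = 1) ∧
    ∀ᵐ w ∂μ, Tendsto (fun n => |X n w|) atTop atTop := by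
  obtain ⟨Ω, mΩ, μ, hμ, T, r, hT, hm, hs, hlt, hsucc, hc, hu⟩ := partC
  obtain ⟨hcons, hint, hpos⟩ := partD μ T r hT.toMeasurePreserving hm hs hlt hsucc hc hu
  obtain ⟨p, hsum, hp0, hp⟩ := partB
  have hem : Measurable (fun w => ev (r w)) := ev_measurable r hm
  have h01 : ∀ w x i, ev (r w) x i ∈ Set.Icc (0:ℝ) 1 := fun w x i => om_mem _ _ _ _
  set S : Type := ℤ × ℕ → ℝ with hS
  set ν : Measure S := e1nu with hν
  set X : ℕ → Ω × S → ℤ := fun n z => (e1st (ev (r z.1)) z.2 n).1 with hXdef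
  have hX : ∀ n, Measurable (X n) := measX2 (fun w => ev (r w)) hem
  have hlaw : IsERW (μ.prod ν) (fun w => ev (r w.1)) X := erwA μ (fun w => ev (r w)) hem h01
  have hfst : (μ.prod ν).map Prod.fst = μ := by
    rw [Measure.map_fst_prod]; simp
  have hmf : MeasurePreserving (Prod.fst : Ω × S → Ω) (μ.prod ν) μ := ⟨measurable_fst, hfst⟩
  have hmeasD : ∀ x : ℤ, Measurable (fun w => DD (fun j => r w j x)) := by
    intro x
    have h0 : Measurable (fun w => (fun j => r w j x)) := measurable_pi_iff.2 fun j => hm j x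
    exact Measurable.comp (g := fun s : ℕ → ℕ => DD s) (f := fun w => (fun j => r w j x))
      DD_measurable h0
  -- the type at every site is neutral with positive probability
  have hneu : ∀ z : ℤ, 0 < μ {w | DD (fun j => r w j z) = 0} := by
    have hstep : ∀ z : ℤ, μ {w | DD (fun j => r w j (z + 1)) = 0} =
        μ {w | DD (fun j => r w j z) = 0} := by
      intro z
      have hms : MeasurableSet {w | DD (fun j => r w j z) = 0} :=
        (hmeasD z) (measurableSet_singleton 0)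
      rw [← hT.toMeasurePreserving.measure_preimage hms.nullMeasurableSet]
      congr 1
      ext w
      simp only [Set.mem_preimage, Set.mem_ofPred_eq, hs]
    intro z
    induction z using Int.induction_on with
    | zero => exact hpos
    | succ i ih => rw [hstep]; exact ih
    | pred i ih =>
      have := hstep (-(i:ℤ) - 1)
      rw [show -(i:ℤ) - 1 + 1 = -(i:ℤ) by ring] at this
      rw [← this]; exact ih
  refine ⟨Ω × S, inferInstance, μ.prod ν, inferInstance, fun w => ev (r w.1), X,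
    hem.comp measurable_fst, hX, fun w x i => h01 w.1 x i, hlaw, ?_, ?_, ?_, ?_, ?_, ?_⟩
  · -- ergodicity
    have h1 : (μ.prod ν).map (fun w : Ω × S => ev (r w.1)) = μ.map (fun w => ev (r w)) := by
      have h2 : (fun w : Ω × S => ev (r w.1)) = (fun w => ev (r w)) ∘ Prod.fst := rfl
      rw [h2, ← Measure.map_map hem measurable_fst, hfst]
    rw [h1]
    refine ergodic_map μ T hT _ hem fun w => ?_
    funext z
    funext i
    simp only [ev_eq, hs]
  · exact ⟨5, Filter.Eventually.of_forall fun w z i hi => ck_bd _ (DD_val _) i hi⟩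
  · intro z
    have h1 : (Prod.fst : Ω × S → Ω) ⁻¹' {w | DD (fun j => r w j z) = 0} ⊆
        {w : Ω × S | ∀ i, 1 ≤ i → 0 < ev (r w.1) z i} := by
      intro w hw i _
      have hw' : DD (fun j => r w.1 j z) = 0 := hw
      rw [ev_eq, hw', ck_zero]; norm_num
    refine lt_of_lt_of_le ?_ (measure_mono h1)
    have h2 : MeasurableSet {w | DD (fun j => r w j z) = 0} :=
      (hmeasD z) (measurableSet_singleton 0)
    rw [hmf.measure_preimage h2.nullMeasurableSet]
    exact hneu z
  · intro z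
    have h1 : (Prod.fst : Ω × S → Ω) ⁻¹' {w | DD (fun j => r w j z) = 0} ⊆
        {w : Ω × S | ∀ i, 1 ≤ i → ev (r w.1) z i < 1} := by
      intro w hw i _
      have hw' : DD (fun j => r w.1 j z) = 0 := hw
      rw [ev_eq, hw', ck_zero]; norm_num
    refine lt_of_lt_of_le ?_ (measure_mono h1)
    have h2 : MeasurableSet {w | DD (fun j => r w j z) = 0} :=
      (hmeasD z) (measurableSet_singleton 0)
    rw [hmf.measure_preimage h2.nullMeasurableSet]
    exact hneu z
  · -- mean drift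
    have h1 : (fun w : Ω × S => ∑' i : ℕ, (2 * ev (r w.1) 0 (i + 1) - 1)) =
        fun w : Ω × S => ((DD (fun j => r w.1 j 0) : ℤ) : ℝ) := by
      funext w
      simp only [ev_eq]
      exact ck_sum _ (DD_val _)
    rw [h1]
    have hmr : Measurable (fun w => ((DD (fun j => r w j 0) : ℤ) : ℝ)) :=
      Measurable.comp (g := fun d : ℤ => (d : ℝ)) (f := fun w => DD (fun j => r w j 0))
        (measurable_of_countable _) (hmeasD 0)
    have h2 := integral_map (μ := μ.prod ν) (φ := Prod.fst) measurable_fst.aemeasurable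
      (f := fun w => ((DD (fun j => r w j 0) : ℤ) : ℝ))
      (by rw [hfst]; exact hmr.aestronglyMeasurable)
    rw [hfst] at h2
    rw [← h2]
    exact hint
  · -- survival
    obtain ⟨K, hK1, hK⟩ : ∃ K, 1 ≤ K ∧ ∀ m, ∑ N ∈ Finset.Icc K (K + m), p N ≤ 1 / 2 := by
      have h1 := tendsto_sum_nat_add p
      have h2 : ∀ᶠ i in atTop, ∑' k, p (k + i) < 1 / 2 :=
        h1.eventually (gt_mem_nhds (by norm_num))
      obtain ⟨K, hK1, hK2⟩ := (h2.and (eventually_ge_atTop 1)).exists
      refine ⟨K, hK2, fun m => ?_⟩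
      have h3 : Summable fun k => p (k + K) := (summable_nat_add_iff K).2 hsum
      have h4 : ∑ N ∈ Finset.Icc K (K + m), p N = ∑ k ∈ Finset.range (m + 1), p (k + K) := by
        rw [Finset.range_eq_Ico, Finset.sum_Ico_add' (fun k => p k) 0 (m + 1) K]
        congr 1
        ext x
        simp only [Finset.mem_Icc, Finset.mem_Ico]
        omega
      rw [h4]
      exact (h3.sum_le_tsum _ (fun i _ => hp0 _)).trans hK1.le
    set c : ℝ := (1 / 2) ^ K * (1 / 2) with hcdef
    have hc0 : 0 < c := by positivity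
    have hmeas : MeasurableSet {z : Ω × S | Tendsto (fun n => |X n z|) atTop atTop} := by
      have e : {z : Ω × S | Tendsto (fun n => |X n z|) atTop atTop} =
          ⋂ b : ℤ, ⋃ N : ℕ, ⋂ n : ℕ, ⋂ _ : N ≤ n, (X n) ⁻¹' {x | b ≤ |x|} := by
        ext z
        simp only [Set.mem_ofPred_eq, tendsto_atTop_atTop, Set.mem_iInter, Set.mem_iUnion,
          Set.mem_preimage]
      rw [e]
      exact MeasurableSet.iInter fun b => MeasurableSet.iUnion fun N => MeasurableSet.iInter fun n =>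
        MeasurableSet.iInter fun _ => hX n (Set.to_countable _).measurableSet
    rw [Measure.ae_prod_iff_ae_ae hmeas]
    filter_upwards [hcons] with w hw
    refine quenched (ev (r w)) (h01 w) 5 (fun z i hi => ck_bd _ (DD_val _) i hi) c hc0 K
      fun y m => ?_
    have hw' : Cons (fun j x => r w j (x + y)) :=
      ⟨fun j x => hw.lt j _, fun j x => by rw [← hw.succ, add_right_comm],
        fun j x => hw.compat j _, fun x => hw.fin _⟩
    have h2 := partA (fun x => ca (DD fun j => r w j (x + y)))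
      (fun x => cb (DD fun j => r w j (x + y)))
      (fun y hy => ca_cb _ (DD_val _) hy) p hp0 K hK1
      (fun N hN => hp _ hw' N (hK1.trans hN)) m
    refine le_trans ?_ h2
    rw [hcdef]
    have := hK m
    have h5 : (0:ℝ) < (1 / 2) ^ K := by positivity
    nlinarith

end Pool.Agent.H733Z.Erw
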