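import Mathlib

set_option autoImplicit false

open Filter Topology
open scoped NNReal ENNReal

namespace Pool.Agent.H733Z.Greedy

/-- monotone, subadditive, positively homogeneous functionals on nonnegative sequences -/
structure IsLat (Φ : (ℕ → ℝ≥0) → ℝ≥0∞) : Prop where
  mono : ∀ a b : ℕ → ℝ≥0, (∀ i, a i ≤ b i) → Φ a ≤ Φ b
  add : ∀ a b : ℕ → ℝ≥0, Φ (fun i => a i + b i) ≤ Φ a + Φ b
  smul : ∀ (r : ℝ≥0) (a : ℕ → ℝ≥0), Φ (fun i => r * a i) ≤ r * Φ a

theorem IsLat.zero {Φ : (ℕ → ℝ≥0) → ℝ≥0∞} (h : IsLat Φ) : Φ (fun _ => 0) = 0 := by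
  have := h.smul 0 (fun _ => 0)
  simpa using this

/-- symmetrisation -/
noncomputable def symm (Φ : (ℕ → ℝ≥0) → ℝ≥0∞) (a : ℕ → ℝ≥0) : ℝ≥0∞ :=
  ⨆ σ : Equiv.Perm ℕ, Φ (fun i => a (σ i))

theorem IsLat.symm {Φ : (ℕ → ℝ≥0) → ℝ≥0∞} (h : IsLat Φ) : IsLat (symm Φ) where
  mono a b hab := iSup_mono fun σ => h.mono _ _ fun i => hab _
  add a b := iSup_le fun σ => (h.add (fun i => a (σ i)) (fun i => b (σ i))).trans
    (add_le_add (le_iSup (fun σ : Equiv.Perm ℕ => Φ (fun i => a (σ i))) σ)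
      (le_iSup (fun σ : Equiv.Perm ℕ => Φ (fun i => b (σ i))) σ))
  smul r a := iSup_le fun σ => (h.smul r (fun i => a (σ i))).trans
    (by gcongr; exact le_iSup (fun σ : Equiv.Perm ℕ => Φ (fun i => a (σ i))) σ)

theorem le_symm (Φ : (ℕ → ℝ≥0) → ℝ≥0∞) (a : ℕ → ℝ≥0) : Φ a ≤ symm Φ a :=
  le_iSup (fun σ : Equiv.Perm ℕ => Φ (fun i => a (σ i))) 1

theorem symm_perm (Φ : (ℕ → ℝ≥0) → ℝ≥0∞) (a : ℕ → ℝ≥0) (τ : Equiv.Perm ℕ) :
    symm Φ (fun i => a (τ i)) ≤ symm Φ a :=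
  iSup_le fun σ => le_iSup (fun σ : Equiv.Perm ℕ => Φ (fun i => a (σ i))) (τ * σ)

/-- infimal convolution of `L • Φ` and the symmetrisation of `Φ` -/
noncomputable def conv (L : ℝ≥0) (Φ : (ℕ → ℝ≥0) → ℝ≥0∞) (a : ℕ → ℝ≥0) : ℝ≥0∞ :=
  ⨅ p : {p : (ℕ → ℝ≥0) × (ℕ → ℝ≥0) // ∀ i, a i ≤ p.1 i + p.2 i}, L * Φ p.1.1 + symm Φ p.1.2

theorem conv_le (L : ℝ≥0) (Φ : (ℕ → ℝ≥0) → ℝ≥0∞) (a b c : ℕ → ℝ≥0) (h : ∀ i, a i ≤ b i + c i) :
    conv L Φ a ≤ L * Φ b + symm Φ c :=
  iInf_le (fun p : {p : (ℕ → ℝ≥0) × (ℕ → ℝ≥0) // ∀ i, a i ≤ p.1 i + p.2 i} =>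
    (L : ℝ≥0∞) * Φ p.1.1 + symm Φ p.1.2) ⟨(b, c), h⟩

theorem IsLat.conv {Φ : (ℕ → ℝ≥0) → ℝ≥0∞} (h : IsLat Φ) (L : ℝ≥0) : IsLat (conv L Φ) where
  mono a b hab := le_iInf fun p => conv_le L Φ a p.1.1 p.1.2 fun i => (hab i).trans (p.2 i)
  add a b := by
    refine ENNReal.le_iInf_add_iInf fun p q => ?_
    refine (conv_le L Φ _ (fun i => p.1.1 i + q.1.1 i) (fun i => p.1.2 i + q.1.2 i) ?_).trans ?_
    · intro i
      have h1 := p.2 i
      have h2 := q.2 i
      calc a i + b i ≤ (p.1.1 i + p.1.2 i) + (q.1.1 i + q.1.2 i) := add_le_add h1 h2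
        _ = _ := by ring
    · calc (L : ℝ≥0∞) * Φ (fun i => p.1.1 i + q.1.1 i) + Greedy.symm Φ (fun i => p.1.2 i + q.1.2 i)
          ≤ L * (Φ p.1.1 + Φ q.1.1) + (Greedy.symm Φ p.1.2 + Greedy.symm Φ q.1.2) := by
            gcongr
            · exact h.add _ _
            · exact h.symm.add _ _
        _ = _ := by ring
  smul r a := by
    rcases eq_or_ne r 0 with rfl | hr
    · refine (conv_le L Φ _ (fun _ => 0) (fun _ => 0) (by simp)).trans ?_
      rw [h.zero, h.symm.zero]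
      simp
    · unfold Greedy.conv
      rw [ENNReal.mul_iInf_of_ne (by exact_mod_cast hr) ENNReal.coe_ne_top]
      refine le_iInf fun p => ?_
      refine (conv_le L Φ _ (fun i => r * p.1.1 i) (fun i => r * p.1.2 i) ?_).trans ?_
      · intro i
        rw [← mul_add]
        gcongr
        exact p.2 i
      · calc (L : ℝ≥0∞) * Φ (fun i => r * p.1.1 i) + Greedy.symm Φ (fun i => r * p.1.2 i)
            ≤ L * (r * Φ p.1.1) + r * Greedy.symm Φ p.1.2 := by
              gcongr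
              · exact h.smul _ _
              · exact h.symm.smul _ _
          _ = _ := by ring

theorem le_conv {Φ : (ℕ → ℝ≥0) → ℝ≥0∞} (h : IsLat Φ) {L : ℝ≥0} (hL : 1 ≤ L) (a : ℕ → ℝ≥0) :
    Φ a ≤ conv L Φ a := by
  refine le_iInf fun p => ?_
  calc Φ a ≤ Φ (fun i => p.1.1 i + p.1.2 i) := h.mono _ _ p.2
    _ ≤ Φ p.1.1 + Φ p.1.2 := h.add _ _
    _ ≤ L * Φ p.1.1 + symm Φ p.1.2 := by
      gcongr
      · exact le_mul_of_one_le_left (by simp) (by exact_mod_cast hL)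
      · exact le_symm _ _

theorem conv_le_mul {Φ : (ℕ → ℝ≥0) → ℝ≥0∞} (h : IsLat Φ) (L : ℝ≥0) (a : ℕ → ℝ≥0) :
    conv L Φ a ≤ L * Φ a := by
  refine (conv_le L Φ a a (fun _ => 0) (by simp)).trans ?_
  rw [h.symm.zero, add_zero]

theorem exists_perm (D : Finset ℕ) : ∀ E : Finset ℕ, Disjoint D E → D.card ≤ E.card →
    ∃ σ : Equiv.Perm ℕ, (∀ n ∈ D, σ n ∈ E) ∧ ∀ n, n ∉ D → n ∉ E → σ n = n := by
  induction D using Finset.induction_on with
  | empty => exact fun E _ _ => ⟨1, by simp, by simp⟩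
  | insert d D hd ih =>
    intro E hdis hcard
    rw [Finset.card_insert_of_notMem hd] at hcard
    obtain ⟨e, he⟩ : E.Nonempty := Finset.card_pos.mp (by omega)
    have hdE : d ∉ E := Finset.disjoint_left.mp hdis (Finset.mem_insert_self _ _)
    have hDE : ∀ n ∈ D, n ∉ E := fun n hn =>
      Finset.disjoint_left.mp hdis (Finset.mem_insert_of_mem hn)
    obtain ⟨σ, h1, h2⟩ := ih (E.erase e)
      (Finset.disjoint_left.mpr fun n hn hn' => hDE n hn (Finset.mem_of_mem_erase hn'))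
      (by rw [Finset.card_erase_of_mem he]; omega)
    refine ⟨σ * Equiv.swap d e, ?_, ?_⟩
    · intro n hn
      rcases Finset.mem_insert.mp hn with rfl | hn2
      · rw [Equiv.Perm.mul_apply, Equiv.swap_apply_left,
          h2 e (fun h => hDE e h he) (Finset.notMem_erase _ _)]
        exact he
      · rw [Equiv.Perm.mul_apply, Equiv.swap_apply_of_ne_of_ne (fun h : n = d => hd (h ▸ hn2))
          (fun h : n = e => hDE _ hn2 (h ▸ he))]
        exact Finset.mem_of_mem_erase (h1 n hn2)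
    · intro n hn hn'
      rw [Finset.mem_insert, not_or] at hn
      rw [Equiv.Perm.mul_apply, Equiv.swap_apply_of_ne_of_ne hn.1 (by rintro rfl; exact hn' he)]
      exact h2 n hn.2 (fun h => hn' (Finset.mem_of_mem_erase h))

/-- indicator sequence of a finite set -/
def ind (A : Finset ℕ) (i : ℕ) : ℝ≥0 := if i ∈ A then 1 else 0

theorem swap_le {Φ : (ℕ → ℝ≥0) → ℝ≥0∞} (h : IsLat Φ) (Δ : ℝ≥0)
    (hdem : ∀ A B : Finset ℕ, A.card ≤ B.card → Φ (ind A) ≤ Δ * Φ (ind B))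
    (L δ η : ℝ≥0) (hδ : 0 < δ) (hη1 : 1 ≤ (1 + η) * (1 - δ)) 
    (hη2 : Δ * δ⁻¹ ≤ η * L)
    (a a' : ℕ → ℝ≥0) (D E : Finset ℕ) (hdis : Disjoint D E) (hcard : D.card ≤ E.card) (t : ℝ≥0)
    (hD : ∀ n ∈ D, a' n ≤ t) (hE : ∀ n ∈ E, t ≤ a n) (hE0 : ∀ n ∈ E, a' n = 0)
    (hout : ∀ n, n ∉ D → n ∉ E → a' n ≤ a n) :
    conv L Φ a' ≤ (1 + η : ℝ≥0) * conv L Φ a := by
  classical
  obtain ⟨σ, h1, h2⟩ := exists_perm D E hdis hcard
  unfold conv
  rw [ENNReal.mul_iInf_of_ne (by simp) ENNReal.coe_ne_top]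
  refine le_iInf fun p => ?_
  obtain ⟨⟨b, c⟩, hp⟩ := p
  dsimp only at hp ⊢
  set D' := D.filter (fun n => δ * t ≤ b (σ n)) with hD'
  refine (conv_le L Φ a' b (fun i => (1 + η) * c (σ i) + t * ind D' i) ?_).trans ?_
  · intro n
    by_cases hnD : n ∈ D
    · by_cases hb : δ * t ≤ b (σ n)
      · have : n ∈ D' := Finset.mem_filter.mpr ⟨hnD, hb⟩
        simp only [ind, this, if_true, mul_one]
        exact (hD n hnD).trans (le_add_left (le_add_left le_rfl))
      · have h3 := hE _ (h1 n hnD)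
        have h4 := hp (σ n)
        have h5 : (1 - δ) * t ≤ c (σ n) := by
          rw [tsub_mul, one_mul, tsub_le_iff_left]
          exact h3.trans (h4.trans (by gcongr; exact (not_le.mp hb).le))
        have h6 : t ≤ (1 + η) * c (σ n) := by
          calc t = 1 * t := (one_mul t).symm
            _ ≤ ((1 + η) * (1 - δ)) * t := by gcongr
            _ = (1 + η) * ((1 - δ) * t) := by ring
            _ ≤ _ := by gcongr
        exact (hD n hnD).trans (h6.trans (le_add_left (le_add_right le_rfl)))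
    · by_cases hnE : n ∈ E
      · rw [hE0 n hnE]
        simp
      · rw [h2 n hnD hnE]
        refine (hout n hnD hnE).trans ((hp n).trans ?_)
        gcongr
        exact le_add_right (le_mul_of_one_le_left (by simp) (by simp))
  · have hs1 : symm Φ (fun i => (1 + η) * c (σ i) + t * ind D' i)
        ≤ (1 + η : ℝ≥0) * symm Φ c + t * symm Φ (ind D') := by
      refine (h.symm.add (fun i => (1 + η) * c (σ i)) (fun i => t * ind D' i)).trans ?_
      gcongr
      · refine (h.symm.smul (1 + η) (fun i => c (σ i))).trans ?_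
        gcongr
        exact symm_perm Φ c σ
      · exact h.symm.smul t (ind D')
    have hs2 : symm Φ (ind D') ≤ Δ * Φ (ind (D'.image σ)) := by
      refine iSup_le fun τ => ?_
      have : (fun i => ind D' (τ i)) = ind (D'.image τ.symm) := by
        funext i
        simp only [ind, Finset.mem_image]
        congr 1
        apply propext
        constructor
        · intro hi
          exact ⟨τ i, hi, by simp⟩
        · rintro ⟨j, hj, rfl⟩
          simpa using hj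
      rw [this]
      apply hdem
      rw [Finset.card_image_of_injective _ τ.symm.injective,
        Finset.card_image_of_injective _ σ.injective]
    have hs3 : (t : ℝ≥0∞) * Φ (ind (D'.image σ)) ≤ (δ⁻¹ : ℝ≥0) * Φ b := by
      rcases eq_or_ne t 0 with rfl | ht
      · simp
      have h7 : Φ (ind (D'.image σ)) ≤ Φ (fun i => (δ * t)⁻¹ * b i) := by
        apply h.mono
        intro i
        unfold ind
        split_ifs with hi
        · obtain ⟨j, hj, rfl⟩ := Finset.mem_image.mp hi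
          have := (Finset.mem_filter.mp hj).2
          have hpos : 0 < δ * t := mul_pos hδ (pos_iff_ne_zero.mpr ht)
          rw [inv_mul_eq_div, le_div_iff₀ hpos, one_mul]
          exact this
        · simp
      calc (t : ℝ≥0∞) * Φ (ind (D'.image σ)) ≤ t * (((δ * t)⁻¹ : ℝ≥0) * Φ b) := by
            gcongr
            exact h7.trans (h.smul _ _)
        _ = ((t * (δ * t)⁻¹ : ℝ≥0) : ℝ≥0∞) * Φ b := by rw [← mul_assoc, ENNReal.coe_mul]
        _ = _ := by
          congr 2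
          field_simp
    calc (L : ℝ≥0∞) * Φ b + symm Φ (fun i => (1 + η) * c (σ i) + t * ind D' i)
        ≤ L * Φ b + ((1 + η : ℝ≥0) * symm Φ c + t * (Δ * Φ (ind (D'.image σ)))) := by
          gcongr
          exact hs1.trans (by gcongr)
      _ = L * Φ b + (1 + η : ℝ≥0) * symm Φ c + Δ * (t * Φ (ind (D'.image σ))) := by ring
      _ ≤ L * Φ b + (1 + η : ℝ≥0) * symm Φ c + Δ * ((δ⁻¹ : ℝ≥0) * Φ b) := by gcongr
      _ = L * Φ b + (1 + η : ℝ≥0) * symm Φ c + ((Δ * δ⁻¹ : ℝ≥0) : ℝ≥0∞) * Φ b := by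
          rw [ENNReal.coe_mul]; ring
      _ ≤ L * Φ b + (1 + η : ℝ≥0) * symm Φ c + ((η * L : ℝ≥0) : ℝ≥0∞) * Φ b := by gcongr
      _ = _ := by push_cast; ring

end Pool.Agent.H733Z.Greedy
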