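import Pool.Agent.H733Z.Greedy

set_option autoImplicit false

open Filter Topology
open scoped NNReal ENNReal

namespace Pool.Agent.H733Z.Greedy

variable {𝕜 : Type} [RCLike 𝕜] {X : Type} [NormedAddCommGroup X] [NormedSpace 𝕜 X]

/-- the lattice functional of a sequence of vectors -/
noncomputable def UU (𝕜 : Type) [RCLike 𝕜] {X : Type} [NormedAddCommGroup X] [NormedSpace 𝕜 X]
    (e : ℕ → X) (a : ℕ → ℝ≥0) : ℝ≥0∞ :=
  ⨆ p : {p : Finset ℕ × (ℕ → 𝕜) // ∀ i, ‖p.2 i‖₊ ≤ a i}, ‖∑ i ∈ p.1.1, p.1.2 i • e i‖ₑ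

theorem le_UU (e : ℕ → X) (a : ℕ → ℝ≥0) (F : Finset ℕ) (c : ℕ → 𝕜) (h : ∀ i, ‖c i‖₊ ≤ a i) :
    ‖∑ i ∈ F, c i • e i‖ₑ ≤ UU 𝕜 e a :=
  le_iSup (fun p : {p : Finset ℕ × (ℕ → 𝕜) // ∀ i, ‖p.2 i‖₊ ≤ a i} =>
    ‖∑ i ∈ p.1.1, p.1.2 i • e i‖ₑ) ⟨(F, c), h⟩

theorem isLat_UU (e : ℕ → X) : IsLat (UU 𝕜 e) where
  mono a b hab := iSup_le fun p => le_UU e b p.1.1 p.1.2 fun i => (p.2 i).trans (hab i)
  add a b := by
    refine iSup_le fun p => ?_
    obtain ⟨⟨F, c⟩, hp⟩ := p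
    dsimp only at hp ⊢
    have key : ∀ i, ∃ u v : 𝕜, c i = u + v ∧ ‖u‖₊ ≤ a i ∧ ‖v‖₊ ≤ b i := by
      intro i
      by_cases h0 : a i + b i = 0
      · have : c i = 0 := by simpa [h0] using hp i
        exact ⟨0, 0, by simp [this], by simp, by simp⟩
      · have hpos : (0 : ℝ) < (a i : ℝ) + b i := by
          have : 0 < a i + b i := pos_iff_ne_zero.mpr h0
          exact_mod_cast this
        have hc : ‖c i‖ ≤ (a i : ℝ) + b i := by exact_mod_cast hp i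
        have ha : (0 : ℝ) ≤ a i := (a i).2
        have hb : (0 : ℝ) ≤ b i := (b i).2
        refine ⟨(((a i : ℝ) / ((a i : ℝ) + b i) : ℝ) : 𝕜) * c i,
          (((b i : ℝ) / ((a i : ℝ) + b i) : ℝ) : 𝕜) * c i, ?_, ?_, ?_⟩
        · rw [← add_mul, ← RCLike.ofReal_add, ← add_div, div_self hpos.ne']
          simp
        · rw [← NNReal.coe_le_coe, coe_nnnorm, norm_mul, RCLike.norm_ofReal,
            abs_of_nonneg (by positivity), div_mul_eq_mul_div, div_le_iff₀ hpos]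
          gcongr
        · rw [← NNReal.coe_le_coe, coe_nnnorm, norm_mul, RCLike.norm_ofReal,
            abs_of_nonneg (by positivity), div_mul_eq_mul_div, div_le_iff₀ hpos]
          gcongr
    choose u v h1 h2 h3 using key
    have : ∑ i ∈ F, c i • e i = ∑ i ∈ F, u i • e i + ∑ i ∈ F, v i • e i := by
      rw [← Finset.sum_add_distrib]
      exact Finset.sum_congr rfl fun i _ => by rw [h1, add_smul]
    rw [this]
    exact (enorm_add_le _ _).trans (add_le_add (le_UU e a F u h2) (le_UU e b F v h3))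
  smul r a := by
    refine iSup_le fun p => ?_
    obtain ⟨⟨F, c⟩, hp⟩ := p
    dsimp only at hp ⊢
    rcases eq_or_ne r 0 with rfl | hr
    · have : ∀ i, c i = 0 := fun i => by simpa using hp i
      simp [this]
    · have hr' : (0 : ℝ) < r := by exact_mod_cast pos_iff_ne_zero.mpr hr
      have hrk : ((r : ℝ) : 𝕜) ≠ 0 := by exact_mod_cast hr'.ne'
      have : ∑ i ∈ F, c i • e i = ((r : ℝ) : 𝕜) • ∑ i ∈ F, (((r : ℝ) : 𝕜)⁻¹ * c i) • e i := by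
        rw [Finset.smul_sum]
        exact Finset.sum_congr rfl fun i _ => by rw [smul_smul, mul_inv_cancel_left₀ hrk]
      rw [this, enorm_smul]
      have h1 : ‖((r : ℝ) : 𝕜)‖ₑ = r := by
        rw [← ofReal_norm, RCLike.norm_ofReal, abs_of_pos hr', ENNReal.ofReal_coe_nnreal]
      rw [h1]
      gcongr
      apply le_UU
      intro i
      have hc : ‖c i‖ ≤ (r : ℝ) * a i := by exact_mod_cast hp i
      rw [← NNReal.coe_le_coe, coe_nnnorm, norm_mul, norm_inv, RCLike.norm_ofReal, abs_of_pos hr',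
        inv_mul_le_iff₀ hr']
      exact hc

theorem convex_bound (v : ℕ → X) (θ : ℕ → ℝ) (h0 : ∀ i, 0 ≤ θ i) (h1 : ∀ i, θ i ≤ 1) (M : ℝ)
    (F : Finset ℕ) : ∀ w : X, (∀ A ⊆ F, ‖w + ∑ i ∈ A, v i‖ ≤ M) →
      ‖w + ∑ i ∈ F, ((θ i : ℝ) : 𝕜) • v i‖ ≤ M := by
  induction F using Finset.induction_on with
  | empty => exact fun w h => by simpa using h ∅ (by simp)
  | insert d F hd ih =>
    intro w h
    have e1 := ih w (fun A hA => h A (hA.trans (Finset.subset_insert _ _)))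
    have e2 := ih (w + v d) (fun A hA => by
      have := h (insert d A) (Finset.insert_subset_insert _ hA)
      rwa [Finset.sum_insert (fun h' => hd (hA h')), ← add_assoc] at this)
    rw [Finset.sum_insert hd]
    set s := ∑ i ∈ F, ((θ i : ℝ) : 𝕜) • v i
    have : w + (((θ d : ℝ) : 𝕜) • v d + s)
        = ((1 - θ d : ℝ) : 𝕜) • (w + s) + ((θ d : ℝ) : 𝕜) • (w + v d + s) := by
      push_cast
      module
    rw [this]
    refine (norm_add_le _ _).trans ?_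
    rw [norm_smul, norm_smul, RCLike.norm_ofReal, RCLike.norm_ofReal,
      abs_of_nonneg (sub_nonneg.mpr (h1 d)), abs_of_nonneg (h0 d)]
    have := h0 d
    have := sub_nonneg.mpr (h1 d)
    nlinarith

theorem real_bound (v : ℕ → X) (θ : ℕ → ℝ) (h1 : ∀ i, |θ i| ≤ 1) (M : ℝ)
    (F : Finset ℕ) (h : ∀ A ⊆ F, ‖∑ i ∈ A, v i‖ ≤ M) :
      ‖∑ i ∈ F, ((θ i : ℝ) : 𝕜) • v i‖ ≤ 2 * M := by
  have e1 := convex_bound (𝕜 := 𝕜) v (fun i => max (θ i) 0) (fun i => le_max_right _ _)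
    (fun i => max_le (le_of_abs_le (h1 i)) zero_le_one) M F 0 (by simpa using h)
  have e2 := convex_bound (𝕜 := 𝕜) v (fun i => max (-θ i) 0) (fun i => le_max_right _ _)
    (fun i => max_le (neg_le_of_abs_le (h1 i) |> fun h => by linarith) zero_le_one) M F 0
    (by simpa using h)
  rw [zero_add] at e1 e2
  have : ∑ i ∈ F, ((θ i : ℝ) : 𝕜) • v i = ∑ i ∈ F, ((max (θ i) 0 : ℝ) : 𝕜) • v i
      - ∑ i ∈ F, ((max (-θ i) 0 : ℝ) : 𝕜) • v i := by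
    rw [← Finset.sum_sub_distrib]
    refine Finset.sum_congr rfl fun i _ => ?_
    rw [← sub_smul, ← RCLike.ofReal_sub, max_zero_sub_max_neg_zero_eq_self]
  rw [this]
  refine (norm_sub_le _ _).trans ?_
  linarith

theorem scalar_bound (v : ℕ → X) (θ : ℕ → 𝕜) (h1 : ∀ i, ‖θ i‖ ≤ 1) (M : ℝ)
    (F : Finset ℕ) (h : ∀ A ⊆ F, ‖∑ i ∈ A, v i‖ ≤ M) :
      ‖∑ i ∈ F, θ i • v i‖ ≤ 4 * M := by
  have e1 := real_bound (𝕜 := 𝕜) v (fun i => RCLike.re (θ i))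
    (fun i => (RCLike.abs_re_le_norm _).trans (h1 i)) M F h
  have e2 := real_bound (𝕜 := 𝕜) v (fun i => RCLike.im (θ i))
    (fun i => (RCLike.abs_im_le_norm _).trans (h1 i)) M F h
  have : ∑ i ∈ F, θ i • v i = ∑ i ∈ F, ((RCLike.re (θ i) : ℝ) : 𝕜) • v i
      + (RCLike.I : 𝕜) • ∑ i ∈ F, ((RCLike.im (θ i) : ℝ) : 𝕜) • v i := by
    rw [Finset.smul_sum, ← Finset.sum_add_distrib]
    refine Finset.sum_congr rfl fun i _ => ?_
    rw [smul_smul, ← add_smul, mul_comm, RCLike.re_add_im]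
  rw [this]
  refine (norm_add_le _ _).trans ?_
  rw [norm_smul]
  have hI : ‖(RCLike.I : 𝕜)‖ ≤ 1 := by
    rcases RCLike.I_eq_zero_or_im_I_eq_one (K := 𝕜) with h | h
    · simp [h]
    · rw [RCLike.norm_I_of_ne_zero]
      intro h'
      simp [h'] at h
  have := norm_nonneg (∑ i ∈ F, ((RCLike.im (θ i) : ℝ) : 𝕜) • v i)
  nlinarith

section basis

variable {e : ℕ → X} {f : ℕ → X →L[𝕜] 𝕜} {C : ℝ}

theorem f_sum (hb : ∀ i j : ℕ, f i (e j) = if i = j then 1 else 0) (A : Finset ℕ) (c : ℕ → 𝕜)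
    (i : ℕ) : f i (∑ j ∈ A, c j • e j) = if i ∈ A then c i else 0 := by
  simp [map_sum, hb]

theorem one_le_C (hb : ∀ i j : ℕ, f i (e j) = if i = j then 1 else 0)
    (hg : ∀ (x : X) (A B : Finset ℕ) (a : ℕ → 𝕜),
      (∀ i ∈ A, ∀ j ∉ A, ‖f j x‖ ≤ ‖f i x‖) → B.card ≤ A.card →
      ‖x - ∑ i ∈ A, f i x • e i‖ ≤ C * ‖x - ∑ i ∈ B, a i • e i‖) : 1 ≤ C := by
  have h := hg (e 0) ∅ ∅ 0 (by simp) (by simp)
  have h0 : e 0 ≠ 0 := by
    intro h0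
    have := hb 0 0
    simp [h0] at this
  have : 0 < ‖e 0‖ := norm_pos_iff.mpr h0
  simp only [Finset.sum_empty, sub_zero] at h
  nlinarith

theorem demo (hb : ∀ i j : ℕ, f i (e j) = if i = j then 1 else 0)
    (hg : ∀ (x : X) (A B : Finset ℕ) (a : ℕ → 𝕜),
      (∀ i ∈ A, ∀ j ∉ A, ‖f j x‖ ≤ ‖f i x‖) → B.card ≤ A.card →
      ‖x - ∑ i ∈ A, f i x • e i‖ ≤ C * ‖x - ∑ i ∈ B, a i • e i‖)
    (A B : Finset ℕ) (hdis : Disjoint A B) (hc : A.card ≤ B.card) :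
    ‖∑ i ∈ A, e i‖ ≤ C * ‖∑ i ∈ B, e i‖ := by
  classical
  have hf : ∀ i, f i (∑ j ∈ A ∪ B, e j) = if i ∈ A ∪ B then 1 else 0 := fun i => by
    simpa using f_sum hb (A ∪ B) (fun _ => 1) i
  have h := hg (∑ j ∈ A ∪ B, e j) B A (fun _ => 1) (by
    intro i hi j _
    rw [hf, hf, if_pos (Finset.mem_union_right _ hi)]
    split_ifs <;> simp) hc
  have h2 : ∑ i ∈ B, f i (∑ j ∈ A ∪ B, e j) • e i = ∑ i ∈ B, e i :=
    Finset.sum_congr rfl fun i hi => by rw [hf, if_pos (Finset.mem_union_right _ hi), one_smul]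
  rw [h2, Finset.sum_union hdis] at h
  simpa using h

theorem coeff_bdd (hb : ∀ i j : ℕ, f i (e j) = if i = j then 1 else 0)
    (hs : ∀ x : X, Tendsto (fun N : ℕ => ∑ n ∈ Finset.range N, f n x • e n) atTop (𝓝 x))
    (hg : ∀ (x : X) (A B : Finset ℕ) (a : ℕ → 𝕜),
      (∀ i ∈ A, ∀ j ∉ A, ‖f j x‖ ≤ ‖f i x‖) → B.card ≤ A.card →
      ‖x - ∑ i ∈ A, f i x • e i‖ ≤ C * ‖x - ∑ i ∈ B, a i • e i‖) (x : X) :
    ∃ t : ℝ, ∀ j, ‖f j x‖ ≤ t := by
  have hC := one_le_C hb hg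
  have h0 : e 0 ≠ 0 := by
    intro h0
    have := hb 0 0
    simp [h0] at this
  have hpos : 0 < ‖e 0‖ := norm_pos_iff.mpr h0
  have h1 : ∀ j, ‖e 0‖ ≤ C * ‖e j‖ := by
    intro j
    rcases eq_or_ne j 0 with rfl | hj
    · nlinarith
    · simpa using demo hb hg {0} {j} (by simpa using hj.symm) (by simp)
  have h2 : Tendsto (fun N : ℕ => f N x • e N) atTop (𝓝 0) := by
    have := ((tendsto_add_atTop_iff_nat 1).mpr (hs x)).sub (hs x)
    simpa [Finset.sum_range_succ] using this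
  obtain ⟨R, hR⟩ := h2.norm.bddAbove_range
  refine ⟨C * R / ‖e 0‖, fun j => ?_⟩
  have h3 : ‖f j x • e j‖ ≤ R := hR ⟨j, rfl⟩
  rw [norm_smul] at h3
  rw [le_div_iff₀ hpos]
  have := norm_nonneg (f j x)
  calc ‖f j x‖ * ‖e 0‖ ≤ ‖f j x‖ * (C * ‖e j‖) := by gcongr; exact h1 j
    _ = C * (‖f j x‖ * ‖e j‖) := by ring
    _ ≤ C * R := by gcongr

theorem proj_bdd (hb : ∀ i j : ℕ, f i (e j) = if i = j then 1 else 0)
    (hs : ∀ x : X, Tendsto (fun N : ℕ => ∑ n ∈ Finset.range N, f n x • e n) atTop (𝓝 x))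
    (hg : ∀ (x : X) (A B : Finset ℕ) (a : ℕ → 𝕜),
      (∀ i ∈ A, ∀ j ∉ A, ‖f j x‖ ≤ ‖f i x‖) → B.card ≤ A.card →
      ‖x - ∑ i ∈ A, f i x • e i‖ ≤ C * ‖x - ∑ i ∈ B, a i • e i‖) (x : X) (A : Finset ℕ) :
    ‖∑ i ∈ A, f i x • e i‖ ≤ (C + 1) * ‖x‖ := by
  classical
  obtain ⟨t, ht⟩ := coeff_bdd hb hs hg x
  have ht0 : 0 ≤ t := (norm_nonneg _).trans (ht 0)
  set y := x + ∑ i ∈ A, (((t : ℝ) : 𝕜) - f i x) • e i with hy
  have hf : ∀ i, f i y = if i ∈ A then ((t : ℝ) : 𝕜) else f i x := by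
    intro i
    rw [hy, map_add, f_sum hb]
    split_ifs <;> simp
  have h := hg y A A (fun i => ((t : ℝ) : 𝕜) - f i x) (by
    intro i hi j hj
    rw [hf, hf, if_pos hi, if_neg hj, RCLike.norm_ofReal, abs_of_nonneg ht0]
    exact ht j) le_rfl
  have h2 : y - ∑ i ∈ A, f i y • e i = x - ∑ i ∈ A, f i x • e i := by
    have : ∑ i ∈ A, f i y • e i = ∑ i ∈ A, ((t : ℝ) : 𝕜) • e i :=
      Finset.sum_congr rfl fun i hi => by rw [hf, if_pos hi]
    rw [this, hy]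
    simp only [sub_smul, Finset.sum_sub_distrib]
    abel
  have h3 : y - ∑ i ∈ A, (((t : ℝ) : 𝕜) - f i x) • e i = x := by rw [hy]; abel
  rw [h2, h3] at h
  have h4 : ∑ i ∈ A, f i x • e i = x - (x - ∑ i ∈ A, f i x • e i) := by abel
  rw [h4]
  refine (norm_sub_le _ _).trans ?_
  linarith

theorem UU_le (hb : ∀ i j : ℕ, f i (e j) = if i = j then 1 else 0)
    (hs : ∀ x : X, Tendsto (fun N : ℕ => ∑ n ∈ Finset.range N, f n x • e n) atTop (𝓝 x))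
    (hg : ∀ (x : X) (A B : Finset ℕ) (a : ℕ → 𝕜),
      (∀ i ∈ A, ∀ j ∉ A, ‖f j x‖ ≤ ‖f i x‖) → B.card ≤ A.card →
      ‖x - ∑ i ∈ A, f i x • e i‖ ≤ C * ‖x - ∑ i ∈ B, a i • e i‖) (x : X) :
    UU 𝕜 e (fun i => ‖f i x‖₊) ≤ ENNReal.ofReal (4 * ((C + 1) * ‖x‖)) := by
  refine iSup_le fun p => ?_
  obtain ⟨⟨F, c⟩, hp⟩ := p
  dsimp only at hp ⊢
  have hp' : ∀ i, ‖c i‖ ≤ ‖f i x‖ := fun i => by exact_mod_cast hp i
  have h := scalar_bound (fun i => f i x • e i) (fun i => c i / f i x)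
    (fun i => by rw [norm_div]; exact div_le_one_of_le₀ (hp' i) (norm_nonneg _))
    ((C + 1) * ‖x‖) F (fun A _ => proj_bdd hb hs hg x A)
  have h2 : ∑ i ∈ F, (c i / f i x) • f i x • e i = ∑ i ∈ F, c i • e i := by
    refine Finset.sum_congr rfl fun i _ => ?_
    rw [smul_smul]
    by_cases h0 : f i x = 0
    · have : c i = 0 := by simpa [h0] using hp' i
      simp [this]
    · rw [div_mul_cancel₀ _ h0]
  rw [h2] at h
  rw [← ofReal_norm]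
  exact ENNReal.ofReal_le_ofReal h

theorem norm_le_UU
    (hs : ∀ x : X, Tendsto (fun N : ℕ => ∑ n ∈ Finset.range N, f n x • e n) atTop (𝓝 x))
    (x : X) : ‖x‖ₑ ≤ UU 𝕜 e (fun i => ‖f i x‖₊) :=
  le_of_tendsto' (hs x).enorm fun N => le_UU e _ (Finset.range N) (fun i => f i x) fun _ => le_rfl

theorem UU_demo (hb : ∀ i j : ℕ, f i (e j) = if i = j then 1 else 0)
    (hs : ∀ x : X, Tendsto (fun N : ℕ => ∑ n ∈ Finset.range N, f n x • e n) atTop (𝓝 x))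
    (hg : ∀ (x : X) (A B : Finset ℕ) (a : ℕ → 𝕜),
      (∀ i ∈ A, ∀ j ∉ A, ‖f j x‖ ≤ ‖f i x‖) → B.card ≤ A.card →
      ‖x - ∑ i ∈ A, f i x • e i‖ ≤ C * ‖x - ∑ i ∈ B, a i • e i‖) :
    ∃ Δ : ℝ≥0, ∀ A B : Finset ℕ, A.card ≤ B.card → UU 𝕜 e (ind A) ≤ Δ * UU 𝕜 e (ind B) := by
  classical
  have hC := one_le_C hb hg
  refine ⟨(4 * (C + 1) * (C + 1)).toNNReal, fun A B hAB => ?_⟩
  have h1 : ind A = fun i => ‖f i (∑ j ∈ A, e j)‖₊ := by
    funext i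
    have := f_sum hb A (fun _ => 1) i
    simp only [one_smul] at this
    rw [this, ind]
    split_ifs <;> simp
  have h2 : ∀ S ⊆ B, ‖∑ j ∈ S, e j‖ₑ ≤ UU 𝕜 e (ind B) := by
    intro S hS
    have := le_UU e (ind B) S (fun i => if i ∈ B then (1 : 𝕜) else 0) (by
      intro i
      unfold ind
      split_ifs <;> simp)
    rwa [Finset.sum_congr rfl (g := fun i => e i) (fun i hi => by simp [hS hi])] at this
  have h3 : ‖∑ j ∈ A \ B, e j‖ ≤ C * ‖∑ j ∈ B \ A, e j‖ :=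
    demo hb hg _ _ disjoint_sdiff_sdiff (Finset.card_sdiff_le_card_sdiff_iff.mpr hAB)
  have h4 : ‖∑ j ∈ A, e j‖ ≤ C * ‖∑ j ∈ B \ A, e j‖ + ‖∑ j ∈ A ∩ B, e j‖ := by
    rw [← Finset.sum_sdiff (Finset.inter_subset_left (s₁ := A) (s₂ := B)),
      Finset.sdiff_inter_self_left]
    exact (norm_add_le _ _).trans (by gcongr)
  by_cases htop : UU 𝕜 e (ind B) = ⊤
  · rw [htop, ENNReal.mul_top]
    · exact le_top
    · simp only [ne_eq, ENNReal.coe_eq_zero, Real.toNNReal_eq_zero, not_le]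
      positivity
  have h5 : ∀ S ⊆ B, ‖∑ j ∈ S, e j‖ ≤ (UU 𝕜 e (ind B)).toReal := fun S hS => by
    have := ENNReal.toReal_mono htop (h2 S hS)
    simpa using this
  have h6 := h5 (B \ A) Finset.sdiff_subset
  have h7 := h5 (A ∩ B) Finset.inter_subset_right
  rw [h1]
  refine (UU_le hb hs hg _).trans ?_
  rw [← ENNReal.ofReal_toReal htop]
  change _ ≤ ENNReal.ofReal (4 * (C + 1) * (C + 1)) * _
  rw [← ENNReal.ofReal_mul (by positivity)]
  apply ENNReal.ofReal_le_ofReal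
  have h8 : ‖∑ j ∈ A, e j‖ ≤ (C + 1) * (UU 𝕜 e (ind B)).toReal := by nlinarith
  calc 4 * ((C + 1) * ‖∑ j ∈ A, e j‖) ≤ 4 * ((C + 1) * ((C + 1) * (UU 𝕜 e (ind B)).toReal)) := by
        gcongr
    _ = _ := by ring

theorem main (hb : ∀ i j : ℕ, f i (e j) = if i = j then 1 else 0)
    (hs : ∀ x : X, Tendsto (fun N : ℕ => ∑ n ∈ Finset.range N, f n x • e n) atTop (𝓝 x))
    (hg : ∀ (x : X) (A B : Finset ℕ) (a : ℕ → 𝕜),
      (∀ i ∈ A, ∀ j ∉ A, ‖f j x‖ ≤ ‖f i x‖) → B.card ≤ A.card →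
      ‖x - ∑ i ∈ A, f i x • e i‖ ≤ C * ‖x - ∑ i ∈ B, a i • e i‖) (ε : ℝ) (hε : 0 < ε) :
    ∃ N : Seminorm 𝕜 X,
      (∃ c : ℝ, 0 < c ∧ ∃ D : ℝ, ∀ x : X, c * ‖x‖ ≤ N x ∧ N x ≤ D * ‖x‖) ∧
      ∀ (x : X) (A B : Finset ℕ) (a : ℕ → 𝕜),
        (∀ i ∈ A, ∀ j ∉ A, ‖f j x‖ ≤ ‖f i x‖) → B.card ≤ A.card →
        N (x - ∑ i ∈ A, f i x • e i) ≤ (1 + ε) * N (x - ∑ i ∈ B, a i • e i) := by
  classical
  have hC := one_le_C hb hg
  obtain ⟨Δ, hΔ⟩ := UU_demo hb hs hg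
  set η : ℝ≥0 := ⟨ε, hε.le⟩ with hη
  have hη0 : 0 < η := hε
  set δ : ℝ≥0 := η / (1 + η) with hδ
  have hδ0 : 0 < δ := by positivity
  set L : ℝ≥0 := 1 + Δ * δ⁻¹ / η with hL
  have hL1 : 1 ≤ L := le_add_right le_rfl
  have hU := isLat_UU (𝕜 := 𝕜) e
  have hN := hU.conv L
  have hle : ∀ x, conv L (UU 𝕜 e) (fun i => ‖f i x‖₊)
      ≤ L * ENNReal.ofReal (4 * ((C + 1) * ‖x‖)) := fun x =>
    (conv_le_mul hU L _).trans (by gcongr; exact UU_le hb hs hg x)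
  have hfin : ∀ x, conv L (UU 𝕜 e) (fun i => ‖f i x‖₊) ≠ ⊤ := fun x =>
    ne_top_of_le_ne_top (ENNReal.mul_ne_top ENNReal.coe_ne_top ENNReal.ofReal_ne_top) (hle x)
  refine ⟨Seminorm.ofSMulLE (fun x => (conv L (UU 𝕜 e) (fun i => ‖f i x‖₊)).toReal) ?_ ?_ ?_,
    ⟨1, one_pos, L * (4 * (C + 1)), fun x => ⟨?_, ?_⟩⟩, ?_⟩
  · have := hN.zero
    simp [this]
  · intro x y
    rw [← ENNReal.toReal_add (hfin x) (hfin y)]
    refine ENNReal.toReal_mono (ENNReal.add_ne_top.mpr ⟨hfin x, hfin y⟩) ?_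
    refine le_trans (hN.mono _ _ fun i => ?_) (hN.add _ _)
    rw [map_add]
    exact nnnorm_add_le _ _
  · intro r x
    have h1 : conv L (UU 𝕜 e) (fun i => ‖f i (r • x)‖₊)
        ≤ (‖r‖₊ : ℝ≥0) * conv L (UU 𝕜 e) (fun i => ‖f i x‖₊) := by
      refine le_trans (hN.mono _ _ fun i => ?_) (hN.smul _ _)
      rw [map_smul, smul_eq_mul, nnnorm_mul]
    have := ENNReal.toReal_mono (ENNReal.mul_ne_top ENNReal.coe_ne_top (hfin x)) h1
    simpa using this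
  · have := ENNReal.toReal_mono (hfin x) ((norm_le_UU hs x).trans (le_conv hU hL1 _))
    change 1 * ‖x‖ ≤ (conv L (UU 𝕜 e) (fun i => ‖f i x‖₊)).toReal
    simpa using this
  · have := ENNReal.toReal_mono (ENNReal.mul_ne_top ENNReal.coe_ne_top ENNReal.ofReal_ne_top)
      (hle x)
    change (conv L (UU 𝕜 e) (fun i => ‖f i x‖₊)).toReal ≤ _
    rw [ENNReal.toReal_mul, ENNReal.toReal_ofReal (by positivity), ENNReal.coe_toReal] at this
    refine this.trans (le_of_eq ?_)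
    ring
  · intro x A B a hA hBA
    change (conv L (UU 𝕜 e) (fun i => ‖f i (x - ∑ i ∈ A, f i x • e i)‖₊)).toReal
      ≤ (1 + ε) * (conv L (UU 𝕜 e) (fun i => ‖f i (x - ∑ i ∈ B, a i • e i)‖₊)).toReal
    have e1 : ∀ i, f i (x - ∑ i ∈ A, f i x • e i) = if i ∈ A then 0 else f i x := by
      intro i
      rw [map_sub, f_sum hb]
      split_ifs <;> simp
    have e2 : ∀ i, i ∉ B → f i (x - ∑ i ∈ B, a i • e i) = f i x := by
      intro i hi
      rw [map_sub, f_sum hb, if_neg hi, sub_zero]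
    have hη1 : 1 ≤ (1 + η) * (1 - δ) := by
      have hδ1 : δ ≤ 1 := by
        rw [hδ, div_le_one (by positivity)]
        exact le_add_left le_rfl
      rw [← NNReal.coe_le_coe, NNReal.coe_mul, NNReal.coe_sub hδ1, hδ]
      push_cast
      have : (0 : ℝ) < 1 + (η : ℝ) := by positivity
      field_simp
      linarith
    have hη2 : Δ * δ⁻¹ ≤ η * L := by
      rw [hL, mul_add, mul_div_cancel₀ _ hη0.ne']
      exact le_add_left le_rfl
    have key := swap_le hU Δ hΔ L δ η hδ0 hη1 hη2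
      (fun i => ‖f i (x - ∑ i ∈ B, a i • e i)‖₊) (fun i => ‖f i (x - ∑ i ∈ A, f i x • e i)‖₊)
      (B \ A) (A \ B) disjoint_sdiff_sdiff (Finset.card_sdiff_le_card_sdiff_iff.mpr hBA)
      ((B \ A).sup fun i => ‖f i x‖₊) ?_ ?_ ?_ ?_
    · have := ENNReal.toReal_mono (ENNReal.mul_ne_top ENNReal.coe_ne_top (hfin _)) key
      rw [ENNReal.toReal_mul, ENNReal.coe_toReal] at this
      exact this
    · intro n hn
      rw [e1, if_neg (Finset.mem_sdiff.mp hn).2]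
      exact Finset.le_sup (f := fun i => ‖f i x‖₊) hn
    · intro n hn
      rw [e2 n (Finset.mem_sdiff.mp hn).2]
      refine Finset.sup_le fun j hj => ?_
      exact_mod_cast hA n (Finset.mem_sdiff.mp hn).1 j (Finset.mem_sdiff.mp hj).2
    · intro n hn
      rw [e1, if_pos (Finset.mem_sdiff.mp hn).1]
      simp
    · intro n h1 h2
      rw [e1]
      split_ifs with h
      · simp
      · rw [e2 n (fun h' => h1 (Finset.mem_sdiff.mpr ⟨h', h⟩))]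

end basis

end Pool.Agent.H733Z.Greedy
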