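import Pool.Agent.H733Z.NilDefs

set_option autoImplicit false

open scoped ContDiff Topology
open Filter

namespace Pool.Agent.H733Z.Nil

variable {n : ℕ}

theorem fderiv_eq_sum (f : (Fin n → ℝ) → ℝ) (x w : Fin n → ℝ) :
    fderiv ℝ f x w = ∑ j, w j * pd f j x := by
  have : w = ∑ j, w j • (Pi.single j 1 : Fin n → ℝ) := by
    funext i
    simp [Finset.sum_apply, Pi.single_apply]
  conv_lhs => rw [this, map_sum]
  simp [pd]

/-- the contracted Christoffel symbol -/
noncomputable def Gam (g : (Fin n → ℝ) → Matrix (Fin n) (Fin n) ℝ) (x v : Fin n → ℝ) (k : Fin n) :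
    ℝ := ∑ i, ∑ j, christoffel g x k i j * v i * v j

/-- the lowered contracted Christoffel symbol -/
noncomputable def low (g : (Fin n → ℝ) → Matrix (Fin n) (Fin n) ℝ) (x v : Fin n → ℝ) (l : Fin n) :
    ℝ := ∑ i, ∑ j, (1 / 2) *
    (pd (fun y => g y j l) i x + pd (fun y => g y i l) j x - pd (fun y => g y i j) l x) * v i * v j

theorem sum3 (F : Fin n → Fin n → Fin n → ℝ) :
    ∑ i, ∑ j, ∑ k, F k i j = ∑ k, ∑ i, ∑ j, F k i j := by
  rw [Finset.sum_comm (f := fun k i => ∑ j, F k i j)]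
  exact Finset.sum_congr rfl fun i _ => Finset.sum_comm

theorem Gam_eq (g : (Fin n → ℝ) → Matrix (Fin n) (Fin n) ℝ) (x v : Fin n → ℝ) :
    Gam g x v = Matrix.mulVec (g x)⁻¹ (low g x v) := by
  funext k
  simp only [Gam, christoffel, low, Matrix.mulVec, dotProduct, Finset.mul_sum, Finset.sum_mul]
  refine Eq.trans ?_ (sum3 _)
  refine Finset.sum_congr rfl fun i _ => ?_
  refine Finset.sum_congr rfl fun j _ => Finset.sum_congr rfl fun l _ => ?_
  ring

theorem pair_Gam (g : (Fin n → ℝ) → Matrix (Fin n) (Fin n) ℝ) (x v N : Fin n → ℝ)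
    (h : (g x).PosDef) :
    ∑ k, (∑ l, N l * g x l k) * Gam g x v k = ∑ l, N l * low g x v l := by
  have hu : IsUnit (g x).det := isUnit_iff_ne_zero.mpr h.det_pos.ne'
  have : Matrix.mulVec (g x) (Gam g x v) = low g x v := by
    rw [Gam_eq, Matrix.mulVec_mulVec, Matrix.mul_nonsing_inv _ hu, Matrix.one_mulVec]
  rw [← this]
  simp only [Matrix.mulVec, dotProduct, Finset.mul_sum, Finset.sum_mul]
  rw [Finset.sum_comm]
  refine Finset.sum_congr rfl fun l _ => Finset.sum_congr rfl fun k _ => ?_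
  ring

theorem hess_eq (g : (Fin n → ℝ) → Matrix (Fin n) (Fin n) ℝ) (f : (Fin n → ℝ) → ℝ)
    (x v : Fin n → ℝ) :
    hess g f x v = (∑ i, ∑ j, pd (pd f j) i x * v i * v j) - ∑ k, pd f k x * Gam g x v k := by
  simp only [hess, Gam, sub_mul, Finset.sum_sub_distrib, Finset.mul_sum, Finset.sum_mul]
  congr 1
  refine Eq.trans ?_ (sum3 _)
  refine Finset.sum_congr rfl fun i _ => ?_
  refine Finset.sum_congr rfl fun j _ => Finset.sum_congr rfl fun l _ => ?_
  ring

/-- the parabola with prescribed position, velocity and acceleration -/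
noncomputable def par (x v a : Fin n → ℝ) (t : ℝ) : Fin n → ℝ := x + t • v + (t ^ 2 / 2) • a

theorem par_zero (x v a : Fin n → ℝ) : par x v a 0 = x := by simp [par]

theorem par_deriv (x v a : Fin n → ℝ) (t : ℝ) : HasDerivAt (par x v a) (v + t • a) t := by
  have h1 : HasDerivAt (fun t : ℝ => t • v) ((1 : ℝ) • v) t := (hasDerivAt_id t).smul_const v
  have h2 : HasDerivAt (fun t : ℝ => (t ^ 2 / 2) • a) (((2 : ℕ) * t ^ (2 - 1) / 2 : ℝ) • a) t :=
    ((hasDerivAt_pow 2 t).div_const 2).smul_const a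
  have := (h1.const_add x).fun_add h2
  refine HasDerivAt.congr_deriv this ?_
  simp

theorem second_deriv (f : (Fin n → ℝ) → ℝ) (x v a : Fin n → ℝ) (hf : ContDiffAt ℝ 2 f x) :
    ContinuousAt (fun t => f (par x v a t)) 0 ∧
    deriv (fun t => f (par x v a t)) 0 = ∑ j, v j * pd f j x ∧
    deriv (deriv (fun t => f (par x v a t))) 0
      = (∑ i, ∑ j, pd (pd f j) i x * v i * v j) + ∑ k, pd f k x * a k := by
  have hc : Tendsto (par x v a) (𝓝 0) (𝓝 x) := by
    have := (par_deriv x v a 0).continuousAt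
    rwa [ContinuousAt, par_zero] at this
  have hev : ∀ᶠ y in 𝓝 x, DifferentiableAt ℝ f y :=
    (hf.eventually (by simp)).mono fun y hy => hy.differentiableAt (by simp)
  have h1 : ∀ᶠ t in 𝓝 (0 : ℝ), HasDerivAt (fun t => f (par x v a t))
      (∑ j, (v j + t * a j) * pd f j (par x v a t)) t := by
    filter_upwards [hc.eventually hev] with t ht
    have := ht.hasFDerivAt.comp_hasDerivAt t (par_deriv x v a t)
    rw [fderiv_eq_sum] at this
    simpa [Function.comp_def] using this
  have h2 : deriv (fun t => f (par x v a t)) =ᶠ[𝓝 0]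
      fun t => ∑ j, (v j + t * a j) * pd f j (par x v a t) := h1.mono fun t ht => ht.deriv
  refine ⟨h1.self_of_nhds.continuousAt, ?_, ?_⟩
  · rw [h2.self_of_nhds]
    simp [par_zero]
  · rw [h2.deriv_eq]
    have hpd : ∀ j, DifferentiableAt ℝ (pd f j) x := by
      intro j
      have : ContDiffAt ℝ 1 (fderiv ℝ f) x := hf.fderiv_right (by norm_num)
      exact ((this.differentiableAt (by simp)).clm_apply (differentiableAt_const _))
    have h3 : ∀ j, HasDerivAt (fun t => (v j + t * a j) * pd f j (par x v a t))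
        (a j * pd f j x + v j * ∑ i, v i * pd (pd f j) i x) 0 := by
      intro j
      have e1 : HasDerivAt (fun t : ℝ => v j + t * a j) (1 * a j) 0 :=
        ((hasDerivAt_id (0 : ℝ)).mul_const (a j)).const_add (v j)
      have e2 : HasFDerivAt (pd f j) (fderiv ℝ (pd f j) x) (par x v a 0) := by
        rw [par_zero]
        exact (hpd j).hasFDerivAt
      have e3 := e2.comp_hasDerivAt 0 (par_deriv x v a 0)
      rw [fderiv_eq_sum] at e3
      have := e1.fun_mul e3
      refine HasDerivAt.congr_deriv this ?_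
      simp [par_zero]
    rw [(HasDerivAt.fun_sum fun j _ => h3 j).deriv, Finset.sum_add_distrib, add_comm]
    congr 1
    · simp only [Finset.mul_sum]
      rw [Finset.sum_comm]
      refine Finset.sum_congr rfl fun i _ => Finset.sum_congr rfl fun j _ => ?_
      ring
    · exact Finset.sum_congr rfl fun j _ => mul_comm _ _

theorem not_max {φ : ℝ → ℝ} (hc : ContinuousAt φ 0) (hm : IsLocalMax φ 0)
    (h2 : 0 < deriv (deriv φ) 0) : False := by
  have hmin := isLocalMin_of_deriv_deriv_pos h2 hm.deriv_eq_zero hc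
  have h1 : φ =ᶠ[𝓝 0] fun _ => φ 0 := by
    filter_upwards [hm, hmin] with t h h' using le_antisymm h h'
  have h3 : deriv φ =ᶠ[𝓝 0] fun _ => 0 := by
    have := h1.deriv
    simpa using this
  rw [h3.deriv_eq] at h2
  simp at h2

/-- a compact sublevel set whose boundary is nowhere convex rules out strictly convex functions -/
theorem no_convex (g : (Fin n → ℝ) → Matrix (Fin n) (Fin n) ℝ) (G : (Fin n → ℝ) → ℝ)
    (hG : ContDiff ℝ 2 G) (hK : IsCompact {x | G x ≤ 0}) (hne : ∃ x, G x ≤ 0) (v0 : Fin n → ℝ)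
    (hv0 : v0 ≠ 0)
    (hb : ∀ x, G x = 0 → ∃ v, v ≠ 0 ∧ ∑ j, v j * pd G j x = 0 ∧ hess g G x v < 0)
    (f : (Fin n → ℝ) → ℝ) (hf : ∀ x, G x ≤ 0 → ContDiffAt ℝ 2 f x)
    (hpos : ∀ x, G x ≤ 0 → ∀ v, v ≠ 0 → 0 < hess g f x v) : False := by
  obtain ⟨x, hx, hmax⟩ := hK.exists_isMaxOn hne
    (fun y hy => (hf y hy).continuousAt.continuousWithinAt)
  have key : ∃ v, v ≠ 0 ∧ ∀ᶠ t in 𝓝 (0 : ℝ), G (par x v (-Gam g x v) t) ≤ 0 := by
    rcases lt_or_eq_of_le (show G x ≤ 0 from hx) with h | h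
    · refine ⟨v0, hv0, ?_⟩
      have := (second_deriv G x v0 (-Gam g x v0) hG.contDiffAt).1
      have h' : G (par x v0 (-Gam g x v0) 0) < 0 := by rwa [par_zero]
      exact (this.eventually (gt_mem_nhds h')).mono fun t ht => le_of_lt ht
    · obtain ⟨v, h0, h1, h2⟩ := hb x h
      refine ⟨v, h0, ?_⟩
      obtain ⟨e1, e2, e3⟩ := second_deriv G x v (-Gam g x v) hG.contDiffAt
      have := isLocalMax_of_deriv_deriv_neg (f := fun t => G (par x v (-Gam g x v) t)) (x₀ := 0)
        (by
          rw [e3]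
          rw [hess_eq] at h2
          simpa [sub_eq_add_neg] using h2) (by rw [e2, h1]) e1
      filter_upwards [this] with t ht
      simpa [par_zero, h] using ht
  obtain ⟨v, h0, hv⟩ := key
  obtain ⟨e1, -, e3⟩ := second_deriv f x v (-Gam g x v) (hf x hx)
  refine not_max e1 ?_ ?_
  · filter_upwards [hv] with t ht
    simpa [par_zero] using hmax ht
  · rw [e3]
    have := hpos x hx v h0
    rw [hess_eq] at this
    simpa [sub_eq_add_neg] using this

end Pool.Agent.H733Z.Nil
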