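import Pool.Agent.H733Z.Nil1

set_option autoImplicit false

open scoped ContDiff Topology
open Filter

namespace Pool.Agent.H733Z.Nil

abbrev V3 := Fin 3 → ℝ

/-- the homogeneous gauge -/
def pp (x : V3) : ℝ := (x 0 ^ 2 + x 1 ^ 2) ^ 2 + x 2 ^ 2

/-- its differential -/
def dp (x w : V3) : ℝ := 4 * (x 0 ^ 2 + x 1 ^ 2) * (x 0 * w 0 + x 1 * w 1) + 2 * x 2 * w 2

/-- the contact form -/
def eta (x : V3) : V3 := ![-x 1, x 0, 1]

/-- the contact form on a vector -/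
def et (x w : V3) : ℝ := w 2 + x 0 * w 1 - x 1 * w 0

/-- the metric -/
def met (ψ : V3 → ℝ) (x : V3) : Matrix (Fin 3) (Fin 3) ℝ :=
  Matrix.of fun i j => (if i = j then 1 else 0) + ψ x * eta x i * eta x j

/-- derivatives of the contact form -/
def deta (k i : Fin 3) : ℝ := ![![0, 1, 0], ![-1, 0, 0], ![0, 0, 0]] k i

theorem eta_fderiv (x : V3) (i : Fin 3) : ∃ L : V3 →L[ℝ] ℝ, HasFDerivAt (fun y => eta y i) L x ∧
    ∀ k, L (Pi.single k 1) = deta k i := by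
  fin_cases i
  · refine ⟨-ContinuousLinearMap.proj 1, ?_, fun k => ?_⟩
    · exact (hasFDerivAt_apply 1 x).neg
    · fin_cases k <;> simp [deta]
  · refine ⟨ContinuousLinearMap.proj 0, ?_, fun k => ?_⟩
    · exact hasFDerivAt_apply 0 x
    · fin_cases k <;> simp [deta]
  · refine ⟨0, ?_, fun k => ?_⟩
    · exact hasFDerivAt_const (1 : ℝ) x
    · fin_cases k <;> simp [deta]

theorem pd_met (ψ : V3 → ℝ) (x : V3) (b : ℝ) (hψ : DifferentiableAt ℝ ψ x)
    (hb : ∀ w, fderiv ℝ ψ x w = b * dp x w) (i j k : Fin 3) :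
    pd (fun y => met ψ y i j) k x = b * dp x (Pi.single k 1) * eta x i * eta x j
      + ψ x * (deta k i * eta x j + eta x i * deta k j) := by
  obtain ⟨Li, hi, hi'⟩ := eta_fderiv x i
  obtain ⟨Lj, hj, hj'⟩ := eta_fderiv x j
  have := ((hψ.hasFDerivAt.fun_mul hi).fun_mul hj).const_add (if i = j then (1 : ℝ) else 0)
  unfold pd
  change fderiv ℝ (fun y => (if i = j then (1 : ℝ) else 0) + ψ y * eta y i * eta y j) x _ = _
  rw [this.fderiv]
  simp only [add_apply, smul_apply, hi', hj', hb,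
    smul_eq_mul]
  ring

theorem low_pair (ψ : V3 → ℝ) (x : V3) (b : ℝ) (hψ : DifferentiableAt ℝ ψ x)
    (hb : ∀ w, fderiv ℝ ψ x w = b * dp x w) (v N : V3) :
    ∑ l, N l * low (met ψ) x v l = b * dp x v * et x v * et x N
      + 2 * ψ x * et x v * (v 0 * N 1 - v 1 * N 0) - (1 / 2) * b * dp x N * et x v ^ 2 := by
  simp only [low, pd_met ψ x b hψ hb, Fin.sum_univ_three]
  simp [dp, et, eta, deta]
  ring

theorem met_quad (ψ : V3 → ℝ) (x v : V3) :
    ∑ i, ∑ j, met ψ x i j * v i * v j = v 0 ^ 2 + v 1 ^ 2 + v 2 ^ 2 + ψ x * et x v ^ 2 := by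
  simp [met, Fin.sum_univ_three, eta, et]
  ring

theorem met_row (ψ : V3 → ℝ) (x N : V3) (k : Fin 3) :
    ∑ l, N l * met ψ x l k = N k + ψ x * et x N * eta x k := by
  fin_cases k <;> simp [met, Fin.sum_univ_three, eta, et] <;> ring

theorem met_posDef (ψ : V3 → ℝ) (x : V3) (h : 0 ≤ ψ x) : (met ψ x).PosDef := by
  rw [Matrix.posDef_iff_dotProduct_mulVec]
  refine ⟨?_, fun v hv => ?_⟩
  · ext i j
    simp only [met, Matrix.conjTranspose_apply, Matrix.of_apply, star_trivial, eq_comm (a := j)]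
    ring
  · have h1 : star v ⬝ᵥ Matrix.mulVec (met ψ x) v = ∑ i, ∑ j, met ψ x i j * v i * v j := by
      simp only [dotProduct, Matrix.mulVec, Finset.mul_sum, star_trivial]
      refine Finset.sum_congr rfl fun i _ => Finset.sum_congr rfl fun j _ => ?_
      ring
    rw [h1, met_quad]
    have h2 : 0 < v 0 ^ 2 + v 1 ^ 2 + v 2 ^ 2 := by
      by_contra h3
      apply hv
      funext i
      fin_cases i <;> simp <;> nlinarith [sq_nonneg (v 0), sq_nonneg (v 1), sq_nonneg (v 2)]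
    positivity

theorem met_smooth (ψ : V3 → ℝ) (h : ContDiff ℝ ∞ ψ) (i j : Fin 3) :
    ContDiff ℝ ∞ (fun x => met ψ x i j) := by
  have he : ∀ i, ContDiff ℝ ∞ (fun x => eta x i) := by
    intro i
    fin_cases i
    · exact (contDiff_apply ℝ ℝ 1).neg
    · exact contDiff_apply ℝ ℝ 0
    · exact contDiff_const (c := (1 : ℝ))
  exact contDiff_const.add ((h.mul (he i)).mul (he j))

/-- the defining function of the solid torus -/
def GG (x : V3) : ℝ := (x 0 ^ 2 + x 1 ^ 2 - 2) ^ 2 + x 2 ^ 2 - 1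

theorem pd_coord (i k : Fin 3) (x : V3) : pd (fun y => y i) k x = if i = k then 1 else 0 := by
  unfold pd
  rw [(hasFDerivAt_apply i x).fderiv]
  simp [Pi.single_apply]

theorem GG_smooth : ContDiff ℝ 2 GG := by
  unfold GG
  fun_prop

theorem pd_GG (k : Fin 3) : pd GG k = fun x =>
    ![4 * (x 0 ^ 2 + x 1 ^ 2 - 2) * x 0, 4 * (x 0 ^ 2 + x 1 ^ 2 - 2) * x 1, 2 * x 2] k := by
  funext x
  have h0 := hasFDerivAt_apply (𝕜 := ℝ) (F' := fun _ => ℝ) (0 : Fin 3) x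
  have h1 := hasFDerivAt_apply (𝕜 := ℝ) (F' := fun _ => ℝ) (1 : Fin 3) x
  have h2 := hasFDerivAt_apply (𝕜 := ℝ) (F' := fun _ => ℝ) (2 : Fin 3) x
  have := ((((((h0.pow 2).fun_add (h1.pow 2)).sub_const 2).pow 2).fun_add
    (h2.pow 2)).sub_const 1).fderiv
  unfold pd GG
  rw [this]
  fin_cases k <;> simp <;> ring

theorem pd_pd_GG (x v : V3) : ∑ i, ∑ j, pd (pd GG j) i x * v i * v j
    = 8 * (x 0 * v 0 + x 1 * v 1) ^ 2 + 4 * (x 0 ^ 2 + x 1 ^ 2 - 2) * (v 0 ^ 2 + v 1 ^ 2)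
      + 2 * v 2 ^ 2 := by
  have h0 := hasFDerivAt_apply (𝕜 := ℝ) (F' := fun _ => ℝ) (0 : Fin 3) x
  have h1 := hasFDerivAt_apply (𝕜 := ℝ) (F' := fun _ => ℝ) (1 : Fin 3) x
  have h2 := hasFDerivAt_apply (𝕜 := ℝ) (F' := fun _ => ℝ) (2 : Fin 3) x
  have hw := (((h0.pow 2).fun_add (h1.pow 2)).sub_const 2).const_mul 4
  have e0 := (hw.fun_mul h0).fderiv
  have e1 := (hw.fun_mul h1).fderiv
  have e2 := (h2.const_mul 2).fderiv
  have f0 : pd GG 0 = fun x : V3 => 4 * (x 0 ^ 2 + x 1 ^ 2 - 2) * x 0 := by rw [pd_GG]; rfl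
  have f1 : pd GG 1 = fun x : V3 => 4 * (x 0 ^ 2 + x 1 ^ 2 - 2) * x 1 := by rw [pd_GG]; rfl
  have f2 : pd GG 2 = fun x : V3 => 2 * x 2 := by rw [pd_GG]; rfl
  simp only [Fin.sum_univ_three, f0, f1, f2]
  unfold pd
  rw [e0, e1, e2]
  simp
  ring

theorem alg_torus (u w z a b k D : ℝ) (hu : u = w + 2) (hwz : w ^ 2 + z ^ 2 = 1)
    (ha : 4000 ≤ a) (hb : b ≤ 0) (hb2 : -b * u ≤ a / 2) (hk : k = 1 / 40) (hD : D = 1 + a * (1 + u)) :
    8 * u ^ 2 + 4 * w * u * (z ^ 2 + (k - 2 * w) ^ 2)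
      - (b * (-8 * u * z) * (u * k) * (2 * z / D)
        + 2 * a * (u * k) * (u * (2 * a * z / D * z - 4 * w * (k - 2 * w)))
        - (1 / 2) * b * (16 * u ^ 2 * w + 2 * z * (2 * z - 2 * a * z / D)) * (u * k) ^ 2) < 0 := by
  have hw1 : w ≤ 1 := by nlinarith [sq_nonneg z]
  have hw2 : -1 ≤ w := by nlinarith [sq_nonneg z]
  have hu1 : 1 ≤ u := by linarith
  have hu3 : u ≤ 3 := by linarith
  have hD0 : 0 < D := by rw [hD]; positivity
  set r := a / D with hr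
  have hr1 : 1 / 5 ≤ r := by
    rw [hr, le_div_iff₀ hD0, hD]
    nlinarith
  have hr2 : r ≤ 1 := by
    rw [hr, div_le_one hD0, hD]
    nlinarith
  have e1 : 2 * a * z / D = 2 * r * z := by rw [hr]; ring
  rw [e1]
  have t1 : 0 ≤ b * (-8 * u * z) * (u * k) * (2 * z / D) := by
    have : b * (-8 * u * z) * (u * k) * (2 * z / D) = (-b) * (16 * u ^ 2 * k * z ^ 2 / D) := by ring
    rw [this]
    have : 0 ≤ -b := by linarith
    rw [hk]
    positivity
  have t2 : (1 / 2) * b * (16 * u ^ 2 * w + 2 * z * (2 * z - 2 * r * z)) * (u * k) ^ 2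
      ≤ 12 * a * k ^ 2 * u ^ 2 := by
    have h1 : -16 * u ^ 2 ≤ 16 * u ^ 2 * w + 2 * z * (2 * z - 2 * r * z) := by
      have : 0 ≤ z ^ 2 * (1 - r) := mul_nonneg (sq_nonneg z) (by linarith)
      have : 0 ≤ u ^ 2 * (w + 1) := mul_nonneg (sq_nonneg u) (by linarith)
      nlinarith
    have h2 : b * (16 * u ^ 2 * w + 2 * z * (2 * z - 2 * r * z)) ≤ b * (-16 * u ^ 2) :=
      mul_le_mul_of_nonpos_left h1 hb
    have h3 : b * (-16 * u ^ 2) ≤ 24 * a := by
      have : (-b * u) * u ≤ (a / 2) * 3 := by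
        apply mul_le_mul hb2 hu3 (by linarith) (by linarith)
      nlinarith
    have h4 : 0 ≤ (u * k) ^ 2 := sq_nonneg _
    nlinarith
  have t3 : 8 * u ^ 2 + 4 * w * u * (z ^ 2 + (k - 2 * w) ^ 2) ≤ 29 * u ^ 2 := by
    have h1 : z ^ 2 + (k - 2 * w) ^ 2 ≤ 5.2 := by rw [hk]; nlinarith [sq_nonneg w]
    have h2 : 0 ≤ z ^ 2 + (k - 2 * w) ^ 2 := by positivity
    have h3 : w * u * (z ^ 2 + (k - 2 * w) ^ 2) ≤ 1 * u * 5.2 := by
      have : w * u * (z ^ 2 + (k - 2 * w) ^ 2) ≤ 1 * u * (z ^ 2 + (k - 2 * w) ^ 2) := by gcongr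
      nlinarith
    nlinarith
  have t4 : a * k * u ^ 2 * (4 / 5 - 8 * k)
      ≤ 2 * a * (u * k) * (u * (2 * r * z * z - 4 * w * (k - 2 * w))) := by
    have h1 : 2 / 5 - 4 * k ≤ 2 * r * z * z - 4 * w * (k - 2 * w) := by
      have : 0 ≤ z ^ 2 * (r - 1 / 5) := mul_nonneg (sq_nonneg z) (by linarith)
      rw [hk]
      nlinarith [sq_nonneg w]
    have h2 : 0 ≤ 2 * a * k * u ^ 2 := by rw [hk]; positivity
    have := mul_le_mul_of_nonneg_left h1 h2
    nlinarith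
  have t5 : 0 < u ^ 2 := by positivity
  have t6 : 4000 * u ^ 2 ≤ a * u ^ 2 := by gcongr
  rw [hk] at t2 t4
  rw [hk] at t1 t3 ⊢
  nlinarith

theorem torus (ψ : V3 → ℝ) (x : V3) (b : ℝ) (hψ : DifferentiableAt ℝ ψ x)
    (hb : ∀ w, fderiv ℝ ψ x w = b * dp x w) (hx : GG x = 0) (ha : 4000 ≤ ψ x) (hb0 : b ≤ 0)
    (hb2 : -b * (x 0 ^ 2 + x 1 ^ 2) ≤ ψ x / 2) :
    ∃ v, v ≠ 0 ∧ ∑ j, v j * pd GG j x = 0 ∧ hess (met ψ) GG x v < 0 := by
  set u := x 0 ^ 2 + x 1 ^ 2 with hu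
  set w := u - 2 with hw
  have hwz : w ^ 2 + x 2 ^ 2 = 1 := by
    unfold GG at hx
    linarith
  have hu1 : 1 ≤ u := by nlinarith [sq_nonneg (x 2)]
  set k : ℝ := 1 / 40 with hk
  set D := 1 + ψ x * (1 + u) with hD
  have hD0 : 0 < D := by rw [hD]; positivity
  set v : V3 := ![-x 2 * x 0 - (k - 2 * w) * x 1, -x 2 * x 1 + (k - 2 * w) * x 0, 2 * u * w]
    with hv
  have het : et x v = u * k := by
    simp only [et, hv, hw, hu]
    simp
    ring
  refine ⟨v, ?_, ?_, ?_⟩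
  · intro h0
    rw [h0] at het
    simp only [et, Pi.zero_apply, mul_zero, add_zero, sub_zero] at het
    have : 0 < u * k := by rw [hk]; positivity
    linarith
  · simp only [pd_GG, Fin.sum_univ_three, hv, hw, hu]
    simp
    ring
  · set lam := 2 * ψ x * x 2 / D with hlam
    set N : V3 := ![4 * w * x 0 + lam * x 1, 4 * w * x 1 - lam * x 0, 2 * x 2 - lam] with hN
    have hetN : et x N = 2 * x 2 / D := by
      have : et x N = 2 * x 2 - lam * (1 + u) := by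
        simp only [et, hN, hu]
        simp
        ring
      rw [this, hlam]
      field_simp
      rw [hD]
      ring
    have hrow : ∀ j, pd GG j x = ∑ l, N l * met ψ x l j := by
      intro j
      rw [met_row, hetN, pd_GG]
      have : ψ x * (2 * x 2 / D) = lam := by rw [hlam]; ring
      rw [this]
      fin_cases j <;> simp [hN, eta, hw, hu]
    rw [hess_eq, pd_pd_GG]
    simp only [hrow]
    rw [pair_Gam _ _ _ _ (met_posDef ψ x (by linarith)), low_pair ψ x b hψ hb, het, hetN]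
    have := alg_torus u w (x 2) (ψ x) b k D (by rw [hw]; ring) hwz ha hb0 hb2 hk hD
    have e1 : dp x v = -8 * u * x 2 := by
      have : dp x v = -4 * u * x 2 * (u - w) := by
        simp only [dp, hv, ← hu]
        simp
        rw [hu]
        ring
      rw [this, hw]
      ring
    have e2 : dp x N = 16 * u ^ 2 * w + 2 * x 2 * (2 * x 2 - lam) := by
      simp only [dp, hN, ← hu]
      simp
      rw [hu]
      ring
    have e3 : v 0 * N 1 - v 1 * N 0 = u * (lam * x 2 - 4 * w * (k - 2 * w)) := by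
      simp only [hN, hv]
      simp
      rw [hu]
      ring
    have e4 : 8 * (x 0 * v 0 + x 1 * v 1) ^ 2 + 4 * (x 0 ^ 2 + x 1 ^ 2 - 2) * (v 0 ^ 2 + v 1 ^ 2)
        + 2 * v 2 ^ 2 = 8 * u ^ 2 * (w ^ 2 + x 2 ^ 2)
          + 4 * w * u * (x 2 ^ 2 + (k - 2 * w) ^ 2) := by
      simp only [hv, ← hu, ← hw]
      simp
      rw [hu]
      ring
    rw [e1, e2, e3, e4, hwz, mul_one]
    exact this

end Pool.Agent.H733Z.Nil
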