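import Pool.Agent.H733Z.Nil2

set_option autoImplicit false

open scoped ContDiff Topology
open Filter Real

namespace Pool.Agent.H733Z.Nil

theorem pp_nonneg (x : V3) : 0 ≤ pp x := by unfold pp; positivity

theorem pp_smooth : ContDiff ℝ ∞ pp := by
  unfold pp
  fun_prop

theorem pp_fderiv (x w : V3) : fderiv ℝ pp x w = dp x w := by
  have h0 := hasFDerivAt_apply (𝕜 := ℝ) (F' := fun _ => ℝ) (0 : Fin 3) x
  have h1 := hasFDerivAt_apply (𝕜 := ℝ) (F' := fun _ => ℝ) (1 : Fin 3) x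
  have h2 := hasFDerivAt_apply (𝕜 := ℝ) (F' := fun _ => ℝ) (2 : Fin 3) x
  have := ((((h0.pow 2).fun_add (h1.pow 2)).pow 2).fun_add (h2.pow 2)).fderiv
  unfold pp dp
  rw [this]
  simp
  ring

theorem deriv_S_neg {y : ℝ} (h : y < 0) : deriv smoothTransition y = 0 := by
  have : smoothTransition =ᶠ[𝓝 y] fun _ => 0 :=
    (gt_mem_nhds h).mono fun _ hz => smoothTransition.zero_of_nonpos hz.le
  rw [this.deriv_eq]
  simp

theorem deriv_S_big {y : ℝ} (h : 1 < y) : deriv smoothTransition y = 0 := by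
  have : smoothTransition =ᶠ[𝓝 y] fun _ => 1 :=
    (lt_mem_nhds h).mono fun _ hz => smoothTransition.one_of_one_le hz.le
  rw [this.deriv_eq]
  simp

theorem deriv_S_bdd : ∃ C : ℝ, 0 ≤ C ∧ ∀ y, deriv smoothTransition y ≤ C := by
  have hc : Continuous (deriv smoothTransition) :=
    (smoothTransition.contDiff (n := 1)).continuous_deriv le_rfl
  obtain ⟨C, hC⟩ := (isCompact_Icc (a := (0 : ℝ)) (b := 1)).exists_bound_of_continuousOn
    hc.continuousOn
  have h0 : 0 ≤ C := (norm_nonneg _).trans (hC 0 (by simp))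
  refine ⟨C, h0, fun y => ?_⟩
  rcases lt_or_ge y 0 with h | h
  · rwa [deriv_S_neg h]
  rcases lt_or_ge 1 y with h' | h'
  · rwa [deriv_S_big h']
  exact (le_abs_self _).trans (hC y ⟨h, h'⟩)

theorem exists_psi : ∃ (ψ b : V3 → ℝ) (t : ℝ), 4 ≤ t ∧ ContDiff ℝ ∞ ψ ∧
    (∀ x w, fderiv ℝ ψ x w = b x * dp x w) ∧ (∀ x, 0 ≤ ψ x) ∧ (∀ x, ψ x ≤ 40000) ∧
    (∀ x, -(1 / 4) ≤ (ψ x + pp x * b x) * (1 + (x 0 ^ 2 + x 1 ^ 2))) ∧
    (∀ x, pp x ≤ 9 → ψ x = 40000 / (1 + pp x) ∧ b x = -40000 / (1 + pp x) ^ 2) ∧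
    (∀ x, 2 * t ^ 2 < pp x → ψ x = 0 ∧ b x = 0) := by
  obtain ⟨C, hC0, hC⟩ := deriv_S_bdd
  set t : ℝ := 4 + 12 * 40000 * C with ht
  have ht4 : 4 ≤ t := by rw [ht]; nlinarith
  have hT : 0 < t ^ 2 := by positivity
  have hT16 : 16 ≤ t ^ 2 := by nlinarith
  have hp1 : ∀ x, 0 < 1 + pp x := fun x => by have := pp_nonneg x; linarith
  refine ⟨fun x => 40000 / (1 + pp x) * smoothTransition (2 - pp x / t ^ 2),
    fun x => -40000 / (1 + pp x) ^ 2 * smoothTransition (2 - pp x / t ^ 2)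
      - 40000 / (1 + pp x) * deriv smoothTransition (2 - pp x / t ^ 2) / t ^ 2, t, ht4,
    ?_, ?_, ?_, ?_, ?_, ?_, ?_⟩
  · refine ContDiff.mul (contDiff_const.div (contDiff_const.add pp_smooth) fun x => (hp1 x).ne') ?_
    exact smoothTransition.contDiff.comp (contDiff_const.sub (pp_smooth.div_const _))
  · intro x w
    have h1 : HasDerivAt (fun p : ℝ => 40000 / (1 + p)) (-40000 / (1 + pp x) ^ 2) (pp x) := by
      have := (hasDerivAt_const (pp x) (40000 : ℝ)).fun_div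
        ((hasDerivAt_id' (pp x)).const_add 1) (hp1 x).ne'
      refine this.congr_deriv ?_
      ring
    have h2 : HasDerivAt (fun p : ℝ => smoothTransition (2 - p / t ^ 2))
        (deriv smoothTransition (2 - pp x / t ^ 2) * (-(1 / t ^ 2))) (pp x) := by
      have e1 : HasDerivAt (fun p : ℝ => 2 - p / t ^ 2) (-(1 / t ^ 2)) (pp x) :=
        ((hasDerivAt_id' (pp x)).div_const (t ^ 2)).const_sub 2
      have e2 : HasDerivAt smoothTransition (deriv smoothTransition (2 - pp x / t ^ 2))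
          (2 - pp x / t ^ 2) :=
        ((smoothTransition.contDiff (n := 1)).differentiable (by simp) _).hasDerivAt
      exact e2.comp (pp x) e1
    have h3 := (h1.fun_mul h2).comp_hasFDerivAt x
      ((pp_smooth.differentiable (by simp)) x).hasFDerivAt
    have h4 := h3.fderiv
    change fderiv ℝ ((fun p : ℝ => 40000 / (1 + p) * smoothTransition (2 - p / t ^ 2)) ∘ pp) x w = _
    rw [h4, smul_apply, pp_fderiv, smul_eq_mul]
    ring
  · intro x
    have := hp1 x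
    have := smoothTransition.nonneg (2 - pp x / t ^ 2)
    positivity
  · intro x
    have h1 : 40000 / (1 + pp x) ≤ 40000 :=
      div_le_self (by norm_num) (by have := pp_nonneg x; linarith)
    have h2 := smoothTransition.le_one (2 - pp x / t ^ 2)
    have h3 := smoothTransition.nonneg (2 - pp x / t ^ 2)
    calc 40000 / (1 + pp x) * smoothTransition (2 - pp x / t ^ 2) ≤ 40000 * 1 := by gcongr
      _ = _ := by ring
  · intro x
    have h0 := hp1 x
    have hp := pp_nonneg x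
    have h3 := smoothTransition.nonneg (2 - pp x / t ^ 2)
    set S := smoothTransition (2 - pp x / t ^ 2)
    set S' := deriv smoothTransition (2 - pp x / t ^ 2) with hS'
    set u := x 0 ^ 2 + x 1 ^ 2 with hu
    have hu0 : 0 ≤ u := by positivity
    have e1 : 40000 / (1 + pp x) * S + pp x * (-40000 / (1 + pp x) ^ 2 * S
        - 40000 / (1 + pp x) * S' / t ^ 2)
        = 40000 * S / (1 + pp x) ^ 2 - (pp x / (1 + pp x)) * S' * (40000 / t ^ 2) := by
      field_simp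
      ring
    rw [e1]
    have e2 : 0 ≤ 40000 * S / (1 + pp x) ^ 2 := by positivity
    rcases lt_or_ge (2 * t ^ 2) (pp x) with h | h
    · have : S' = 0 := deriv_S_neg (by rw [sub_neg, lt_div_iff₀ hT]; exact h)
      rw [this]
      have : 0 ≤ (40000 * S / (1 + pp x) ^ 2 - pp x / (1 + pp x) * 0 * (40000 / t ^ 2)) * (1 + u) := by
        rw [mul_zero, zero_mul, sub_zero]
        positivity
      linarith
    · have e3 : (pp x / (1 + pp x)) * S' ≤ C := by
        have h5 : pp x / (1 + pp x) ≤ 1 := by rw [div_le_one h0]; linarith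
        have h6 : 0 ≤ pp x / (1 + pp x) := by positivity
        calc (pp x / (1 + pp x)) * S' ≤ (pp x / (1 + pp x)) * C := by gcongr; exact hC _
          _ ≤ 1 * C := by gcongr
          _ = C := one_mul C
      have e4 : u ≤ 2 * t := by
        have : u ^ 2 ≤ pp x := by unfold pp; nlinarith [sq_nonneg (x 2)]
        nlinarith
      have e5 : C * (40000 / t ^ 2) * (1 + u) ≤ 1 / 4 := by
        rw [mul_div_assoc', div_mul_eq_mul_div, div_le_iff₀ hT]
        have : C * 40000 * (1 + u) ≤ C * 40000 * (3 * t) := by gcongr; linarith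
        have : 12 * 40000 * C * t ≤ t * t := by gcongr; linarith
        nlinarith
      have e6 : (pp x / (1 + pp x)) * S' * (40000 / t ^ 2) * (1 + u)
          ≤ C * (40000 / t ^ 2) * (1 + u) := by gcongr
      have e7 : 0 ≤ 40000 * S / (1 + pp x) ^ 2 * (1 + u) := by positivity
      nlinarith
  · intro x hx
    have h1 : 1 < 2 - pp x / t ^ 2 := by
      have : pp x / t ^ 2 < 1 := by rw [div_lt_one hT]; linarith
      linarith
    simp only [deriv_S_big h1, smoothTransition.one_of_one_le h1.le]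
    simp
  · intro x hx
    have h1 : 2 - pp x / t ^ 2 < 0 := by rw [sub_neg, lt_div_iff₀ hT]; exact hx
    simp only [deriv_S_neg h1, smoothTransition.zero_of_nonpos h1.le]
    simp

theorem et_sq_le (x v : V3) :
    et x v ^ 2 ≤ (1 + (x 0 ^ 2 + x 1 ^ 2)) * (v 0 ^ 2 + v 1 ^ 2 + v 2 ^ 2) := by
  unfold et
  nlinarith [sq_nonneg (v 1 - x 0 * v 2), sq_nonneg (v 0 + x 1 * v 2),
    sq_nonneg (x 0 * v 0 + x 1 * v 1)]

theorem bounded_exit (ψ b : V3 → ℝ) (hψ : ContDiff ℝ ∞ ψ)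
    (hb : ∀ x w, fderiv ℝ ψ x w = b x * dp x w) (h0 : ∀ x, 0 ≤ ψ x) (A : ℝ) (hA : ∀ x, ψ x ≤ A)
    (hq : ∀ x, -(1 / 4) ≤ (ψ x + pp x * b x) * (1 + (x 0 ^ 2 + x 1 ^ 2))) (R : ℝ) :
    BoundedExit (met ψ) R := by
  have hA0 : 0 ≤ A := (h0 0).trans (hA 0)
  set κ : ℝ := 1 / (2 * (1 + A * (1 + R ^ 2))) with hκ
  have hκ0 : 0 < κ := by positivity
  set B : ℝ := 2 * (R ^ 2 + 1) + A * (R ^ 2 + (1 + R ^ 2)) with hB
  have hB0 : 0 ≤ B := by positivity
  refine ⟨2 * B / κ, fun γ s₀ s₁ ⟨γ', γ'', hγ⟩ hin => ?_⟩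
  rcases lt_or_ge s₁ s₀ with hs | hs
  · have : 0 ≤ 2 * B / κ := by positivity
    linarith
  set E : ℝ → ℝ := fun t => γ t 0 * γ' t 0 + γ t 1 * γ' t 1 + 2 * (γ t 2 * γ' t 2)
    + ψ (γ t) * (2 * γ t 2) * (γ' t 2 + γ t 0 * γ' t 1 - γ t 1 * γ' t 0) with hE
  have hspeed : ∀ t ∈ Set.Icc s₀ s₁, γ' t 0 ^ 2 + γ' t 1 ^ 2 + γ' t 2 ^ 2
      + ψ (γ t) * et (γ t) (γ' t) ^ 2 = 1 := fun t ht => by
    rw [← met_quad]
    exact (hγ t ht).2.2.2
  have hball : ∀ t ∈ Set.Icc s₀ s₁, γ t 0 ^ 2 + γ t 1 ^ 2 + γ t 2 ^ 2 ≤ R ^ 2 := fun t ht => by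
    have := hin t ht
    simpa [cball, Fin.sum_univ_three] using this
  have hder : ∀ t ∈ Set.Icc s₀ s₁, ∃ d, κ ≤ d ∧ HasDerivWithinAt E d (Set.Icc s₀ s₁) t := by
    intro t ht
    obtain ⟨e1, e2, e3, -⟩ := hγ t ht
    have c := fun i => hasDerivWithinAt_pi.mp e1 i
    have c' := fun i => hasDerivWithinAt_pi.mp e2 i
    have hd := (hψ.differentiable (by simp) (γ t))
    have cψ : HasDerivWithinAt (fun t => ψ (γ t)) (b (γ t) * dp (γ t) (γ' t)) (Set.Icc s₀ s₁) t := by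
      have := hd.hasFDerivAt.comp_hasDerivWithinAt t e1
      rwa [hb] at this
    have hd2 := ((((c 0).fun_mul (c' 0)).fun_add ((c 1).fun_mul (c' 1))).fun_add
      (((c 2).fun_mul (c' 2)).const_mul 2)).fun_add
      ((cψ.fun_mul ((c 2).const_mul 2)).fun_mul
        (((c' 2).fun_add ((c 0).fun_mul (c' 1))).fun_sub ((c 1).fun_mul (c' 0))))
    refine ⟨_, ?_, hd2⟩
    have hacc : ∀ k, Gam (met ψ) (γ t) (γ' t) k = -γ'' t k := fun k => by
      have := e3 k
      unfold Gam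
      linarith
    have hp := pair_Gam (met ψ) (γ t) (γ' t) ![γ t 0, γ t 1, 2 * γ t 2]
      (met_posDef ψ (γ t) (h0 _))
    rw [low_pair ψ (γ t) (b (γ t)) hd (hb _)] at hp
    simp only [met_row, hacc] at hp
    have hsp := hspeed t ht
    have hq' := hq (γ t)
    have hcs := et_sq_le (γ t) (γ' t)
    have hbl := hball t ht
    set x := γ t
    set v := γ' t
    set a := γ'' t
    have hval : v 0 * v 0 + x 0 * a 0 + (v 1 * v 1 + x 1 * a 1) + 2 * (v 2 * v 2 + x 2 * a 2)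
        + ((b x * dp x v * (2 * x 2) + ψ x * (2 * v 2)) * (v 2 + x 0 * v 1 - x 1 * v 0)
          + ψ x * (2 * x 2) * (a 2 + (v 0 * v 1 + x 0 * a 1) - (v 1 * v 0 + x 1 * a 0)))
        = v 0 ^ 2 + v 1 ^ 2 + 2 * v 2 ^ 2 + 2 * (ψ x + pp x * b x) * et x v ^ 2 := by
      simp [Fin.sum_univ_three, eta, et, dp] at hp
      simp only [et, dp, pp]
      linear_combination (-1 : ℝ) * hp
    rw [hval]
    set u := x 0 ^ 2 + x 1 ^ 2 with hu
    set n2 := v 0 ^ 2 + v 1 ^ 2 + v 2 ^ 2 with hn2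
    have hu0 : 0 ≤ u := by positivity
    have hn0 : 0 ≤ n2 := by positivity
    have f1 : -(1 / 4) * n2 ≤ (ψ x + pp x * b x) * et x v ^ 2 := by
      rcases le_total 0 (ψ x + pp x * b x) with h | h
      · have : 0 ≤ (ψ x + pp x * b x) * et x v ^ 2 := by positivity
        nlinarith
      · have := mul_le_mul_of_nonpos_left hcs h
        have h2 := mul_le_mul_of_nonneg_right hq' hn0
        nlinarith
    have f2 : 1 ≤ (1 + A * (1 + R ^ 2)) * n2 := by
      have : ψ x * et x v ^ 2 ≤ A * ((1 + R ^ 2) * n2) := by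
        have h1 : (1 + u) * n2 ≤ (1 + R ^ 2) * n2 := by
          gcongr
          nlinarith [sq_nonneg (x 2)]
        exact mul_le_mul (hA x) (hcs.trans h1) (sq_nonneg _) hA0
      nlinarith
    have f3 : κ ≤ n2 / 2 := by
      rw [hκ, div_le_div_iff₀ (by positivity) (by norm_num)]
      nlinarith
    nlinarith [sq_nonneg (v 2)]
  choose! d hd1 hd2 using hder
  have hmono := (convex_Icc s₀ s₁).mul_sub_le_image_sub_of_le_deriv (f := E)
    (fun t ht => (hd2 t ht).continuousWithinAt)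
    (fun t ht => ((hd2 t (interior_subset ht)).hasDerivAt
      (mem_interior_iff_mem_nhds.mp ht)).differentiableAt.differentiableWithinAt)
    (C := κ) (fun t ht => by
      rw [((hd2 t (interior_subset ht)).hasDerivAt (mem_interior_iff_mem_nhds.mp ht)).deriv]
      exact hd1 t (interior_subset ht))
    s₀ (Set.left_mem_Icc.mpr hs) s₁ (Set.right_mem_Icc.mpr hs) hs
  have hbd : ∀ t ∈ Set.Icc s₀ s₁, |E t| ≤ B := by
    intro t ht
    have hsp := hspeed t ht
    have hcs := et_sq_le (γ t) (γ' t)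
    have hbl := hball t ht
    have hψ0 := h0 (γ t)
    have hψA := hA (γ t)
    simp only [hE]
    change |γ t 0 * γ' t 0 + γ t 1 * γ' t 1 + 2 * (γ t 2 * γ' t 2)
      + ψ (γ t) * (2 * γ t 2) * et (γ t) (γ' t)| ≤ B
    set x := γ t
    set v := γ' t
    have hn1 : v 0 ^ 2 + v 1 ^ 2 + v 2 ^ 2 ≤ 1 := by
      have : 0 ≤ ψ x * et x v ^ 2 := by positivity
      linarith
    have g1 : et x v ^ 2 ≤ 1 + R ^ 2 := by
      have : (1 + (x 0 ^ 2 + x 1 ^ 2)) * (v 0 ^ 2 + v 1 ^ 2 + v 2 ^ 2) ≤ (1 + R ^ 2) * 1 := by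
        gcongr
        nlinarith [sq_nonneg (x 2)]
      linarith
    have g2 : |2 * x 2 * et x v| ≤ R ^ 2 + (1 + R ^ 2) := by
      rw [abs_le]
      constructor <;>
        nlinarith [sq_nonneg (x 2 - et x v), sq_nonneg (x 2 + et x v), sq_nonneg (x 0), sq_nonneg (x 1)]
    have g3 : |x 0 * v 0 + x 1 * v 1 + 2 * (x 2 * v 2)| ≤ 2 * (R ^ 2 + 1) := by
      rw [abs_le]
      constructor <;>
        nlinarith [sq_nonneg (x 0 - v 0), sq_nonneg (x 0 + v 0), sq_nonneg (x 1 - v 1),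
          sq_nonneg (x 1 + v 1), sq_nonneg (x 2 - v 2), sq_nonneg (x 2 + v 2), sq_nonneg (x 0),
          sq_nonneg (x 1), sq_nonneg (x 2), sq_nonneg (v 0), sq_nonneg (v 1), sq_nonneg (v 2),
          sq_nonneg R]
    refine (abs_add_le _ _).trans (add_le_add g3 ?_)
    rw [mul_assoc, abs_mul, abs_of_nonneg hψ0]
    exact mul_le_mul hψA g2 (abs_nonneg _) hA0
  have k0 := abs_le.mp (hbd s₀ (Set.left_mem_Icc.mpr hs))
  have k1 := abs_le.mp (hbd s₁ (Set.right_mem_Icc.mpr hs))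
  rw [le_div_iff₀ hκ0]
  nlinarith

theorem pd_sq (k : Fin 3) : pd (fun y : V3 => ∑ i, y i ^ 2) k = fun x => 2 * x k := by
  funext x
  have h := HasFDerivAt.fun_sum (u := Finset.univ) fun (i : Fin 3) _ =>
    (hasFDerivAt_apply (𝕜 := ℝ) (F' := fun _ => ℝ) i x).pow 2
  unfold pd
  rw [h.fderiv]
  fin_cases k <;> simp [Fin.sum_univ_three]

theorem convex_bd (ψ b : V3 → ℝ) (hψ : ContDiff ℝ ∞ ψ)
    (hb : ∀ x w, fderiv ℝ ψ x w = b x * dp x w) (R : ℝ)
    (hz : ∀ x : V3, ∑ i, x i ^ 2 = R ^ 2 → ψ x = 0 ∧ b x = 0) : ConvexBoundary (met ψ) R := by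
  intro x v hx hv _
  obtain ⟨h1, h2⟩ := hz x hx
  have hrow : ∀ j, 2 * x j = ∑ l, (fun i => 2 * x i) l * met ψ x l j := by
    intro j
    rw [met_row, h1]
    simp
  have hpp : ∀ i j : Fin 3, pd (fun x : V3 => 2 * x j) i x = if j = i then 2 else 0 := by
    intro i j
    unfold pd
    rw [((hasFDerivAt_apply (𝕜 := ℝ) (F' := fun _ => ℝ) j x).const_mul 2).fderiv]
    simp [Pi.single_apply]
  rw [hess_eq]
  simp only [pd_sq, hpp]
  have : ∑ k, 2 * x k * Gam (met ψ) x v k = 0 := by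
    rw [Finset.sum_congr rfl fun k _ => by rw [hrow k], pair_Gam _ _ _ _ (met_posDef ψ x h1.ge),
      low_pair ψ x (b x) (hψ.differentiable (by simp) x) (hb x), h1, h2]
    simp
  rw [this]
  have h2 : 0 < v 0 ^ 2 + v 1 ^ 2 + v 2 ^ 2 := by
    by_contra h3
    apply hv
    funext i
    fin_cases i <;> simp <;> nlinarith [sq_nonneg (v 0), sq_nonneg (v 1), sq_nonneg (v 2)]
  simp [Fin.sum_univ_three]
  nlinarith

theorem K_bound (x : V3) (h : GG x ≤ 0) : x 0 ^ 2 + x 1 ^ 2 ≤ 3 ∧ x 2 ^ 2 ≤ 1 ∧ pp x ≤ 9 := by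
  unfold GG at h
  have h1 : x 0 ^ 2 + x 1 ^ 2 ≤ 3 := by nlinarith [sq_nonneg (x 2)]
  refine ⟨h1, by nlinarith [sq_nonneg (x 0 ^ 2 + x 1 ^ 2 - 2)], ?_⟩
  unfold pp
  nlinarith

theorem K_compact : IsCompact {x : V3 | GG x ≤ 0} := by
  refine (isCompact_closedBall (0 : V3) 2).of_isClosed_subset
    (isClosed_le GG_smooth.continuous continuous_const) fun x hx => ?_
  obtain ⟨h1, h2, -⟩ := K_bound x hx
  rw [mem_closedBall_zero_iff, pi_norm_le_iff_of_nonneg (by norm_num)]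
  intro i
  rw [Real.norm_eq_abs, abs_le]
  fin_cases i <;> simp <;> constructor <;> nlinarith [sq_nonneg (x 0), sq_nonneg (x 1)]

theorem main : ∃ (R : ℝ) (g : V3 → Matrix (Fin 3) (Fin 3) ℝ), 0 < R ∧ IsMetric g ∧
    (∃ r < R, ∀ x : V3, r ^ 2 < ∑ i, x i ^ 2 → g x = 1) ∧
    ConvexBoundary g R ∧ BoundedExit g R ∧
    ¬ ∃ f : V3 → ℝ, ContDiffOn ℝ 2 f {x | ∑ i, x i ^ 2 < R ^ 2} ∧
      ∀ x v : V3, ∑ i, x i ^ 2 < R ^ 2 → v ≠ 0 → 0 < hess g f x v := by
  obtain ⟨ψ, b, t, ht, hψ, hb, h0, hA, hq, hin, hout⟩ := exists_psi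
  have hfar : ∀ x : V3, (5 / 2 * t) ^ 2 < ∑ i, x i ^ 2 → ψ x = 0 ∧ b x = 0 := by
    intro x hx
    apply hout
    rw [Fin.sum_univ_three] at hx
    unfold pp
    have h16 : 16 ≤ t ^ 2 := by nlinarith
    by_contra hcon
    have h1 : x 2 ^ 2 ≤ 2 * t ^ 2 := by nlinarith [sq_nonneg (x 0 ^ 2 + x 1 ^ 2)]
    have h2 : 4 * t ^ 2 ≤ x 0 ^ 2 + x 1 ^ 2 := by nlinarith
    nlinarith [sq_nonneg (x 2)]
  refine ⟨3 * t, met ψ, by linarith, ⟨met_smooth ψ hψ, fun x => met_posDef ψ x (h0 x)⟩,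
    ⟨5 / 2 * t, by linarith, fun x hx => ?_⟩,
    convex_bd ψ b hψ hb _ (fun x hx => hfar x (by rw [hx]; nlinarith)),
    bounded_exit ψ b hψ hb h0 _ hA hq _, ?_⟩
  · ext i j
    simp [met, (hfar x hx).1, Matrix.one_apply]
  · rintro ⟨f, hf, hpos⟩
    have hsub : ∀ x : V3, GG x ≤ 0 → ∑ i, x i ^ 2 < (3 * t) ^ 2 := by
      intro x hx
      obtain ⟨h1, h2, -⟩ := K_bound x hx
      rw [Fin.sum_univ_three]
      nlinarith
    have hopen : IsOpen {x : V3 | ∑ i, x i ^ 2 < (3 * t) ^ 2} :=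
      isOpen_lt (by fun_prop) continuous_const
    refine no_convex (met ψ) GG GG_smooth K_compact ⟨![1, 1, 0], by simp [GG]; norm_num⟩
      (fun _ => 1) (fun h => by simpa using congrFun h 0) (fun x hx => ?_) f
      (fun x hx => hf.contDiffAt (hopen.mem_nhds (hsub x hx)))
      (fun x hx v hv => hpos x v (hsub x hx) hv)
    obtain ⟨h1, h2, h3⟩ := K_bound x hx.le
    obtain ⟨e1, e2⟩ := hin x h3
    have hp := pp_nonneg x
    have hp1 : 0 < 1 + pp x := by linarith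
    refine torus ψ x (b x) (hψ.differentiable (by simp) x) (hb x) hx ?_ ?_ ?_
    · rw [e1, le_div_iff₀ hp1]
      linarith
    · rw [e2]
      exact div_nonpos_of_nonpos_of_nonneg (by norm_num) (by positivity)
    · rw [e1, e2]
      have h4 : 2 * (x 0 ^ 2 + x 1 ^ 2) ≤ 1 + pp x := by
        unfold pp
        nlinarith [sq_nonneg (x 0 ^ 2 + x 1 ^ 2 - 1), sq_nonneg (x 2)]
      have : -(-40000 / (1 + pp x) ^ 2) * (x 0 ^ 2 + x 1 ^ 2)
          = 40000 / (1 + pp x) / 2 * (2 * (x 0 ^ 2 + x 1 ^ 2) / (1 + pp x)) := by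
        field_simp
      rw [this]
      exact mul_le_of_le_one_right (by positivity) ((div_le_one hp1).mpr h4)

end Pool.Agent.H733Z.Nil
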