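import Mathlib

/-!
Riemannian metrics on closed round balls of `ℝ^n`, in the global chart given by the coordinates.
-/

set_option autoImplicit false

open scoped ContDiff

namespace Pool.Agent.H733Z.Nil

variable {n : ℕ}

/-- the closed round ball of radius `R` -/
def cball (n : ℕ) (R : ℝ) : Set (Fin n → ℝ) := {x | ∑ i, x i ^ 2 ≤ R ^ 2}

/-- the `i`-th partial derivative -/
noncomputable def pd (f : (Fin n → ℝ) → ℝ) (i : Fin n) (x : Fin n → ℝ) : ℝ :=
  fderiv ℝ f x (Pi.single i 1)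

/-- a smooth field of positive definite symmetric matrices -/
def IsMetric (g : (Fin n → ℝ) → Matrix (Fin n) (Fin n) ℝ) : Prop :=
  (∀ i j, ContDiff ℝ ∞ (fun x => g x i j)) ∧ ∀ x, (g x).PosDef

/-- the Christoffel symbol `Γ^k_{ij}` of the Levi-Civita connection at `x` -/
noncomputable def christoffel (g : (Fin n → ℝ) → Matrix (Fin n) (Fin n) ℝ) (x : Fin n → ℝ)
    (k i j : Fin n) : ℝ :=
  (1 / 2) * ∑ l, (g x)⁻¹ k l *
    (pd (fun y => g y j l) i x + pd (fun y => g y i l) j x - pd (fun y => g y i j) l x)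

/-- the Riemannian Hessian of `f` at `x` evaluated on `(v, v)` -/
noncomputable def hess (g : (Fin n → ℝ) → Matrix (Fin n) (Fin n) ℝ) (f : (Fin n → ℝ) → ℝ)
    (x v : Fin n → ℝ) : ℝ :=
  ∑ i, ∑ j, (pd (pd f j) i x - ∑ k, christoffel g x k i j * pd f k x) * v i * v j

/-- `γ` is a unit-speed geodesic of `g` on the time interval `[a, b]` -/
def IsUnitGeodesic (g : (Fin n → ℝ) → Matrix (Fin n) (Fin n) ℝ) (γ : ℝ → Fin n → ℝ) (a b : ℝ) :
    Prop :=
  ∃ γ' γ'' : ℝ → Fin n → ℝ, ∀ t ∈ Set.Icc a b,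
    HasDerivWithinAt γ (γ' t) (Set.Icc a b) t ∧ HasDerivWithinAt γ' (γ'' t) (Set.Icc a b) t ∧
    (∀ k, γ'' t k + ∑ i, ∑ j, christoffel g (γ t) k i j * γ' t i * γ' t j = 0) ∧
    ∑ i, ∑ j, g (γ t) i j * γ' t i * γ' t j = 1

/-- the boundary sphere is strictly convex: the Hessian of the defining function `|x|^2`, whose
restriction to tangent vectors of the sphere is a positive multiple of the second fundamental form
for the inward normal, is positive on nonzero tangent vectors -/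
def ConvexBoundary (g : (Fin n → ℝ) → Matrix (Fin n) (Fin n) ℝ) (R : ℝ) : Prop :=
  ∀ x v : Fin n → ℝ, ∑ i, x i ^ 2 = R ^ 2 → v ≠ 0 → ∑ i, x i * v i = 0 →
    0 < hess g (fun y => ∑ i, y i ^ 2) x v

/-- unit-speed geodesics stay in the ball for a bounded time only -/
def BoundedExit (g : (Fin n → ℝ) → Matrix (Fin n) (Fin n) ℝ) (R : ℝ) : Prop :=
  ∃ T : ℝ, ∀ (γ : ℝ → Fin n → ℝ) (a b : ℝ), IsUnitGeodesic g γ a b →
    (∀ t ∈ Set.Icc a b, γ t ∈ cball n R) → b - a ≤ T

end Pool.Agent.H733Z.Nil
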